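import Mathlib

/-!
# Averages over finite types
-/

set_option autoImplicit false

namespace Pool.Agent.H689.SX

open Finset

/-- the average of a real function on a finite type -/
noncomputable def ev {α : Type*} [Fintype α] (f : α → ℝ) : ℝ := (∑ x, f x) / Fintype.card α

section basic

variable {α β γ : Type*} [Fintype α] [Fintype β] [Fintype γ]

theorem ev_congr {f g : α → ℝ} (h : ∀ x, f x = g x) : ev f = ev g := by
  unfold ev; rw [sum_congr rfl fun x _ => h x]

theorem ev_add (f g : α → ℝ) : ev (fun x => f x + g x) = ev f + ev g := by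
  unfold ev; rw [sum_add_distrib, add_div]

theorem ev_sub (f g : α → ℝ) : ev (fun x => f x - g x) = ev f - ev g := by
  unfold ev; rw [sum_sub_distrib, sub_div]

theorem ev_mul (c : ℝ) (f : α → ℝ) : ev (fun x => c * f x) = c * ev f := by
  unfold ev; rw [← mul_sum, mul_div_assoc]

theorem ev_mul' (c : ℝ) (f : α → ℝ) : ev (fun x => f x * c) = ev f * c := by
  unfold ev; rw [← sum_mul, div_mul_eq_mul_div]

theorem ev_neg (f : α → ℝ) : ev (fun x => - f x) = - ev f := by
  unfold ev; rw [sum_neg_distrib, neg_div]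

theorem ev_sum {ι : Type*} (s : Finset ι) (f : ι → α → ℝ) :
    ev (fun x => ∑ i ∈ s, f i x) = ∑ i ∈ s, ev (f i) := by
  unfold ev; rw [sum_comm, sum_div]

theorem ev_mono {f g : α → ℝ} (h : ∀ x, f x ≤ g x) : ev f ≤ ev g :=
  div_le_div_of_nonneg_right (sum_le_sum fun x _ => h x) (Nat.cast_nonneg _)

theorem ev_nonneg {f : α → ℝ} (h : ∀ x, 0 ≤ f x) : 0 ≤ ev f :=
  div_nonneg (sum_nonneg fun x _ => h x) (Nat.cast_nonneg _)

theorem card_pos' [Nonempty α] : (0 : ℝ) < Fintype.card α := by
  exact_mod_cast Fintype.card_pos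

theorem ev_const [Nonempty α] (c : ℝ) : ev (fun _ : α => c) = c := by
  have h := card_pos' (α := α)
  unfold ev
  rw [sum_const, card_univ, nsmul_eq_mul, mul_div_assoc, mul_comm, div_mul_cancel₀]
  exact h.ne'

theorem ev_le_const [Nonempty α] {f : α → ℝ} {c : ℝ} (h : ∀ x, f x ≤ c) : ev f ≤ c :=
  (ev_mono h).trans (le_of_eq (ev_const c))

theorem const_le_ev [Nonempty α] {f : α → ℝ} {c : ℝ} (h : ∀ x, c ≤ f x) : c ≤ ev f :=
  (le_of_eq (ev_const c).symm).trans (ev_mono h)

theorem ev_comm (f : α → β → ℝ) : ev (fun x => ev (f x)) = ev (fun y => ev fun x => f x y) := by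
  unfold ev
  simp only [div_eq_mul_inv, ← sum_mul]
  rw [sum_comm]
  ring

theorem ev_prod (f : α × β → ℝ) : ev f = ev (fun x => ev fun y => f (x, y)) := by
  unfold ev
  rw [Fintype.sum_prod_type, Fintype.card_prod]
  simp only [div_eq_mul_inv, ← sum_mul]
  push_cast
  rw [mul_inv]
  ring

theorem ev_equiv (e : α ≃ β) (f : β → ℝ) : ev (fun x => f (e x)) = ev f := by
  unfold ev
  rw [e.sum_comp, Fintype.card_congr e]

theorem ev_abs_le (f : α → ℝ) : |ev f| ≤ ev (fun x => |f x|) := by
  unfold ev
  rw [abs_div, Nat.abs_cast]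
  exact div_le_div_of_nonneg_right (abs_sum_le_sum_abs _ _) (Nat.cast_nonneg _)

theorem ev_cs (f g : α → ℝ) :
    ev (fun x => f x * g x) ^ 2 ≤ ev (fun x => f x ^ 2) * ev (fun x => g x ^ 2) := by
  unfold ev
  rw [div_pow, div_mul_div_comm, ← sq]
  exact div_le_div_of_nonneg_right (sum_mul_sq_le_sq_mul_sq _ _ _) (by positivity)

theorem ev_sq_le [Nonempty α] (f : α → ℝ) : ev f ^ 2 ≤ ev (fun x => f x ^ 2) := by
  have h := ev_cs f (fun _ => 1)
  simp only [mul_one, one_pow, ev_const] at h
  exact h

theorem ev_sqrt_le [Nonempty α] {f : α → ℝ} (h : ∀ x, 0 ≤ f x) :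
    ev (fun x => √(f x)) ≤ √(ev f) := by
  apply Real.le_sqrt_of_sq_le
  refine (ev_sq_le _).trans (le_of_eq ?_)
  exact ev_congr fun x => Real.sq_sqrt (h x)

/-- the indicator of a proposition -/
noncomputable def ind (p : Prop) : ℝ := by classical exact if p then 1 else 0

theorem ind_true {p : Prop} (h : p) : ind p = 1 := by unfold ind; rw [if_pos h]
theorem ind_false {p : Prop} (h : ¬ p) : ind p = 0 := by unfold ind; rw [if_neg h]
theorem ind_nonneg (p : Prop) : 0 ≤ ind p := by
  by_cases h : p
  · rw [ind_true h]; norm_num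
  · rw [ind_false h]
theorem ind_le_one (p : Prop) : ind p ≤ 1 := by
  by_cases h : p
  · rw [ind_true h]
  · rw [ind_false h]; norm_num
theorem ind_mono {p q : Prop} (h : p → q) : ind p ≤ ind q := by
  by_cases hp : p
  · rw [ind_true hp, ind_true (h hp)]
  · rw [ind_false hp]; exact ind_nonneg q
theorem ind_or (p q : Prop) : ind (p ∨ q) ≤ ind p + ind q := by
  by_cases hp : p
  · rw [ind_true (Or.inl hp), ind_true hp]; linarith [ind_nonneg q]
  · by_cases hq : q
    · rw [ind_true (Or.inr hq), ind_true hq]; linarith [ind_nonneg p]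
    · rw [ind_false (by tauto)]; exact add_nonneg (ind_nonneg _) (ind_nonneg _)
theorem ind_sq (p : Prop) : ind p ^ 2 = ind p := by
  by_cases h : p
  · rw [ind_true h]; norm_num
  · rw [ind_false h]; norm_num
theorem ind_not (p : Prop) : ind (¬ p) = 1 - ind p := by
  by_cases h : p
  · rw [ind_true h, ind_false (by tauto)]; norm_num
  · rw [ind_false h, ind_true h]; norm_num
theorem ind_and (p q : Prop) : ind (p ∧ q) = ind p * ind q := by
  by_cases hp : p
  · by_cases hq : q
    · rw [ind_true ⟨hp, hq⟩, ind_true hp, ind_true hq]; norm_num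
    · rw [ind_false (by tauto), ind_false hq]; norm_num
  · rw [ind_false (by tauto), ind_false hp]; norm_num
theorem ind_congr {p q : Prop} (h : p ↔ q) : ind p = ind q := by rw [propext h]

/-- the average of an indicator -/
theorem ev_ind (p : α → Prop) [DecidablePred p] :
    ev (fun x => ind (p x)) = ((univ.filter p).card : ℝ) / Fintype.card α := by
  unfold ev
  congr 1
  rw [Finset.card_eq_sum_ones, Finset.sum_filter]
  push_cast
  refine sum_congr rfl fun x _ => ?_
  by_cases h : p x
  · rw [ind_true h, if_pos h]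
  · rw [ind_false h, if_neg h]

theorem markov {f : α → ℝ} (hf : ∀ x, 0 ≤ f x) {t : ℝ} (ht : 0 < t) :
    ev (fun x => ind (t ≤ f x)) ≤ ev f / t := by
  rw [div_eq_mul_inv, ← ev_mul']
  refine ev_mono fun x => ?_
  by_cases h : t ≤ f x
  · rw [ind_true h, ← div_eq_mul_inv, le_div_iff₀ ht]; linarith
  · rw [ind_false h]; exact mul_nonneg (hf x) (by positivity)

end basic

section pi

variable {ι X : Type*} [Fintype ι] [DecidableEq ι] [Fintype X]

/-- resampling one coordinate -/
theorem ev_update (i : ι) (F : (ι → X) → ℝ) :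
    ev (fun c : ι → X => ev fun z => F (Function.update c i z)) = ev F := by
  rcases isEmpty_or_nonempty X with hX | hX
  · have : IsEmpty (ι → X) := ⟨fun f => hX.elim (f i)⟩
    unfold ev
    simp
  have e := Equiv.funSplitAt i X
  have h1 : ∀ G : (ι → X) → ℝ, ev G = ev (fun p : X × ({j // j ≠ i} → X) =>
      G ((Equiv.funSplitAt i X).symm p)) := fun G => (ev_equiv (Equiv.funSplitAt i X).symm G).symm
  rw [h1, h1 F, ev_prod, ev_prod]
  have h2 : ∀ (x z : X) (y : {j // j ≠ i} → X),
      Function.update ((Equiv.funSplitAt i X).symm (x, y)) i z =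
        (Equiv.funSplitAt i X).symm (z, y) := by
    intro x z y
    funext j
    by_cases hj : j = i
    · subst hj
      simp [Equiv.funSplitAt, Equiv.piSplitAt]
    · rw [Function.update_of_ne hj]
      simp [Equiv.funSplitAt, Equiv.piSplitAt, hj]
  simp only [h2]
  rw [ev_const, ev_comm]

/-- the average of a function of one coordinate -/
theorem ev_coord [Nonempty X] (i : ι) (g : X → ℝ) : ev (fun c : ι → X => g (c i)) = ev g := by
  rw [← ev_update i]
  simp only [Function.update_self]
  rw [ev_const]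

/-- independence -/
theorem ev_indep [Nonempty X] (i : ι) (g : X → ℝ) (F : (ι → X) → ℝ)
    (hF : ∀ c z, F (Function.update c i z) = F c) :
    ev (fun c : ι → X => g (c i) * F c) = ev g * ev F := by
  rw [← ev_update i]
  simp only [Function.update_self, hF]
  rw [← ev_mul]
  exact ev_congr fun c => ev_mul' _ _

end pi

end Pool.Agent.H689.SX
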