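import Pool.Agent.H689.SX.Avg

/-!
# The noisy walk on a power of a graph
-/

set_option autoImplicit false
set_option linter.unusedSectionVars false

namespace Pool.Agent.H689.SX

open Finset

/-- A regular multigraph given by its rotation map: the dart `(v, j)` is the `j`-th dart at the
vertex `v`; the map sends every dart to its reverse. -/
structure Rot (V J : Type) where
  rot : V × J → V × J
  inv : ∀ x, rot (rot x) = x

/-- the random choices for one coordinate: a number below `b` (`0` means that the coordinate is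
resampled), a labelled vertex and a dart number -/
abbrev Ch (b : ℕ) (V Q J : Type) : Type := Fin b × (V × Q) × J

section defs

variable {V J Q ι : Type} (G : Rot V J) {b : ℕ} [NeZero b]

/-- move along the `j`-th dart, keep the label -/
def mv (x : V × Q) (j : J) : V × Q := ((G.rot (x.1, j)).1, x.2)

/-- one step of one coordinate -/
def st (x : V × Q) (c : Ch b V Q J) : V × Q := if c.1 = 0 then c.2.1 else mv G x c.2.2

/-- one step of the walk -/
def yy (ω : ι → V × Q) (c : ι → Ch b V Q J) (i : ι) : V × Q := st G (ω i) (c i)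

/-- the rotation map with labels as a permutation -/
def rotX : (V × Q) × J ≃ (V × Q) × J where
  toFun p := (mv G p.1 p.2, (G.rot (p.1.1, p.2)).2)
  invFun p := (mv G p.1 p.2, (G.rot (p.1.1, p.2)).2)
  left_inv p := by
    obtain ⟨⟨v, l⟩, j⟩ := p
    have h := G.inv (v, j)
    simp only [mv]
    rw [show ((G.rot (v, j)).1, (G.rot (v, j)).2) = G.rot (v, j) from rfl, h]
  right_inv p := by
    obtain ⟨⟨v, l⟩, j⟩ := p
    have h := G.inv (v, j)
    simp only [mv]
    rw [show ((G.rot (v, j)).1, (G.rot (v, j)).2) = G.rot (v, j) from rfl, h]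

end defs

section ana

variable {V J Q ι : Type} [Fintype V] [Fintype J] [Fintype Q] [Fintype ι] [DecidableEq ι]
  (G : Rot V J) (b : ℕ) [NeZero b]

theorem ev_mv [Nonempty J] (g : V × Q → ℝ) : ev (fun x : V × Q => ev fun j : J => g (mv G x j)) =
    ev g := by
  have h := ev_equiv (rotX (Q := Q) G) (fun p => g p.1)
  have h1 := ev_prod (fun p : (V × Q) × J => g (rotX G p).1)
  have h2 := ev_prod (fun p : (V × Q) × J => g p.1)
  simp only [ev_const] at h2
  rw [← h2, ← h, h1]
  rfl

theorem ev_zero : ev (fun r : Fin b => ind (r = 0)) = 1 / b := by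
  rw [ev_ind, Fintype.card_fin]
  congr 1
  have : (univ.filter fun r : Fin b => r = 0) = {0} := by ext r; simp
  rw [this]; simp

/-- the average of a function of the outcome of a step at one coordinate -/
theorem ev_step [Nonempty V] [Nonempty Q] [Nonempty J] (x : V × Q) (K : V × Q → ℝ) :
    ev (fun c : Ch b V Q J => K (st G x c)) =
      (1 / b) * ev K + (1 - 1 / b) * ev (fun j : J => K (mv G x j)) := by
  have h1 : ∀ r : Fin b, (ev fun q : (V × Q) × J => K (st G x (r, q))) =
      ind (r = 0) * ev K + (1 - ind (r = 0)) * ev (fun j : J => K (mv G x j)) := by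
    intro r
    rw [ev_prod]
    by_cases hr : r = 0
    · rw [ind_true hr]
      simp only [st, hr, if_true, ev_const]
      ring
    · rw [ind_false hr]
      simp only [st, hr, if_false, ev_const]
      ring
  have h2 : ev (fun r : Fin b => (1 - ind (r = 0))) = 1 - 1 / b := by
    rw [ev_sub, ev_zero, ev_const]
  rw [ev_prod, ev_congr h1, ev_add, ev_mul', ev_mul', ev_zero, h2]

/-- the average of a function of the outcome of a step, on the event of resampling -/
theorem ev_step0 [Nonempty V] [Nonempty Q] [Nonempty J] (x : V × Q) (K : V × Q → ℝ) :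
    ev (fun c : Ch b V Q J => ind (c.1 = 0) * K (st G x c)) = (1 / b) * ev K := by
  have h1 : ∀ r : Fin b, (ev fun q : (V × Q) × J => ind (r = 0) * K (st G x (r, q))) =
      ind (r = 0) * ev K := by
    intro r
    rw [ev_prod]
    by_cases hr : r = 0
    · rw [ind_true hr]
      simp only [st, hr, if_true, ev_const, one_mul]
    · rw [ind_false hr]
      simp only [zero_mul, ev_const]
  rw [ev_prod, ev_congr h1, ev_mul', ev_zero]

variable (f : (ι → V × Q) → ℝ)

/-- the average over the permutations -/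
noncomputable def sy (y : ι → V × Q) : ℝ := ev fun π : Equiv.Perm ι => f (fun i => y (π i))

/-- the averaging operator of the walk -/
noncomputable def Ph (ω : ι → V × Q) : ℝ := ev fun c : ι → Ch b V Q J => sy f (yy G ω c)

/-- the average if the coordinate `i` ends in `w` -/
noncomputable def Ps (i : ι) (ω : ι → V × Q) (w : V × Q) : ℝ :=
  ev fun c : ι → Ch b V Q J => sy f (Function.update (yy G ω c) i w)

/-- the average over the coordinate `i` -/
noncomputable def mm (i : ι) (ω : ι → V × Q) : ℝ := ev (Ps G b f i ω)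

theorem sy_mem (hf : ∀ ω, 0 ≤ f ω ∧ f ω ≤ 1) (y : ι → V × Q) : 0 ≤ sy f y ∧ sy f y ≤ 1 :=
  ⟨ev_nonneg fun _ => (hf _).1, ev_le_const fun _ => (hf _).2⟩

theorem yy_update (ω : ι → V × Q) (c : ι → Ch b V Q J) (i : ι) (q : Ch b V Q J) :
    yy G ω (Function.update c i q) = Function.update (yy G ω c) i (st G (ω i) q) := by
  funext k
  by_cases hk : k = i
  · subst hk; simp [yy]
  · simp [yy, Function.update_of_ne hk]

theorem yy_update_start (ω : ι → V × Q) (z w : V × Q) (c : ι → Ch b V Q J)
    (i : ι) : Function.update (yy G (Function.update ω i z) c) i w =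
      Function.update (yy G ω c) i w := by
  funext k
  by_cases hk : k = i
  · subst hk; simp
  · simp [yy, Function.update_of_ne hk]

theorem Ps_update (i : ι) (ω : ι → V × Q) (z w : V × Q) :
    Ps G b f i (Function.update ω i z) w = Ps G b f i ω w := by
  unfold Ps
  simp only [yy_update_start]

theorem mm_update (i : ι) (ω : ι → V × Q) (z : V × Q) :
    mm G b f i (Function.update ω i z) = mm G b f i ω := by
  unfold mm
  exact ev_congr fun w => Ps_update G b f i ω z w

variable [Nonempty V] [Nonempty Q] [Nonempty J]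

variable {f} in
theorem Ph_mem (hf : ∀ ω, 0 ≤ f ω ∧ f ω ≤ 1)
    (ω : ι → V × Q) : 0 ≤ Ph G b f ω ∧ Ph G b f ω ≤ 1 :=
  ⟨ev_nonneg fun _ => (sy_mem f hf _).1, ev_le_const fun _ => (sy_mem f hf _).2⟩

variable {f} in
theorem Ps_mem (hf : ∀ ω, 0 ≤ f ω ∧ f ω ≤ 1)
    (i : ι) (ω : ι → V × Q) (w : V × Q) : 0 ≤ Ps G b f i ω w ∧ Ps G b f i ω w ≤ 1 :=
  ⟨ev_nonneg fun _ => (sy_mem f hf _).1, ev_le_const fun _ => (sy_mem f hf _).2⟩

variable {f} in
theorem mm_mem (hf : ∀ ω, 0 ≤ f ω ∧ f ω ≤ 1)
    (i : ι) (ω : ι → V × Q) : 0 ≤ mm G b f i ω ∧ mm G b f i ω ≤ 1 :=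
  ⟨ev_nonneg fun _ => (Ps_mem G b hf i ω _).1, ev_le_const fun _ => (Ps_mem G b hf i ω _).2⟩

theorem Ph_eq (i : ι) (ω : ι → V × Q) :
    Ph G b f ω = (1 / b) * mm G b f i ω +
      (1 - 1 / b) * ev (fun j : J => Ps G b f i ω (mv G (ω i) j)) := by
  unfold Ph
  rw [← ev_update i]
  simp only [yy_update]
  have h1 : ∀ (c : ι → Ch b V Q J),
      (ev fun q : Ch b V Q J => sy f (Function.update (yy G ω c) i (st G (ω i) q))) =
      (1 / b) * ev (fun w => sy f (Function.update (yy G ω c) i w)) +
      (1 - 1 / b) * ev (fun j' : J => sy f (Function.update (yy G ω c) i (mv G (ω i) j'))) :=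
    fun c => ev_step G b (ω i) (fun w => sy f (Function.update (yy G ω c) i w))
  rw [ev_congr h1, ev_add, ev_mul, ev_mul]
  unfold mm Ps
  rw [ev_comm, ev_comm (fun (c : ι → Ch b V Q J) (j' : J) =>
    sy f (Function.update (yy G ω c) i (mv G (ω i) j')))]

/-- the average of `Ph` over the coordinate `i` -/
theorem ev_Ph_update (i : ι) (ω : ι → V × Q) :
    ev (fun z => Ph G b f (Function.update ω i z)) = mm G b f i ω := by
  have h1 : ∀ z, Ph G b f (Function.update ω i z) = (1 / b) * mm G b f i ω +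
      (1 - 1 / b) * ev (fun j : J => Ps G b f i ω (mv G z j)) := by
    intro z
    rw [Ph_eq G b f i, mm_update]
    simp only [Ps_update, Function.update_self]
  rw [ev_congr h1, ev_add, ev_const, ev_mul, ev_mv G (Ps G b f i ω)]
  unfold mm
  ring

/-- the deviation -/
theorem Ph_sub (i : ι) (ω : ι → V × Q) :
    Ph G b f ω - mm G b f i ω =
      (1 - 1 / b) * ev (fun j : J => Ps G b f i ω (mv G (ω i) j) - mm G b f i ω) := by
  rw [Ph_eq G b f i, ev_sub, ev_const]
  ring

/-- conditioning on a resampled coordinate -/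
theorem ev_ind_sy (i : ι) (ω : ι → V × Q) :
    ev (fun c : ι → Ch b V Q J => ind ((c i).1 = 0) * sy f (yy G ω c)) =
      (1 / b) * mm G b f i ω := by
  rw [← ev_update i]
  simp only [yy_update, Function.update_self]
  have h1 : ∀ c : ι → Ch b V Q J, (ev fun q : Ch b V Q J => ind (q.1 = 0) *
      sy f (Function.update (yy G ω c) i (st G (ω i) q))) =
      (1 / b) * ev (fun w => sy f (Function.update (yy G ω c) i w)) :=
    fun c => ev_step0 G b (ω i) (fun w => sy f (Function.update (yy G ω c) i w))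
  rw [ev_congr h1, ev_mul]
  unfold mm Ps
  rw [ev_comm]

/-- the centred indicators of resampling are uncorrelated -/
theorem ev_theta (i k : ι) :
    ev (fun c : ι → Ch b V Q J => (ind ((c i).1 = 0) - 1 / b) * (ind ((c k).1 = 0) - 1 / b)) =
      if i = k then (1 / (b : ℝ)) * (1 - 1 / b) else 0 := by
  have h0 : ev (fun q : Ch b V Q J => ind (q.1 = 0)) = 1 / b := by
    rw [ev_prod]
    simp only [ev_const]
    exact ev_zero b
  by_cases hik : i = k
  · subst hik
    rw [if_pos rfl, ev_coord i (fun q : Ch b V Q J => (ind (q.1 = 0) - 1 / b) *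
      (ind (q.1 = 0) - 1 / b))]
    have h1 : ∀ q : Ch b V Q J, (ind (q.1 = 0) - 1 / b) * (ind (q.1 = 0) - 1 / b) =
        (1 - 2 * (1 / b)) * ind (q.1 = 0) + (1 / b) * (1 / b) := by
      intro q
      have := ind_sq (q.1 = 0)
      linear_combination this
    rw [ev_congr h1, ev_add, ev_mul, h0, ev_const]
    ring
  · rw [if_neg hik, ev_indep i (fun q : Ch b V Q J => ind (q.1 = 0) - 1 / b)
      (fun c => ind ((c k).1 = 0) - 1 / b)]
    · rw [ev_sub, h0, ev_const]; ring
    · intro c z
      rw [Function.update_of_ne (Ne.symm hik)]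

/-- **Bessel's inequality.** -/
theorem bessel (hf : ∀ ω, 0 ≤ f ω ∧ f ω ≤ 1) (ω : ι → V × Q) :
    ∑ i, (Ph G b f ω - mm G b f i ω) ^ 2 ≤ b * (Ph G b f ω * (1 - Ph G b f ω)) := by
  have hb : (0 : ℝ) < b := by exact_mod_cast Nat.pos_of_ne_zero (NeZero.ne b)
  set Φ := Ph G b f ω with hΦ
  set g : (ι → Ch b V Q J) → ℝ := fun c => sy f (yy G ω c) with hg
  have hgm : ∀ c, 0 ≤ g c ∧ g c ≤ 1 := fun c => sy_mem f hf _
  have hevg : ev g = Φ := rfl
  set t : ι → ℝ := fun i => (1 / b) * (mm G b f i ω - Φ) with ht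
  set θ : ι → (ι → Ch b V Q J) → ℝ := fun i c => ind ((c i).1 = 0) - 1 / b with hθ
  have h1 : ∀ i, ev (fun c => θ i c * (g c - Φ)) = t i := by
    intro i
    have e0 : ∀ c, θ i c * (g c - Φ) = ind ((c i).1 = 0) * g c - Φ * ind ((c i).1 = 0) -
        (1 / b) * g c + (1 / b) * Φ := fun c => by simp only [hθ]; ring
    have e1 : ev (fun c : ι → Ch b V Q J => ind ((c i).1 = 0)) = 1 / b := by
      rw [ev_coord i (fun q : Ch b V Q J => ind (q.1 = 0)), ev_prod]
      simp only [ev_const]
      exact ev_zero b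
    rw [ev_congr e0, ev_add, ev_sub, ev_sub, ev_mul, ev_mul, ev_const, ev_ind_sy, e1, hevg]
    simp only [ht]
    ring
  set T := ∑ i, t i ^ 2 with hT
  have hT0 : 0 ≤ T := sum_nonneg fun _ _ => sq_nonneg _
  have h2 : ev (fun c => (∑ i, t i * θ i c) * (g c - Φ)) = T := by
    have e0 : ∀ c, (∑ i, t i * θ i c) * (g c - Φ) = ∑ i, t i * (θ i c * (g c - Φ)) := by
      intro c
      rw [sum_mul]
      exact sum_congr rfl fun i _ => by ring
    rw [ev_congr e0, ev_sum]
    refine sum_congr rfl fun i _ => ?_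
    rw [ev_mul, h1]
    ring
  have h3 : ev (fun c => (∑ i, t i * θ i c) ^ 2) = (1 / b) * (1 - 1 / b) * T := by
    have e0 : ∀ c, (∑ i, t i * θ i c) ^ 2 = ∑ i, ∑ k, (t i * t k) * (θ i c * θ k c) := by
      intro c
      rw [sq, sum_mul_sum]
      exact sum_congr rfl fun i _ => sum_congr rfl fun k _ => by ring
    rw [ev_congr e0, ev_sum, hT, mul_sum]
    refine sum_congr rfl fun i _ => ?_
    rw [ev_sum]
    have e1 : ∀ k, ev (fun c => (t i * t k) * (θ i c * θ k c)) =
        if i = k then (1 / (b : ℝ)) * (1 - 1 / b) * t i ^ 2 else 0 := by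
      intro k
      rw [ev_mul]
      have := ev_theta (V := V) (Q := Q) (J := J) b i k
      simp only [hθ]
      rw [this]
      by_cases hik : i = k
      · subst hik; simp only [if_true]; ring
      · simp only [if_neg hik]; ring
    rw [sum_congr rfl fun k _ => e1 k]
    simp
  have h4 : ev (fun c => (g c - Φ) ^ 2) ≤ Φ * (1 - Φ) := by
    have e0 : ∀ c, (g c - Φ) ^ 2 ≤ g c - (2 * Φ) * g c + Φ ^ 2 := by
      intro c
      nlinarith [(hgm c).1, (hgm c).2]
    refine (ev_mono e0).trans ?_
    rw [ev_add, ev_sub, ev_mul, ev_const, hevg]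
    apply le_of_eq; ring
  have h5 := ev_cs (fun c => ∑ i, t i * θ i c) (fun c => g c - Φ)
  rw [h2, h3] at h5
  have hv0 : 0 ≤ ev (fun c => (g c - Φ) ^ 2) := ev_nonneg fun _ => sq_nonneg _
  have hΦm := Ph_mem G b hf ω
  rw [← hΦ] at hΦm
  have hv : 0 ≤ Φ * (1 - Φ) := mul_nonneg hΦm.1 (by linarith [hΦm.2])
  have h6 : T ≤ (1 / b) * (Φ * (1 - Φ)) := by
    by_cases hTz : T = 0
    · rw [hTz]; positivity
    · have hTp : 0 < T := lt_of_le_of_ne hT0 (Ne.symm hTz)
      have h7 : T ^ 2 ≤ (1 / b) * T * (Φ * (1 - Φ)) := by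
        refine h5.trans ?_
        have hb1 : (1 : ℝ) ≤ b := by exact_mod_cast Nat.pos_of_ne_zero (NeZero.ne b)
        have hb2 : (1 : ℝ) / b * (1 - 1 / b) ≤ 1 / b := by
          have : (0 : ℝ) < 1 / b := by positivity
          nlinarith
        have hb3 : 0 ≤ (1 : ℝ) / b * (1 - 1 / b) := by
          have : (1 : ℝ) / b ≤ 1 := by rw [div_le_one hb]; exact hb1
          exact mul_nonneg (by positivity) (by linarith)
        calc (1 : ℝ) / b * (1 - 1 / b) * T * ev (fun c => (g c - Φ) ^ 2)
            ≤ (1 / b) * T * ev (fun c => (g c - Φ) ^ 2) := by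
              apply mul_le_mul_of_nonneg_right _ hv0
              exact mul_le_mul_of_nonneg_right hb2 hT0
          _ ≤ (1 / b) * T * (Φ * (1 - Φ)) := by
              apply mul_le_mul_of_nonneg_left h4
              positivity
      have h8 : T * T ≤ T * ((1 / b) * (Φ * (1 - Φ))) := by
        calc T * T = T ^ 2 := by ring
          _ ≤ (1 / b) * T * (Φ * (1 - Φ)) := h7
          _ = T * ((1 / b) * (Φ * (1 - Φ))) := by ring
      exact le_of_mul_le_mul_left h8 hTp
  have h9 : ∑ i, (Φ - mm G b f i ω) ^ 2 = (b : ℝ) ^ 2 * T := by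
    rw [hT, mul_sum]
    refine sum_congr rfl fun i _ => ?_
    simp only [ht]
    field_simp
    ring
  rw [h9]
  calc (b : ℝ) ^ 2 * T ≤ (b : ℝ) ^ 2 * ((1 / b) * (Φ * (1 - Φ))) :=
        mul_le_mul_of_nonneg_left h6 (by positivity)
    _ = b * (Φ * (1 - Φ)) := by field_simp

end ana

end Pool.Agent.H689.SX
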