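import Pool.Agent.H689.SX.Sym

/-!
# Large influences give small sets that do not expand
-/

set_option autoImplicit false
set_option linter.unusedSectionVars false

namespace Pool.Agent.H689.SX

open Finset

section dec

variable {V J Q ι : Type} [Fintype V] [Fintype J] [Fintype Q] [Fintype ι] [DecidableEq ι]
  (G : Rot V J) (b : ℕ) [NeZero b] [Nonempty V] [Nonempty Q] [Nonempty J]

/-- the number of the darts inside a set of vertices -/
noncomputable def inn (T : Finset V) : ℕ := by
  classical exact (univ.filter fun p : V × J => p.1 ∈ T ∧ (G.rot p).1 ∈ T).card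

theorem decode (f : (ι → V × Q) → ℝ) (hf : ∀ ω, 0 ≤ f ω ∧ f ω ≤ 1) (s Mm η : ℝ)
    (hNO : ∀ T : Finset V, (T.card : ℝ) ≤ Mm * s → (inn G T : ℝ) ≤ η * (Fintype.card J * s))
    (hsize : 33792 * b * (Fintype.card V * Fintype.card Q) ≤ Mm * s * Fintype.card ι)
    (ω : ι → V × Q) (i : ι) :
    ev (fun z => ind (1 / 16 ≤ |Ph G b f (Function.update ω i z) - mm G b f i ω|)) ≤
      32 * η * s / Fintype.card V := by
  classical
  have hb : (0 : ℝ) < b := by exact_mod_cast Nat.pos_of_ne_zero (NeZero.ne b)
  have hb1 : (1 : ℝ) ≤ b := by exact_mod_cast Nat.pos_of_ne_zero (NeZero.ne b)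
  have hR : (0 : ℝ) < Fintype.card ι := by
    have : Nonempty ι := ⟨i⟩
    exact card_pos'
  have hV : (0 : ℝ) < Fintype.card V := card_pos'
  have hQ : (0 : ℝ) < Fintype.card Q := card_pos'
  have hJ : (0 : ℝ) < Fintype.card J := card_pos'
  set ψ : V × Q → ℝ := fun w => Ps G b f i ω w - mm G b f i ω with hψ
  have hψ1 : ∀ w, |ψ w| ≤ 1 := by
    intro w
    have h1 := Ps_mem G b hf i ω w
    have h2 := mm_mem G b hf i ω
    rw [abs_le]
    constructor <;> simp only [hψ] <;> linarith [h1.1, h1.2, h2.1, h2.2]
  set S : V × Q → Prop := fun w => 1 / 32 ≤ |ψ w| with hS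
  set L : V × Q → Prop := fun z =>
    1 / 16 ≤ |Ph G b f (Function.update ω i z) - mm G b f i ω| with hL
  -- the size of `S`
  have hS1 : ev (fun w => ind (S w)) ≤ 1024 * b / Fintype.card ι := by
    have h1 : ev (fun w => ind (S w)) ≤ ev (fun w => ind ((1 / 1024 : ℝ) ≤ ψ w ^ 2)) := by
      refine ev_mono fun w => ind_mono fun h => ?_
      have h2 : (1 / 32 : ℝ) ^ 2 ≤ |ψ w| ^ 2 := pow_le_pow_left₀ (by norm_num) h 2
      rw [sq_abs] at h2
      linarith
    refine h1.trans ((markov (fun w => sq_nonneg _) (by norm_num)).trans ?_)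
    have h2 := infl G b f hf ω i
    have h3 : ev (fun w => ψ w ^ 2) ≤ b / Fintype.card ι := h2
    calc ev (fun w => ψ w ^ 2) / (1 / 1024) = 1024 * ev (fun w => ψ w ^ 2) := by ring
      _ ≤ 1024 * (b / Fintype.card ι) := by linarith
      _ = 1024 * b / Fintype.card ι := by ring
  -- a point of `L` has many neighbours in `S`
  have hL1 : ∀ z, L z → 1 / 32 ≤ ev (fun j : J => ind (S (mv G z j))) := by
    intro z hz
    have h1 := Ph_sub G b f i (Function.update ω i z)
    simp only [Ps_update, mm_update, Function.update_self] at h1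
    have h2 : |Ph G b f (Function.update ω i z) - mm G b f i ω| ≤
        ev (fun j : J => |ψ (mv G z j)|) := by
      rw [h1, abs_mul]
      have h3 : |1 - 1 / (b : ℝ)| ≤ 1 := by
        have : (0 : ℝ) < 1 / b := by positivity
        have : (1 : ℝ) / b ≤ 1 := by rw [div_le_one hb]; exact hb1
        rw [abs_le]; constructor <;> linarith
      have h4 := ev_abs_le (fun j : J => Ps G b f i ω (mv G z j) - mm G b f i ω)
      have h5 : 0 ≤ ev (fun j : J => |ψ (mv G z j)|) := ev_nonneg fun _ => abs_nonneg _
      calc |1 - 1 / (b : ℝ)| * |ev (fun j : J => Ps G b f i ω (mv G z j) - mm G b f i ω)|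
          ≤ 1 * ev (fun j : J => |ψ (mv G z j)|) := mul_le_mul h3 h4 (abs_nonneg _) (by norm_num)
        _ = _ := one_mul _
    have h3 : ev (fun j : J => |ψ (mv G z j)|) ≤
        ev (fun j : J => ind (S (mv G z j)) + 1 / 32) := by
      refine ev_mono fun j => ?_
      by_cases hs : S (mv G z j)
      · rw [ind_true hs]; linarith [hψ1 (mv G z j)]
      · rw [ind_false hs]
        have : |ψ (mv G z j)| < 1 / 32 := not_le.1 hs
        linarith
    rw [ev_add, ev_const] at h3
    have h4 : 1 / 16 ≤ |Ph G b f (Function.update ω i z) - mm G b f i ω| := hz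
    linarith
  -- the size of `L`
  have hL2 : ev (fun z => ind (L z)) ≤ 32768 * b / Fintype.card ι := by
    have h1 : ev (fun z => ind (L z)) ≤
        ev (fun z => ind ((1 / 32 : ℝ) ≤ ev (fun j : J => ind (S (mv G z j))))) :=
      ev_mono fun z => ind_mono (hL1 z)
    refine h1.trans ((markov (fun z => ev_nonneg fun _ => ind_nonneg _) (by norm_num)).trans ?_)
    rw [ev_mv G (fun w => ind (S w))]
    calc ev (fun w => ind (S w)) / (1 / 32) = 32 * ev (fun w => ind (S w)) := by ring
      _ ≤ 32 * (1024 * b / Fintype.card ι) := by linarith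
      _ = 32768 * b / Fintype.card ι := by ring
  have hcard : ((univ.filter fun w => S w ∨ L w).card : ℝ) ≤ Mm * s := by
    have h1 : ev (fun w => ind (S w ∨ L w)) ≤ 33792 * b / Fintype.card ι := by
      calc ev (fun w => ind (S w ∨ L w)) ≤ ev (fun w => ind (S w) + ind (L w)) :=
            ev_mono fun w => ind_or _ _
        _ = ev (fun w => ind (S w)) + ev (fun w => ind (L w)) := ev_add _ _
        _ ≤ 1024 * b / Fintype.card ι + 32768 * b / Fintype.card ι := add_le_add hS1 hL2
        _ = 33792 * b / Fintype.card ι := by ring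
    rw [ev_ind, Fintype.card_prod, div_le_iff₀ (by push_cast; positivity)] at h1
    refine h1.trans ?_
    rw [div_mul_eq_mul_div, div_le_iff₀ hR]
    push_cast
    exact hsize
  -- the slices
  have hslice : ∀ l : Q, ((univ.filter fun v : V => L (v, l)).card : ℝ) ≤ 32 * η * s := by
    intro l
    set T : Finset V := univ.filter fun v => S (v, l) ∨ L (v, l) with hT
    have h1 : (T.card : ℝ) ≤ Mm * s := by
      refine le_trans ?_ hcard
      have : T.card ≤ (univ.filter fun w => S w ∨ L w).card := by
        refine card_le_card_of_injOn (fun v => (v, l)) ?_ ?_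
        · intro v hv
          simp only [hT, coe_filter, mem_univ, true_and, Set.mem_ofPred_eq] at hv ⊢
          exact hv
        · intro v _ v' _ h
          simpa using h
      exact_mod_cast this
    have h2 := hNO T h1
    have h3 : ((univ.filter fun v : V => L (v, l)).card : ℝ) * (1 / 32 * Fintype.card J) ≤
        (inn G T : ℝ) := by
      have h4 : ∀ v ∈ univ.filter fun v : V => L (v, l), (1 / 32 * (Fintype.card J : ℝ)) ≤
          ((univ.filter fun j : J => S (mv G (v, l) j)).card : ℝ) := by
        intro v hv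
        rw [mem_filter] at hv
        have h5 := hL1 (v, l) hv.2
        rw [ev_ind, le_div_iff₀ hJ] at h5
        exact h5
      have h5 : ∑ v ∈ univ.filter (fun v : V => L (v, l)),
          ((univ.filter fun j : J => S (mv G (v, l) j)).card : ℝ) ≤ (inn G T : ℝ) := by
        have h6 : ∑ v ∈ univ.filter (fun v : V => L (v, l)),
            (univ.filter fun j : J => S (mv G (v, l) j)).card ≤ inn G T := by
          rw [← card_sigma]
          unfold inn
          refine card_le_card_of_injOn (fun p => (p.1, p.2)) ?_ ?_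
          · rintro ⟨v, j⟩ hp
            simp only [coe_sigma, Set.mem_sigma_iff, coe_filter, mem_univ, true_and,
              Set.mem_ofPred_eq] at hp ⊢
            rw [hT, mem_filter, mem_filter]
            exact ⟨⟨mem_univ _, Or.inr hp.1⟩, ⟨mem_univ _, Or.inl hp.2⟩⟩
          · rintro ⟨v, j⟩ _ ⟨v', j'⟩ _ h
            simp only [Prod.mk.injEq] at h
            obtain ⟨rfl, rfl⟩ := h
            rfl
        exact_mod_cast h6
      refine le_trans ?_ h5
      rw [← nsmul_eq_mul]
      exact card_nsmul_le_sum _ _ _ h4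
    have h6 : ((univ.filter fun v : V => L (v, l)).card : ℝ) * (1 / 32 * Fintype.card J) ≤
        (32 * η * s) * (1 / 32 * Fintype.card J) := by
      refine (h3.trans h2).trans (le_of_eq ?_)
      ring
    exact le_of_mul_le_mul_right h6 (by positivity)
  change ev (fun z => ind (L z)) ≤ _
  rw [ev_ind, Fintype.card_prod]
  have h1 : ((univ.filter fun z : V × Q => L z).card : ℝ) ≤ Fintype.card Q * (32 * η * s) := by
    have h2 : (univ.filter fun z : V × Q => L z).card =
        ∑ l : Q, (univ.filter fun v : V => L (v, l)).card := by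
      rw [Finset.card_eq_sum_card_fiberwise (f := Prod.snd) (t := univ) (fun _ _ => mem_univ _)]
      refine sum_congr rfl fun l _ => ?_
      refine card_bij (fun p _ => p.1) ?_ ?_ ?_
      · rintro ⟨v, l'⟩ hp
        simp only [mem_filter, mem_univ, true_and] at hp ⊢
        rw [← hp.2]; exact hp.1
      · rintro ⟨v, l'⟩ hp ⟨v', l''⟩ hp' h
        simp only [mem_filter, mem_univ, true_and] at hp hp' h
        rw [h, hp.2, hp'.2]
      · intro v hv
        simp only [mem_filter, mem_univ, true_and] at hv
        exact ⟨(v, l), by simp [hv], rfl⟩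
    rw [h2]
    push_cast
    refine (sum_le_sum fun l _ => hslice l).trans ?_
    rw [sum_const, card_univ, nsmul_eq_mul]
  push_cast
  rw [div_le_div_iff₀ (by positivity) hV]
  calc ((univ.filter fun z : V × Q => L z).card : ℝ) * Fintype.card V
      ≤ (Fintype.card Q * (32 * η * s)) * Fintype.card V :=
        mul_le_mul_of_nonneg_right h1 hV.le
    _ = 32 * η * s * (Fintype.card V * Fintype.card Q) := by ring

end dec

end Pool.Agent.H689.SX
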