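import Pool.Agent.H689.SX.Complete
import Pool.Agent.H689.SX.Decode
import Pool.Graph.R_seed8.H243R3.PCP.Gr
import Pool.Graph.R_pool_sql_team_seeded_620a6dc7.H801.Ecc.Defs

/-!
# Regular multigraphs given by lists of edges
-/

set_option autoImplicit false
set_option linter.unusedSectionVars false

namespace Pool.Agent.H689.SX

open Finset Pool.Agent.NPC Pool.Agent.H243R3.PCP

/-! ### From sets of one size to sets of all sizes -/

section sizes

variable {V J : Type} [Fintype V] [Fintype J] (G : Rot V J)

theorem inn_mono {S T : Finset V} (h : S ⊆ T) : inn G S ≤ inn G T := by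
  classical
  unfold inn
  refine card_le_card fun p hp => ?_
  simp only [mem_filter, mem_univ, true_and] at hp ⊢
  exact ⟨h hp.1, h hp.2⟩

theorem inn_out (S : Finset V) : inn G S + out G S = Fintype.card J * S.card := by
  classical
  have h1 : (univ.filter fun p : V × J => p.1 ∈ S).card = Fintype.card J * S.card := by
    have : (univ.filter fun p : V × J => p.1 ∈ S) = S ×ˢ univ := by
      ext p; simp
    rw [this, card_product, card_univ, mul_comm]
  rw [← h1, ← Finset.card_filter_add_card_filter_not (s := univ.filter fun p : V × J => p.1 ∈ S)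
    (fun p => (G.rot p).1 ∈ S), filter_filter, filter_filter]
  unfold inn out
  congr!

theorem inn_sizes (s X m : ℕ) (hs : 2 ≤ s) (hsV : s ≤ Fintype.card V)
    (h : ∀ S : Finset V, S.card = s → inn G S ≤ X) (T : Finset V) (hT : T.card ≤ m * s) :
    inn G T ≤ (3 * m + 1) ^ 2 * X := by
  classical
  set k := s / 2 with hk
  have hk1 : 1 ≤ k := by omega
  have hk3 : s ≤ 3 * k := by omega
  have hk2 : 2 * k ≤ s := by omega
  let idx : V → ℕ := fun v => if h : v ∈ T then (T.equivFin ⟨v, h⟩ : ℕ) else 0
  have hidx : ∀ v ∈ T, ∀ w ∈ T, idx v = idx w → v = w := by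
    intro v hv w hw h
    simp only [idx] at h
    rw [dif_pos hv, dif_pos hw, Fin.val_inj, T.equivFin.injective.eq_iff] at h
    exact congrArg Subtype.val h
  have hidx2 : ∀ v ∈ T, idx v < 3 * m * k + k := by
    intro v hv
    simp only [idx]
    rw [dif_pos hv]
    have h1 := (T.equivFin ⟨v, hv⟩).2
    have h2 : m * s ≤ m * (3 * k) := Nat.mul_le_mul_left m hk3
    have h3 : m * (3 * k) = 3 * m * k := by ring
    omega
  let P : ℕ → Finset V := fun a => T.filter fun v => idx v / k = a
  have hP : ∀ a, (P a).card ≤ k := by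
    intro a
    have h1 : (P a).card ≤ (range k).card := by
      refine card_le_card_of_injOn (fun v => idx v % k) ?_ ?_
      · intro v _
        simp only [coe_range, Set.mem_Iio]
        exact Nat.mod_lt _ (by omega)
      · intro v hv w hw h
        simp only [P, coe_filter, Set.mem_ofPred_eq] at hv hw h
        apply hidx v hv.1 w hw.1
        rw [← Nat.div_add_mod (idx v) k, ← Nat.div_add_mod (idx w) k, hv.2, hw.2, h]
    rwa [card_range] at h1
  have hPX : ∀ a a', inn G (P a ∪ P a') ≤ X := by
    intro a a'
    have h1 : (P a ∪ P a').card ≤ s := by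
      have h2 := card_union_le (P a) (P a')
      have h3 := hP a
      have h4 := hP a'
      omega
    obtain ⟨S, hS1, hS2⟩ := exists_superset_card_eq h1 hsV
    exact (inn_mono G hS1).trans (h S hS2)
  have hsub : (univ.filter fun p : V × J => p.1 ∈ T ∧ (G.rot p).1 ∈ T) ⊆
      (range (3 * m + 1) ×ˢ range (3 * m + 1)).biUnion fun z =>
        univ.filter fun p : V × J => p.1 ∈ P z.1 ∪ P z.2 ∧ (G.rot p).1 ∈ P z.1 ∪ P z.2 := by
    intro p hp
    rw [mem_filter] at hp
    obtain ⟨-, h1, h2⟩ := hp
    have hlt : ∀ v ∈ T, idx v / k < 3 * m + 1 := by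
      intro v hv
      rw [Nat.div_lt_iff_lt_mul (by omega)]
      have := hidx2 v hv
      calc idx v < 3 * m * k + k := this
        _ = (3 * m + 1) * k := by ring
    rw [mem_biUnion]
    refine ⟨(idx p.1 / k, idx (G.rot p).1 / k), ?_, ?_⟩
    · rw [mem_product, mem_range, mem_range]
      exact ⟨hlt _ h1, hlt _ h2⟩
    · rw [mem_filter]
      refine ⟨mem_univ _, mem_union_left _ ?_, mem_union_right _ ?_⟩
      · simp only [P, mem_filter]; exact ⟨h1, trivial⟩
      · simp only [P, mem_filter]; exact ⟨h2, trivial⟩
  have h1 : inn G T = (univ.filter fun p : V × J => p.1 ∈ T ∧ (G.rot p).1 ∈ T).card := by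
    unfold inn; congr!
  rw [h1]
  refine (card_le_card hsub).trans (card_biUnion_le.trans ?_)
  calc ∑ z ∈ range (3 * m + 1) ×ˢ range (3 * m + 1),
        (univ.filter fun p : V × J => p.1 ∈ P z.1 ∪ P z.2 ∧ (G.rot p).1 ∈ P z.1 ∪ P z.2).card
      ≤ ∑ _z ∈ range (3 * m + 1) ×ˢ range (3 * m + 1), X := by
        refine sum_le_sum fun z _ => ?_
        refine le_trans (le_of_eq ?_) (hPX z.1 z.2)
        unfold inn; congr!
    _ = (3 * m + 1) ^ 2 * X := by
        rw [sum_const, card_product, card_range, smul_eq_mul]; ring

end sizes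

/-! ### Lists of edges -/

/-- the end of a dart: the edge number `k` has the darts `2 k` and `2 k + 1` -/
def en (E : List (ℕ × ℕ)) (t : ℕ) : ℕ :=
  if t % 2 = 0 then (E.getD (t / 2) (0, 0)).1 else (E.getD (t / 2) (0, 0)).2

/-- the darts at a vertex -/
def dl (E : List (ℕ × ℕ)) (v : ℕ) : List ℕ :=
  (List.range (2 * E.length)).filter fun t => decide (en E t = v)

/-- the rotation map -/
noncomputable def rr (E : List (ℕ × ℕ)) (v j : ℕ) : ℕ × ℕ :=
  (en E (partner ((dl E v).getD j 0)),
    index (dl E (en E (partner ((dl E v).getD j 0)))) (partner ((dl E v).getD j 0)))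

theorem mem_dl {E : List (ℕ × ℕ)} {v t : ℕ} : t ∈ dl E v ↔ t < 2 * E.length ∧ en E t = v := by
  unfold dl
  rw [List.mem_filter, List.mem_range, decide_eq_true_eq]

theorem nodup_dl (E : List (ℕ × ℕ)) (v : ℕ) : (dl E v).Nodup :=
  List.Nodup.filter _ List.nodup_range

/-- counting darts -/
theorem countP_darts (F : ℕ → ℕ → Bool) (E : List (ℕ × ℕ)) :
    ((List.range (2 * E.length)).countP fun t => F (en E t) (en E (partner t))) =
      E.countP (fun e => F e.1 e.2) + E.countP (fun e => F e.2 e.1) := by
  induction E using List.reverseRecOn with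
  | nil => simp
  | append_singleton E e ih =>
    rw [List.length_append, List.length_singleton, show 2 * (E.length + 1) =
      2 * E.length + 1 + 1 by ring, List.range_succ, List.range_succ, List.countP_append,
      List.countP_append]
    have h1 : ∀ t < 2 * E.length, en (E ++ [e]) t = en E t := by
      intro t ht
      unfold en
      have : t / 2 < E.length := by omega
      rw [List.getD_append _ _ _ _ this]
    have h2 : en (E ++ [e]) (2 * E.length) = e.1 := by
      unfold en
      rw [if_pos (by omega), show 2 * E.length / 2 = E.length by omega,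
        List.getD_append_right _ _ _ _ le_rfl]
      simp
    have h3 : en (E ++ [e]) (2 * E.length + 1) = e.2 := by
      unfold en
      rw [if_neg (by omega), show (2 * E.length + 1) / 2 = E.length by omega,
        List.getD_append_right _ _ _ _ le_rfl]
      simp
    have h4 : (List.range (2 * E.length)).countP
        (fun t => F (en (E ++ [e]) t) (en (E ++ [e]) (partner t))) =
        (List.range (2 * E.length)).countP (fun t => F (en E t) (en E (partner t))) := by
      refine List.countP_congr fun t ht => ?_
      rw [List.mem_range] at ht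
      rw [h1 t ht, h1 _ (partner_lt ht)]
    have p1 : partner (2 * E.length) = 2 * E.length + 1 := by
      unfold partner; rw [if_pos (by omega)]
    have p2 : partner (2 * E.length + 1) = 2 * E.length := by
      unfold partner; rw [if_neg (by omega)]; omega
    rw [h4, ih, List.countP_append, List.countP_append]
    simp only [List.countP_cons, List.countP_nil, zero_add, p1, p2, h2, h3]
    ring

/-! ### Regular lists of edges -/

section reg

open Pool.Agent.H801.Ecc (Regular cut)

variable {N d : ℕ} {E : List (ℕ × ℕ)}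

theorem en_lt (hreg : Regular N E d) {t : ℕ} (ht : t < 2 * E.length) : en E t < N := by
  have h1 : t / 2 < E.length := by omega
  have h2 : E.getD (t / 2) (0, 0) ∈ E := by
    rw [List.getD_eq_getElem _ _ h1]; exact List.getElem_mem h1
  have h3 := hreg.1 _ h2
  unfold en
  split_ifs
  · exact h3.1
  · exact h3.2.1

theorem length_dl (hreg : Regular N E d) {v : ℕ} (hv : v < N) : (dl E v).length = d := by
  have h1 := countP_darts (fun a _ => decide (a = v)) E
  have h2 : (dl E v).length = (List.range (2 * E.length)).countP fun t => decide (en E t = v) := by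
    unfold dl; rw [List.countP_eq_length_filter]
  rw [h2, h1, ← hreg.2 v hv]
  have h3 : ∀ e ∈ E, e.1 ≠ e.2 := fun e he => (hreg.1 e he).2.2
  clear h1 h2 hreg
  induction E with
  | nil => simp
  | cons e E ih =>
    rw [List.countP_cons, List.countP_cons, List.countP_cons]
    have h4 := ih fun e' he' => h3 e' (List.mem_cons_of_mem _ he')
    have h5 := h3 e List.mem_cons_self
    by_cases h6 : e.1 = v
    · have h7 : e.2 ≠ v := fun h => h5 (h6.trans h.symm)
      simp only [h6, h7, decide_true, decide_false, if_true, true_or]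
      simp only [Bool.false_eq_true, if_false]
      omega
    · by_cases h7 : e.2 = v
      · simp only [h6, h7, decide_true, decide_false, if_true, or_true]
        simp only [Bool.false_eq_true, if_false]
        omega
      · simp only [h6, h7, decide_false, or_self]
        simp only [Bool.false_eq_true, if_false]
        omega

/-- the dart with number `j` at `v` -/
theorem dart_spec (hreg : Regular N E d) {v j : ℕ} (hv : v < N) (hj : j < d) :
    (dl E v).getD j 0 < 2 * E.length ∧ en E ((dl E v).getD j 0) = v := by
  have h1 : j < (dl E v).length := by rw [length_dl hreg hv]; exact hj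
  rw [← mem_dl, List.getD_eq_getElem _ _ h1]
  exact List.getElem_mem h1

theorem rr_spec (hreg : Regular N E d) {v j : ℕ} (hv : v < N) (hj : j < d) :
    (rr E v j).1 < N ∧ (rr E v j).2 < d ∧ rr E (rr E v j).1 (rr E v j).2 = (v, j) ∧
      (dl E (rr E v j).1).getD (rr E v j).2 0 = partner ((dl E v).getD j 0) := by
  obtain ⟨h1, h2⟩ := dart_spec hreg hv hj
  set t := (dl E v).getD j 0 with ht
  have h3 := partner_lt h1
  have h4 := en_lt hreg h3
  have h5 : partner t ∈ dl E (en E (partner t)) := mem_dl.2 ⟨h3, rfl⟩
  have h6 := index_lt' h5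
  rw [length_dl hreg h4] at h6
  have e1 : rr E v j = (en E (partner t), index (dl E (en E (partner t))) (partner t)) := rfl
  rw [e1]
  refine ⟨h4, h6, ?_, getD_index h5⟩
  unfold rr
  simp only
  rw [getD_index h5, partner_partner, h2, ht,
    index_getD (nodup_dl E v) (by rw [length_dl hreg hv]; exact hj)]

/-- the rotation map of a regular list of edges -/
noncomputable def rotL (hreg : Regular N E d) : Rot (Fin N) (Fin d) where
  rot p := (⟨(rr E p.1 p.2).1, (rr_spec hreg p.1.2 p.2.2).1⟩,
    ⟨(rr E p.1 p.2).2, (rr_spec hreg p.1.2 p.2.2).2.1⟩)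
  inv p := by
    obtain ⟨v, j⟩ := p
    have h := (rr_spec hreg v.2 j.2).2.2.1
    refine Prod.ext (Fin.ext ?_) (Fin.ext ?_)
    · simp only; rw [h]
    · simp only; rw [h]

/-- counting darts of the rotation map -/
theorem card_rotL (hreg : Regular N E d) (F : ℕ → ℕ → Bool) :
    (univ.filter fun p : Fin N × Fin d => F p.1 ((rotL hreg).rot p).1 = true).card =
      E.countP (fun e => F e.1 e.2) + E.countP (fun e => F e.2 e.1) := by
  rw [← countP_darts, countP_range]
  refine card_bij (fun p _ => (dl E p.1).getD p.2 0) ?_ ?_ ?_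
  · rintro ⟨v, j⟩ hp
    simp only [mem_filter, mem_univ, true_and, mem_range] at hp ⊢
    obtain ⟨h1, h2⟩ := dart_spec hreg v.2 j.2
    refine ⟨h1, ?_⟩
    rw [h2]
    exact hp
  · rintro ⟨v, j⟩ _ ⟨v', j'⟩ _ h
    simp only at h
    obtain ⟨-, h2⟩ := dart_spec hreg v.2 j.2
    obtain ⟨-, h3⟩ := dart_spec hreg v'.2 j'.2
    have hv : v = v' := by
      apply Fin.ext
      rw [← h2, ← h3, h]
    subst hv
    have hj : (j : ℕ) = j' := by
      rw [← index_getD (nodup_dl E v) (show (j : ℕ) < (dl E v).length by
        rw [length_dl hreg v.2]; exact j.2), h, index_getD (nodup_dl E v)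
        (by rw [length_dl hreg v.2]; exact j'.2)]
    rw [Fin.ext hj]
  · intro t ht
    rw [mem_filter, mem_range] at ht
    obtain ⟨h1, h2⟩ := ht
    have h3 : t ∈ dl E (en E t) := mem_dl.2 ⟨h1, rfl⟩
    have h4 := index_lt' h3
    rw [length_dl hreg (en_lt hreg h1)] at h4
    refine ⟨(⟨en E t, en_lt hreg h1⟩, ⟨index (dl E (en E t)) t, h4⟩), ?_, getD_index h3⟩
    simp only [mem_filter, mem_univ, true_and]
    have h5 : (((rotL hreg).rot (⟨en E t, en_lt hreg h1⟩, ⟨index (dl E (en E t)) t, h4⟩)).1 : ℕ) =
        en E (partner t) := by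
      simp only [rotL, rr]
      rw [getD_index h3]
    rw [h5]
    exact h2

/-- the set of numbers -/
noncomputable def vals (S : Finset (Fin N)) : Finset ℕ := S.map Fin.valEmbedding

theorem mem_vals {S : Finset (Fin N)} {v : Fin N} : (v : ℕ) ∈ vals S ↔ v ∈ S := by
  unfold vals
  rw [mem_map]
  constructor
  · rintro ⟨w, hw, h⟩
    have : w = v := Fin.ext h
    rwa [← this]
  · intro h; exact ⟨v, h, rfl⟩

theorem card_vals (S : Finset (Fin N)) : (vals S).card = S.card := card_map _

theorem vals_sub (S : Finset (Fin N)) : vals S ⊆ range N := by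
  intro v hv
  unfold vals at hv
  rw [mem_map] at hv
  obtain ⟨w, -, rfl⟩ := hv
  exact mem_range.2 w.2

theorem out_rotL (hreg : Regular N E d) (S : Finset (Fin N)) :
    out (rotL hreg) S = cut E (vals S) := by
  classical
  have h1 := card_rotL hreg (fun a c => decide (a ∈ vals S ∧ c ∉ vals S))
  have h2 : out (rotL hreg) S = (univ.filter fun p : Fin N × Fin d =>
      (fun a c : ℕ => decide (a ∈ vals S ∧ c ∉ vals S)) p.1 ((rotL hreg).rot p).1 = true).card := by
    unfold out
    congr 1
    ext p
    simp only [mem_filter, mem_univ, true_and, decide_eq_true_eq, mem_vals]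
  rw [h2, h1]
  unfold cut
  clear h1 h2 hreg
  induction E with
  | nil => simp
  | cons e E ih =>
    rw [List.countP_cons, List.countP_cons, List.countP_cons, ← ih]
    by_cases ha : e.1 ∈ vals S <;> by_cases hb : e.2 ∈ vals S <;> simp [ha, hb] <;> omega

end reg

end Pool.Agent.H689.SX
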