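import Pool.Agent.H689.SX.Gap
import Pool.Agent.H689.SX.Sse

/-!
# The graph of the reduction in numbers
-/

set_option autoImplicit false
set_option linter.unusedSectionVars false

namespace Pool.Agent.H689.SX

open Finset Pool.Agent.NPC Pool.Agent.H243R3.PCP

/-- a digit of a number -/
def dig (m x i : ℕ) : ℕ := x / m ^ i % m

/-- the number with given digits -/
def cmb (m R : ℕ) (f : ℕ → ℕ) : ℕ := ∑ i ∈ range R, f i * m ^ i

/-- the number of the permutations -/
def nP (R : ℕ) : ℕ := Fintype.card (Equiv.Perm (Fin R))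

/-- the enumeration of the permutations -/
noncomputable def eS (R : ℕ) : Equiv.Perm (Fin R) ≃ Fin (nP R) := Fintype.equivFin _

/-- the table of the permutations -/
noncomputable def pmT (R k i : ℕ) : ℕ :=
  if h : k < nP R then (if h2 : i < R then (((eS R).symm ⟨k, h⟩ ⟨i, h2⟩ : Fin R) : ℕ) else 0) else 0

/-- the table of the inverses -/
noncomputable def piT (R k : ℕ) : ℕ :=
  if h : k < nP R then ((eS R ((eS R).symm ⟨k, h⟩)⁻¹ : Fin (nP R)) : ℕ) else 0

/-- one step of one coordinate -/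
noncomputable def stepN (E : List (ℕ × ℕ)) (q d K z c : ℕ) : ℕ × ℕ :=
  if c / K = 0 then (c % K / d, c % K % d + d * z)
  else (z % q + q * (rr E (z / q) (c % K % d)).1,
    (rr E (z / q) (c % K % d)).2 + d * (c % K / d) + K * (c / K))

/-- the outer neighbour -/
noncomputable def outC (E : List (ℕ × ℕ)) (q d R B K C M x : ℕ) : ℕ :=
  (piT R (x % M % nP R) + nP R * cmb C R (fun i =>
      (stepN E q d K (dig B (x / M) (pmT R (x % M % nP R) i))
        (dig C (x % M / nP R) (pmT R (x % M % nP R) i))).2)) +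
    M * cmb B R (fun i => (stepN E q d K (dig B (x / M) (pmT R (x % M % nP R) i))
        (dig C (x % M / nP R) (pmT R (x % M % nP R) i))).1)

/-- the neighbours -/
noncomputable def nbC (E : List (ℕ × ℕ)) (q d R B K C M x l : ℕ) : ℕ :=
  if l < 32 then (xrot M (x % M) l).1 + M * (x / M) else outC E q d R B K C M x

/-- adjacency -/
noncomputable def adjC (E : List (ℕ × ℕ)) (q d R B K C M x y : ℕ) : Bool :=
  !(decide (x = y)) && (List.range 33).any fun l => decide (nbC E q d R B K C M x l = y)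

section eqv

variable (N q d b R : ℕ)

/-- the code of the darts of one coordinate -/
def eC : Ch b (Fin N) (Fin q) (Fin d) ≃ Fin (b * (N * q * d)) :=
  (Equiv.prodCongr (Equiv.refl (Fin b))
    ((Equiv.prodCongr finProdFinEquiv (Equiv.refl (Fin d))).trans finProdFinEquiv)).trans
      finProdFinEquiv

theorem eC_val (c : Ch b (Fin N) (Fin q) (Fin d)) : (eC N q d b c : ℕ) =
    ((c.2.2 : ℕ) + d * (finProdFinEquiv c.2.1 : ℕ)) + N * q * d * c.1 := rfl

/-- the code of the points -/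
def eO : (Fin R → Fin N × Fin q) ≃ Fin ((N * q) ^ R) :=
  (Equiv.arrowCongr (Equiv.refl (Fin R)) finProdFinEquiv).trans finFunctionFinEquiv

/-- the code of the choices -/
def eD : (Fin R → Ch b (Fin N) (Fin q) (Fin d)) ≃ Fin ((b * (N * q * d)) ^ R) :=
  (Equiv.arrowCongr (Equiv.refl (Fin R)) (eC N q d b)).trans finFunctionFinEquiv

theorem eO_val (f : Fin R → Fin N × Fin q) : (eO N q R f : ℕ) =
    ∑ i, (finProdFinEquiv (f i) : ℕ) * (N * q) ^ (i : ℕ) := rfl

theorem eD_val (f : Fin R → Ch b (Fin N) (Fin q) (Fin d)) : (eD N q d b R f : ℕ) =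
    ∑ i, (eC N q d b (f i) : ℕ) * (b * (N * q * d)) ^ (i : ℕ) := rfl

theorem dig_eO (f : Fin R → Fin N × Fin q) (i : Fin R) :
    dig (N * q) (eO N q R f) i = (finProdFinEquiv (f i) : ℕ) := by
  have h : finFunctionFinEquiv.symm (finFunctionFinEquiv fun i => finProdFinEquiv (f i)) i =
      finProdFinEquiv (f i) := by rw [Equiv.symm_apply_apply]
  exact congrArg Fin.val h

theorem dig_eD (f : Fin R → Ch b (Fin N) (Fin q) (Fin d)) (i : Fin R) :
    dig (b * (N * q * d)) (eD N q d b R f) i = (eC N q d b (f i) : ℕ) := by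
  have h : finFunctionFinEquiv.symm (finFunctionFinEquiv fun i => eC N q d b (f i)) i =
      eC N q d b (f i) := by rw [Equiv.symm_apply_apply]
  exact congrArg Fin.val h

/-- the size of the gadgets -/
def MM : ℕ := (b * (N * q * d)) ^ R * nP R

/-- the code of the darts -/
noncomputable def eP : ((Fin R → Ch b (Fin N) (Fin q) (Fin d)) × Equiv.Perm (Fin R)) ≃
    Fin (MM N q d b R) :=
  (Equiv.prodCongr (eD N q d b R) (eS R)).trans finProdFinEquiv

theorem eP_val (c : Fin R → Ch b (Fin N) (Fin q) (Fin d)) (π : Equiv.Perm (Fin R)) :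
    (eP N q d b R (c, π) : ℕ) = (eS R π : ℕ) + nP R * (eD N q d b R c : ℕ) := rfl

/-- the code of the vertices -/
noncomputable def eV : (Fin R → Fin N × Fin q) × Fin (MM N q d b R) ≃
    Fin ((N * q) ^ R * MM N q d b R) :=
  (Equiv.prodCongr (eO N q R) (Equiv.refl _)).trans finProdFinEquiv

theorem eV_val (ω : Fin R → Fin N × Fin q) (p : Fin (MM N q d b R)) :
    (eV N q d b R (ω, p) : ℕ) = (p : ℕ) + MM N q d b R * (eO N q R ω : ℕ) := rfl

theorem pmT_eS (π : Equiv.Perm (Fin R)) (i : Fin R) : pmT R (eS R π) i = (π i : ℕ) := by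
  unfold pmT
  rw [dif_pos (eS R π).2, dif_pos i.2]
  simp

theorem piT_eS (π : Equiv.Perm (Fin R)) : piT R (eS R π) = (eS R π⁻¹ : ℕ) := by
  unfold piT
  rw [dif_pos (eS R π).2]
  simp

end eqv

section corr

open Pool.Agent.H801.Ecc (Regular cut)

variable {N q d b R : ℕ} {E : List (ℕ × ℕ)} [NeZero b]

theorem divmod {x y n : ℕ} (h : x < n) : (x + n * y) / n = y ∧ (x + n * y) % n = x := by
  have hn : 0 < n := by omega
  rw [Nat.add_mul_div_left _ _ hn, Nat.div_eq_of_lt h, zero_add, Nat.add_mul_mod_self_left,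
    Nat.mod_eq_of_lt h]
  exact ⟨rfl, rfl⟩

theorem stepN_rc (hreg : Regular N E d) (x : Fin N × Fin q)
    (c : Ch b (Fin N) (Fin q) (Fin d)) :
    stepN E q d (N * q * d) (finProdFinEquiv x : ℕ) (eC N q d b c : ℕ) =
      ((finProdFinEquiv (rc (rotL hreg) b (x, c)).1 : ℕ),
        (eC N q d b (rc (rotL hreg) b (x, c)).2 : ℕ)) := by
  obtain ⟨r, u, j⟩ := c
  obtain ⟨v, l⟩ := x
  have hj : (j : ℕ) < d := j.2
  have hu : ((finProdFinEquiv u : Fin (N * q)) : ℕ) < N * q := (finProdFinEquiv u).2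
  have h1 : (j : ℕ) + d * (finProdFinEquiv u : ℕ) < N * q * d :=
    (finProdFinEquiv (finProdFinEquiv u, j)).2
  have hl : (l : ℕ) < q := l.2
  have hz : ((finProdFinEquiv (v, l) : Fin (N * q)) : ℕ) = (l : ℕ) + q * v := rfl
  have h2 := divmod (y := (r : ℕ)) h1
  have h3 := divmod (y := ((finProdFinEquiv u : Fin (N * q)) : ℕ)) hj
  have h4 := divmod (y := (v : ℕ)) hl
  rw [eC_val]
  simp only
  unfold stepN
  rw [h2.1, h2.2, h3.1, h3.2, hz, h4.1, h4.2]
  unfold rc
  by_cases hr : r = 0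
  · rw [if_pos (by rw [hr]; rfl), if_pos hr, eC_val, hr]
    simp only [Fin.val_zero, mul_zero, add_zero]
    rw [hz]
  · have hr' : ¬ (r : ℕ) = 0 := fun h => hr (Fin.ext (by rw [h]; rfl))
    rw [if_neg hr', if_neg hr, eC_val]
    rfl

theorem cmb_eq (m : ℕ) (f : ℕ → ℕ) (g : Fin R → ℕ) (h : ∀ i : Fin R, f i = g i) :
    cmb m R f = ∑ i, g i * m ^ (i : ℕ) := by
  unfold cmb
  rw [← Fin.sum_univ_eq_sum_range (fun i => f i * m ^ i) R]
  exact sum_congr rfl fun i _ => by rw [h]

theorem outC_eq (hreg : Regular N E d) (ω : Fin R → Fin N × Fin q)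
    (c : Fin R → Ch b (Fin N) (Fin q) (Fin d)) (π : Equiv.Perm (Fin R)) :
    outC E q d R (N * q) (N * q * d) (b * (N * q * d)) (MM N q d b R)
      (eV N q d b R (ω, eP N q d b R (c, π))) =
      eV N q d b R (outr (rt (rotL hreg) b) (eP N q d b R) (ω, eP N q d b R (c, π))) := by
  have h1 := divmod (y := ((eO N q R ω : Fin ((N * q) ^ R)) : ℕ)) (eP N q d b R (c, π)).2
  have h2 := divmod (y := ((eD N q d b R c : Fin ((b * (N * q * d)) ^ R)) : ℕ)) (eS R π).2
  have e1 : ((eV N q d b R (ω, eP N q d b R (c, π)) : Fin _) : ℕ) % MM N q d b R =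
      (eP N q d b R (c, π) : ℕ) := h1.2
  have e2 : ((eV N q d b R (ω, eP N q d b R (c, π)) : Fin _) : ℕ) / MM N q d b R =
      (eO N q R ω : ℕ) := h1.1
  have e3 : ((eP N q d b R (c, π) : Fin _) : ℕ) % nP R = (eS R π : ℕ) := h2.2
  have e4 : ((eP N q d b R (c, π) : Fin _) : ℕ) / nP R = (eD N q d b R c : ℕ) := h2.1
  have hst : ∀ i : Fin R, stepN E q d (N * q * d)
      (dig (N * q) (eO N q R ω : ℕ) (pmT R (eS R π : ℕ) i))
      (dig (b * (N * q * d)) (eD N q d b R c : ℕ) (pmT R (eS R π : ℕ) i)) =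
      ((finProdFinEquiv (rc (rotL hreg) b (ω (π i), c (π i))).1 : ℕ),
        (eC N q d b (rc (rotL hreg) b (ω (π i), c (π i))).2 : ℕ)) := by
    intro i
    rw [pmT_eS, dig_eO, dig_eD]
    exact stepN_rc hreg _ _
  unfold outC
  rw [e1, e2, e3, e4, piT_eS]
  unfold outr
  rw [Equiv.symm_apply_apply]
  have e5 : rt (rotL hreg) b (ω, (c, π)) = (fun i => (rc (rotL hreg) b (ω (π i), c (π i))).1,
    (fun i => (rc (rotL hreg) b (ω (π i), c (π i))).2, π⁻¹)) := rfl
  simp only [e5]
  have k1 : cmb (b * (N * q * d)) R (fun i => (stepN E q d (N * q * d)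
      (dig (N * q) (eO N q R ω : ℕ) (pmT R (eS R π : ℕ) i))
      (dig (b * (N * q * d)) (eD N q d b R c : ℕ) (pmT R (eS R π : ℕ) i))).2) =
      (eD N q d b R (fun i => (rc (rotL hreg) b (ω (π i), c (π i))).2) : ℕ) := by
    rw [eD_val (f := fun i => (rc (rotL hreg) b (ω (π i), c (π i))).2)]
    exact cmb_eq _ _ _ fun i => by rw [hst]
  have k2 : cmb (N * q) R (fun i => (stepN E q d (N * q * d)
      (dig (N * q) (eO N q R ω : ℕ) (pmT R (eS R π : ℕ) i))
      (dig (b * (N * q * d)) (eD N q d b R c : ℕ) (pmT R (eS R π : ℕ) i))).1) =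
      (eO N q R (fun i => (rc (rotL hreg) b (ω (π i), c (π i))).1) : ℕ) := by
    rw [eO_val (f := fun i => (rc (rotL hreg) b (ω (π i), c (π i))).1)]
    exact cmb_eq _ _ _ fun i => by rw [hst]
  rw [k1, k2, eV_val, eP_val]

theorem nbC_eq (hreg : Regular N E d) (x : (Fin R → Fin N × Fin q) × Fin (MM N q d b R))
    (l : Fin 33) :
    nbC E q d R (N * q) (N * q * d) (b * (N * q * d)) (MM N q d b R) (eV N q d b R x) l =
      eV N q d b R (nb (rt (rotL hreg) b) (eP N q d b R) x l) := by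
  obtain ⟨ω, p⟩ := x
  unfold nbC nb
  have h1 := divmod (y := ((eO N q R ω : Fin ((N * q) ^ R)) : ℕ)) p.2
  have e1 : ((eV N q d b R (ω, p) : Fin _) : ℕ) % MM N q d b R = (p : ℕ) := h1.2
  have e2 : ((eV N q d b R (ω, p) : Fin _) : ℕ) / MM N q d b R = (eO N q R ω : ℕ) := h1.1
  by_cases h : (l : ℕ) < 32
  · rw [if_pos h, dif_pos h, e1, e2]
    rfl
  · rw [if_neg h, dif_neg h]
    obtain ⟨⟨c, π⟩, rfl⟩ := (eP N q d b R).surjective p
    exact outC_eq hreg ω c π

theorem adjC_eq (hreg : Regular N E d) (x y : (Fin R → Fin N × Fin q) × Fin (MM N q d b R)) :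
    adjC E q d R (N * q) (N * q * d) (b * (N * q * d)) (MM N q d b R) (eV N q d b R x)
      (eV N q d b R y) = true ↔ (HG (rotL hreg) b (eP N q d b R)).Adj x y := by
  unfold adjC HG FG
  simp only [Bool.and_eq_true, Bool.not_eq_true', decide_eq_false_iff_not, List.any_eq_true,
    List.mem_range, decide_eq_true_eq]
  constructor
  · rintro ⟨h1, l, hl, h2⟩
    refine ⟨fun h => h1 (by rw [h]), ⟨l, hl⟩, ?_⟩
    have h3 := nbC_eq hreg x ⟨l, hl⟩
    simp only at h3
    rw [h3] at h2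
    exact (eV N q d b R).injective (Fin.ext h2)
  · rintro ⟨h1, l, h2⟩
    refine ⟨fun h => h1 ((eV N q d b R).injective (Fin.ext h)), l, l.2, ?_⟩
    rw [nbC_eq hreg x l, h2]

/-- the graph on numbers -/
noncomputable def NG (hreg : Regular N E d) : SimpleGraph (Fin ((N * q) ^ R * MM N q d b R)) :=
  (HG (rotL hreg) b (eP N q d b R)).comap (eV N q d b R).symm

theorem NG_adj (hreg : Regular N E d) (x y : Fin ((N * q) ^ R * MM N q d b R)) :
    (NG (q := q) (b := b) (R := R) hreg).Adj x y ↔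
      adjC E q d R (N * q) (N * q * d) (b * (N * q * d)) (MM N q d b R) x y = true := by
  have h := adjC_eq (q := q) (b := b) (R := R) hreg ((eV N q d b R).symm x)
    ((eV N q d b R).symm y)
  rw [Equiv.apply_symm_apply, Equiv.apply_symm_apply] at h
  rw [h]
  rfl

end corr

end Pool.Agent.H689.SX
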