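import Pool.Agent.H689.SX.Port

/-!
# A small set that does not expand gives a good partition
-/

set_option autoImplicit false
set_option linter.unusedSectionVars false

namespace Pool.Agent.H689.SX

open Finset

section comp

variable {V J Q ι : Type} [Fintype V] [Fintype J] [Fintype Q] [Fintype ι] [DecidableEq ι]
  (G : Rot V J) (b : ℕ) [NeZero b] [Nonempty V] [Nonempty Q] [Nonempty J] [AddCommGroup Q]

/-- the contribution of a labelled vertex -/
noncomputable def phi (S : Finset V) (x : V × Q) : Q := by classical exact if x.1 ∈ S then x.2 else 0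

/-- the label of a tuple -/
noncomputable def lab (S : Finset V) (ω : ι → V × Q) : Q := ∑ i, phi S (ω i)

theorem phi_out {S : Finset V} {x : V × Q} (h : x.1 ∉ S) : phi S x = 0 := by
  unfold phi; rw [if_neg h]

/-- the number of the darts that leave a set -/
noncomputable def out (S : Finset V) : ℕ := by
  classical exact (univ.filter fun p : V × J => p.1 ∈ S ∧ (G.rot p).1 ∉ S).card

theorem ev_leave (S : Finset V) :
    ev (fun x : V × Q => ev fun j : J => ind (x.1 ∈ S ∧ (mv G x j).1 ∉ S)) =
      (out G S : ℝ) / (Fintype.card V * Fintype.card J) := by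
  classical
  rw [ev_prod]
  have h1 : ∀ v : V, (ev fun _ : Q => ev fun j : J => ind (v ∈ S ∧ (G.rot (v, j)).1 ∉ S)) =
      ev fun j : J => ind (v ∈ S ∧ (G.rot (v, j)).1 ∉ S) := fun v => ev_const _
  change ev (fun v : V => ev fun _ : Q => ev fun j : J =>
    ind (v ∈ S ∧ (G.rot (v, j)).1 ∉ S)) = _
  rw [ev_congr h1, ← ev_prod (fun p : V × J => ind (p.1 ∈ S ∧ (G.rot p).1 ∉ S)), ev_ind,
    Fintype.card_prod]
  push_cast
  unfold out
  congr!

theorem ev_enter (S : Finset V) :
    ev (fun x : V × Q => ev fun j : J => ind (x.1 ∉ S ∧ (mv G x j).1 ∈ S)) =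
      (out G S : ℝ) / (Fintype.card V * Fintype.card J) := by
  rw [← ev_leave (Q := Q) G S]
  rw [← ev_prod (fun p : (V × Q) × J => ind (p.1.1 ∉ S ∧ (mv G p.1 p.2).1 ∈ S)),
    ← ev_prod (fun p : (V × Q) × J => ind (p.1.1 ∈ S ∧ (mv G p.1 p.2).1 ∉ S)),
    ← ev_equiv (rotX (Q := Q) G)]
  refine ev_congr fun p => ind_congr ?_
  have h1 : (rotX (Q := Q) G p).1 = mv G p.1 p.2 := rfl
  have h2 : mv G (rotX (Q := Q) G p).1 (rotX (Q := Q) G p).2 = p.1 := by
    have := (rotX (Q := Q) G).left_inv p
    exact congrArg Prod.fst this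
  rw [h2, h1]
  exact and_comm

/-- (Y1) the label rarely changes -/
theorem lab_change (S : Finset V) :
    ev (fun p : (ι → V × Q) × ((ι → Ch b V Q J) × Equiv.Perm ι) =>
      ind (lab S p.1 ≠ lab S (rt G b p).1)) ≤
      Fintype.card ι * (2 * ((S.card : ℝ) / Fintype.card V) / b +
        2 * ((out G S : ℝ) / (Fintype.card V * Fintype.card J))) := by
  classical
  have hb1 : (1 : ℝ) ≤ b := by exact_mod_cast Nat.pos_of_ne_zero (NeZero.ne b)
  have hb : (0 : ℝ) < b := by linarith
  have hbi : (1 : ℝ) / b ≤ 1 := by rw [div_le_one hb]; exact hb1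
  have hbi0 : (0 : ℝ) ≤ 1 / b := by positivity
  have h1 : ∀ p : (ι → V × Q) × ((ι → Ch b V Q J) × Equiv.Perm ι),
      ind (lab S p.1 ≠ lab S (rt G b p).1) ≤
        ∑ i, ind (phi S (p.1 i) ≠ phi S (yy G p.1 p.2.1 i)) := by
    rintro ⟨ω, c, π⟩
    have h2 : lab S (rt G b (ω, (c, π))).1 = ∑ i, phi S (yy G ω c i) := by
      rw [rt_fst]
      unfold lab
      exact Equiv.sum_comp π (fun i => phi S (yy G ω c i))
    rw [h2]
    by_cases h : lab S ω ≠ ∑ i, phi S (yy G ω c i)
    · rw [ind_true h]
      obtain ⟨i, hi⟩ : ∃ i, phi S (ω i) ≠ phi S (yy G ω c i) := by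
        by_contra hcon
        push Not at hcon
        exact h (sum_congr rfl fun i _ => hcon i)
      have h3 : ind (phi S (ω i) ≠ phi S (yy G ω c i)) ≤
          ∑ i, ind (phi S (ω i) ≠ phi S (yy G ω c i)) :=
        single_le_sum (f := fun i => ind (phi S (ω i) ≠ phi S (yy G ω c i)))
          (fun k _ => ind_nonneg _) (mem_univ i)
      rwa [ind_true hi] at h3
    · rw [ind_false h]
      exact sum_nonneg fun k _ => ind_nonneg _
  refine (ev_mono h1).trans ?_
  rw [ev_sum]
  have h2 : ∀ i : ι, ev (fun p : (ι → V × Q) × ((ι → Ch b V Q J) × Equiv.Perm ι) =>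
      ind (phi S (p.1 i) ≠ phi S (yy G p.1 p.2.1 i))) ≤
      2 * ((S.card : ℝ) / Fintype.card V) / b +
        2 * ((out G S : ℝ) / (Fintype.card V * Fintype.card J)) := by
    intro i
    rw [ev_prod]
    have e1 : ∀ ω : ι → V × Q, (ev fun q : (ι → Ch b V Q J) × Equiv.Perm ι =>
        ind (phi S (ω i) ≠ phi S (yy G ω q.1 i))) =
        ev (fun c : Ch b V Q J => ind (phi S (ω i) ≠ phi S (st G (ω i) c))) := by
      intro ω
      rw [ev_prod]
      simp only [ev_const]
      exact ev_coord i (fun c : Ch b V Q J => ind (phi S (ω i) ≠ phi S (st G (ω i) c)))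
    rw [ev_congr e1, ev_coord i (fun x : V × Q => ev fun c : Ch b V Q J =>
      ind (phi S x ≠ phi S (st G x c)))]
    have e2 : ∀ x : V × Q, (ev fun c : Ch b V Q J => ind (phi S x ≠ phi S (st G x c))) ≤
        (1 / b) * (ind (x.1 ∈ S) + (S.card : ℝ) / Fintype.card V) +
          (ev (fun j : J => ind (x.1 ∈ S ∧ (mv G x j).1 ∉ S)) +
            ev (fun j : J => ind (x.1 ∉ S ∧ (mv G x j).1 ∈ S))) := by
      intro x
      rw [ev_step G b x (fun w => ind (phi S x ≠ phi S w))]
      have e3 : ev (fun w : V × Q => ind (phi S x ≠ phi S w)) ≤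
          ind (x.1 ∈ S) + (S.card : ℝ) / Fintype.card V := by
        have e4 : ∀ w : V × Q, ind (phi S x ≠ phi S w) ≤ ind (x.1 ∈ S) + ind (w.1 ∈ S) := by
          intro w
          refine le_trans (ind_mono fun h => ?_) (ind_or _ _)
          by_contra hcon
          rw [not_or] at hcon
          rw [phi_out hcon.1, phi_out hcon.2] at h
          exact h rfl
        refine (ev_mono e4).trans ?_
        rw [ev_add, ev_const, ev_prod]
        simp only [ev_const]
        rw [ev_ind]
        simp
      have e5 : ev (fun j : J => ind (phi S x ≠ phi S (mv G x j))) ≤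
          ev (fun j : J => ind (x.1 ∈ S ∧ (mv G x j).1 ∉ S)) +
            ev (fun j : J => ind (x.1 ∉ S ∧ (mv G x j).1 ∈ S)) := by
        rw [← ev_add]
        refine ev_mono fun j => le_trans (ind_mono fun h => ?_) (ind_or _ _)
        by_contra hcon
        rw [not_or, not_and, not_and] at hcon
        by_cases hx : x.1 ∈ S
        · have h6 : (mv G x j).1 ∈ S := by
            by_contra h7; exact hcon.1 hx h7
          apply h
          unfold phi
          rw [if_pos hx, if_pos h6]
          rfl
        · have h6 : (mv G x j).1 ∉ S := fun h7 => hcon.2 hx h7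
          rw [phi_out hx, phi_out h6] at h
          exact h rfl
      have e6 : 0 ≤ ev (fun j : J => ind (phi S x ≠ phi S (mv G x j))) :=
        ev_nonneg fun _ => ind_nonneg _
      have e7 := mul_le_mul_of_nonneg_left e3 hbi0
      have e8 : (1 - 1 / (b : ℝ)) * ev (fun j : J => ind (phi S x ≠ phi S (mv G x j))) ≤
          ev (fun j : J => ind (phi S x ≠ phi S (mv G x j))) := by
        nlinarith
      linarith
    refine (ev_mono e2).trans ?_
    rw [ev_add, ev_mul, ev_add, ev_const, ev_add, ev_leave, ev_enter]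
    have e3 : ev (fun x : V × Q => ind (x.1 ∈ S)) = (S.card : ℝ) / Fintype.card V := by
      rw [ev_prod]
      simp only [ev_const]
      rw [ev_ind]
      simp
    rw [e3]
    apply le_of_eq
    ring
  refine (sum_le_sum fun i _ => h2 i).trans ?_
  rw [sum_const, card_univ, nsmul_eq_mul]

/-- (Y2) the classes are small -/
theorem lab_class (S : Finset V) (l : Q) :
    ev (fun ω : ι → V × Q => ind (lab S ω = l)) ≤
      1 / Fintype.card Q + (1 - (S.card : ℝ) / Fintype.card V) ^ Fintype.card ι := by
  classical
  have h0 : ev (fun ω : ι → V × Q => ind (lab S ω = l)) =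
      ev (fun A : ι → V => ev fun x : ι → Q => ind (lab S (fun i => (A i, x i)) = l)) := by
    rw [← ev_prod (fun p : (ι → V) × (ι → Q) => ind (lab S (fun i => (p.1 i, p.2 i)) = l))]
    rw [← ev_equiv (Equiv.arrowProdEquivProdArrow ι (fun _ => V) (fun _ => Q))]
    rfl
  rw [h0]
  have h1 : ∀ A : ι → V, (ev fun x : ι → Q => ind (lab S (fun i => (A i, x i)) = l)) ≤
      1 / Fintype.card Q + ∏ i, ind (A i ∉ S) := by
    intro A
    by_cases hA : ∃ i, A i ∈ S
    · obtain ⟨i, hi⟩ := hA
      have h2 : (ev fun x : ι → Q => ind (lab S (fun i => (A i, x i)) = l)) =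
          1 / Fintype.card Q := by
        rw [← ev_update i]
        have h3 : ∀ x : ι → Q, (ev fun z : Q =>
            ind (lab S (fun k => (A k, Function.update x i z k)) = l)) = 1 / Fintype.card Q := by
          intro x
          set rest : Q := ∑ k ∈ univ.erase i, phi S (A k, x k) with hrest
          have h4 : ∀ z : Q, lab S (fun k => (A k, Function.update x i z k)) = z + rest := by
            intro z
            unfold lab
            rw [← add_sum_erase _ _ (mem_univ i)]
            congr 1
            · unfold phi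
              rw [if_pos hi]
              simp
            · rw [hrest]
              refine sum_congr rfl fun k hk => ?_
              simp only [Function.update_of_ne (ne_of_mem_erase hk)]
          simp only [h4]
          rw [ev_ind]
          congr 1
          have h5 : (univ.filter fun z : Q => z + rest = l) = {l - rest} := by
            ext z
            simp only [mem_filter, mem_univ, true_and, mem_singleton]
            constructor
            · intro h; rw [← h]; abel
            · intro h; rw [h]; abel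
          rw [h5]; simp
        rw [ev_congr h3, ev_const]
      rw [h2]
      have : 0 ≤ ∏ i, ind (A i ∉ S) := prod_nonneg fun _ _ => ind_nonneg _
      linarith
    · push Not at hA
      have h2 : ∏ i, ind (A i ∉ S) = 1 := prod_eq_one fun i _ => ind_true (hA i)
      rw [h2]
      have h3 : (ev fun x : ι → Q => ind (lab S (fun i => (A i, x i)) = l)) ≤ 1 :=
        ev_le_const fun _ => ind_le_one _
      have : (0 : ℝ) ≤ 1 / Fintype.card Q := by positivity
      linarith
  refine (ev_mono h1).trans ?_
  rw [ev_add, ev_const]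
  have h2 : ev (fun A : ι → V => ∏ i, ind (A i ∉ S)) =
      (1 - (S.card : ℝ) / Fintype.card V) ^ Fintype.card ι := by
    have h3 : ev (fun v : V => ind (v ∉ S)) = 1 - (S.card : ℝ) / Fintype.card V := by
      have : ∀ v, ind (v ∉ S) = 1 - ind (v ∈ S) := fun v => ind_not _
      rw [ev_congr this, ev_sub, ev_const, ev_ind]
      simp
    rw [← h3]
    unfold ev
    rw [div_pow, Fintype.card_fun]
    push_cast
    congr 1
    have h4 : (∑ v : V, ind (v ∉ S)) ^ Fintype.card ι = ∏ _i : ι, ∑ v : V, ind (v ∉ S) := by
      rw [prod_const, card_univ]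
    rw [h4, Fintype.prod_sum]
  rw [h2]

end comp

end Pool.Agent.H689.SX
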