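import Pool.Graph.R_seed8.H604R2.VDDefs
import Pool.Graph.R_seed8.TH694.CR.Defs
import Pool.Graph.R_pool_sql_team_seeded_620a6dc7.H801.Ecc.Defs

/-!
# Approximation of the crossing number, and gap small set expansion: definitions

`cr G` is the crossing number (`Pool.Agent.TH694.CR.cr`), `adjMat G` the adjacency matrix of a
graph on `0, …, n - 1`, `bits` the coding of data by bit strings and `PolyTime` polynomial time on
Turing machines (Mathlib's definition). `Regular N E d` says that `E` is the edge list of a
`d`-regular loopless multigraph on `0, …, N - 1`, and `cut E S` is the number of edges leaving `S`.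
-/

set_option autoImplicit false

namespace Pool.Agent.H689.SX

open Pool.Agent.NPC Pool.Agent.NPC.H604 Pool.Agent.TH694.CR
open Pool.Agent.H801.Ecc (Regular cut)

/-! ### Approximation of the crossing number -/

/-- The function `A` on bit strings approximates the crossing number within the factor `c` on the
graphs of maximum degree at most `Δ`: on the code of the adjacency matrix of such a graph `G` it
returns the code of a number `k` with `cr G ≤ k ≤ c * cr G` (a drawing of `G` with at most
`c * cr G` crossings gives such a number). -/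
def Approximates (Δ : ℕ) (c : ℝ) (A : List Bool → List Bool) : Prop :=
  ∀ (n : ℕ) (G : SimpleGraph (Fin n)), (∀ v, (G.neighborSet v).ncard ≤ Δ) →
    ∃ k : ℕ, A (bits (adjMat G)) = bits k ∧ cr G ≤ k ∧ (k : ℝ) ≤ c * cr G

/-- At least two thirds of the bit strings of length `m` have the property `P`. -/
def Most (m : ℕ) (P : List Bool → Prop) : Prop :=
  2 * 2 ^ m ≤ 3 * {r : List Bool | r.length = m ∧ P r}.ncard

/-- Randomised approximation: the algorithm also gets `p.eval ℓ` random bits, where `ℓ` is the
length of the code of the graph, and is right with probability at least `2 / 3`. -/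
def RandApproximates (Δ : ℕ) (c : ℝ) (p : Polynomial ℕ) (A : List Bool → List Bool) : Prop :=
  ∀ (n : ℕ) (G : SimpleGraph (Fin n)), (∀ v, (G.neighborSet v).ncard ≤ Δ) →
    Most (p.eval (bits (adjMat G)).length) fun r =>
      ∃ k : ℕ, A (bits (adjMat G, r)) = bits k ∧ cr G ≤ k ∧ (k : ℝ) ≤ c * cr G

/-! ### Gap small set expansion -/

/-- `YES` instances: some set of `s` vertices has expansion at most `η`, that is, at most
`η * (d * s)` edges leave it. -/
def YesI (η : ℝ) (N : ℕ) (E : List (ℕ × ℕ)) (d s : ℕ) : Prop :=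
  ∃ S ⊆ Finset.range N, S.card = s ∧ (cut E S : ℝ) ≤ η * (d * s)

/-- `NO` instances: every set of `s` vertices has expansion at least `1 - η`. -/
def NoI (η : ℝ) (N : ℕ) (E : List (ℕ × ℕ)) (d s : ℕ) : Prop :=
  ∀ S ⊆ Finset.range N, S.card = s → (1 - η) * (d * s) ≤ (cut E S : ℝ)

/-- The gap problem for sets of measure `δ` (so `s = δ N`) is solvable in polynomial time. -/
def InPoly (η δ : ℝ) : Prop :=
  ∃ B : List Bool → List Bool, PolyTime B ∧
    ∀ (N : ℕ) (E : List (ℕ × ℕ)) (d s : ℕ), 1 ≤ d → 1 ≤ s → Regular N E d → (s : ℝ) = δ * N →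
      (YesI η N E d s → B (bits (N, E, s)) = [true]) ∧
      (NoI η N E d s → B (bits (N, E, s)) = [false])

/-- The gap problem for sets of measure `δ` is solvable in randomised polynomial time. -/
def InRand (η δ : ℝ) : Prop :=
  ∃ (B : List Bool → List Bool) (p : Polynomial ℕ), PolyTime B ∧
    ∀ (N : ℕ) (E : List (ℕ × ℕ)) (d s : ℕ), 1 ≤ d → 1 ≤ s → Regular N E d → (s : ℝ) = δ * N →
      (YesI η N E d s → Most (p.eval (bits (N, E, s)).length) fun r =>
        B (bits ((N, E, s), r)) = [true]) ∧
      (NoI η N E d s → Most (p.eval (bits (N, E, s)).length) fun r =>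
        B (bits ((N, E, s), r)) = [false])

/-- The gap problem for sets of measure `δ` is `NP`-hard, under polynomial-time many-one
reductions. -/
def IsNPHard (η δ : ℝ) : Prop :=
  ∀ L : Set (List Bool), InNP L → ∃ (N d s : List Bool → ℕ) (E : List Bool → List (ℕ × ℕ)),
    PolyTime (fun x => bits (N x, E x, s x)) ∧
    ∀ x, 1 ≤ d x ∧ 1 ≤ s x ∧ Regular (N x) (E x) (d x) ∧ (s x : ℝ) = δ * N x ∧
      (x ∈ L → YesI η (N x) (E x) (d x) (s x)) ∧ (x ∉ L → NoI η (N x) (E x) (d x) (s x))

/-- The small set expansion hypothesis, as an `NP`-hardness statement (the original form of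
Raghavendra and Steurer). -/
def SSEHyp : Prop := ∀ η : ℝ, 0 < η → ∃ δ : ℝ, 0 < δ ∧ IsNPHard η δ

/-- The form of the hypothesis for polynomial-time algorithms. -/
def SSEHypPoly : Prop := ∀ η : ℝ, 0 < η → ∃ δ : ℝ, 0 < δ ∧ ¬ InPoly η δ

/-- The form of the hypothesis for randomised polynomial-time algorithms. -/
def SSEHypRand : Prop := ∀ η : ℝ, 0 < η → ∃ δ : ℝ, 0 < δ ∧ ¬ InRand η δ

end Pool.Agent.H689.SX
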