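import Pool.Graph.R_seed8.Helper770.EdgeSep
import Pool.Graph.R_seed8.TH694.CR.Iso

/-!
# Drawings from partitions
-/

set_option autoImplicit false
set_option linter.unusedSectionVars false

namespace Pool.Agent.H689.SX

open Finset Pool.Agent.Helper770.Crossing Pool.Agent.Helper770.EdgeSep
open Pool.Agent.TH694.CR

/-- the point with parameter `t` of the class `j` -/
noncomputable def pt (j t : ℝ) : ℂ := ⟨j + t, j ^ 2 + 2 * j * t - t ^ 2⟩

/-- the tangent functional -/
noncomputable def tg (j t : ℝ) (z : ℂ) : ℝ :=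
  z.im - (2 * j - 2 * t) * z.re - (j ^ 2 + 2 * j * t - t ^ 2) + (2 * j - 2 * t) * (j + t)

theorem tg_same (j t t' : ℝ) : tg j t (pt j t') = - (t' - t) ^ 2 := by
  unfold tg pt; ring

theorem tg_other (j k t t' : ℝ) : tg j t (pt k t') =
    (k - j) ^ 2 + 2 * (k - j) * (t + t') - (t' - t) ^ 2 := by
  unfold tg pt; ring

theorem tg_pos {j k : ℕ} (hjk : k ≠ j) {t t' : ℝ} (h0 : 0 ≤ t) (h1 : t ≤ 1 / 10) (h0' : 0 ≤ t')
    (h1' : t' ≤ 1 / 10) : 1 / 2 < tg j t (pt k t') := by
  rw [tg_other]
  have h2 : (t' - t) ^ 2 ≤ 1 / 100 := by nlinarith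
  rcases lt_or_gt_of_ne hjk with h | h
  · have h3 : (k : ℝ) + 1 ≤ j := by exact_mod_cast h
    nlinarith
  · have h3 : (j : ℝ) + 1 ≤ k := by exact_mod_cast h
    nlinarith

theorem sepr_of_tg {j t γ : ℝ} {a b c d : ℂ} (ha : tg j t a < γ) (hb : tg j t b < γ)
    (hc : γ < tg j t c) (hd : γ < tg j t d) : Pool.Agent.TH639.J31.Sepr a b c d := by
  refine ⟨- (2 * j - 2 * t), 1, γ + (j ^ 2 + 2 * j * t - t ^ 2) - (2 * j - 2 * t) * (j + t),
    ?_, ?_, ?_, ?_⟩ <;> unfold tg at * <;> linarith

theorem sepr_symm {a b c d : ℂ} (h : Pool.Agent.TH639.J31.Sepr a b c d) :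
    Pool.Agent.TH639.J31.Sepr c d a b := by
  obtain ⟨α, β, γ, h1, h2, h3, h4⟩ := h
  exact ⟨-α, -β, -γ, by linarith, by linarith, by linarith, by linarith⟩

variable {W : Type} [Fintype W]

/-- the edges inside the class `l` -/
noncomputable def mono (G : SimpleGraph W) (col : W → ℕ) (l : ℕ) : Finset (Sym2 W) := by
  classical exact (edges G).filter fun e => ∀ x ∈ e, col x = l

/-- the edges between different classes -/
noncomputable def bich (G : SimpleGraph W) (col : W → ℕ) : Finset (Sym2 W) := by
  classical exact (edges G).filter fun e => ∃ x ∈ e, ∃ y ∈ e, col x ≠ col y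

theorem mem_mono {G : SimpleGraph W} {col : W → ℕ} {l : ℕ} {z : Sym2 W} :
    z ∈ mono G col l ↔ z ∈ G.edgeSet ∧ ∀ x ∈ z, col x = l := by
  classical
  unfold mono
  simp only [mem_filter, mem_edges]

theorem mem_bich {G : SimpleGraph W} {col : W → ℕ} {z : Sym2 W} :
    z ∈ bich G col ↔ z ∈ G.edgeSet ∧ ∃ x ∈ z, ∃ y ∈ z, col x ≠ col y := by
  classical
  unfold bich
  simp only [mem_filter, mem_edges]

/-- **A drawing from a partition.** -/
theorem cr_upper (G : SimpleGraph W) (col : W → ℕ) (q : ℕ) (hq : ∀ w, col w < q) :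
    cr G ≤ (bich G col).card ^ 2 + ∑ l ∈ range q, (mono G col l).card ^ 2 := by
  classical
  set S : Finset (Sym2 (Sym2 W)) :=
    ((bich G col) ×ˢ (bich G col)).image (fun p => s(p.1, p.2)) ∪
      (range q).biUnion fun l => ((mono G col l) ×ˢ (mono G col l)).image fun p => s(p.1, p.2)
    with hS
  let idx := Fintype.equivFin W
  set n := Fintype.card W with hn
  set tt : W → ℝ := fun w => (idx w : ℝ) / (10 * n) with htt
  have ht0 : ∀ w, 0 ≤ tt w := fun w => by positivity
  have hnpos : ∀ _ : W, (0 : ℝ) < n := fun w => by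
    have : Nonempty W := ⟨w⟩
    exact_mod_cast Fintype.card_pos
  have ht1 : ∀ w, tt w ≤ 1 / 10 := by
    intro w
    have h1 := hnpos w
    have h2 : ((idx w : ℕ) : ℝ) ≤ n := by exact_mod_cast (idx w).2.le
    simp only [htt]
    rw [div_le_div_iff₀ (by positivity) (by norm_num)]
    nlinarith
  have htinj : ∀ w w', w ≠ w' → tt w ≠ tt w' := by
    intro w w' h h'
    apply h
    have h1 := hnpos w
    simp only [htt] at h'
    rw [div_left_inj' (by positivity)] at h'
    apply idx.injective
    exact Fin.ext (by exact_mod_cast h')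
  set Q : W → ℂ := fun w => pt (col w) (tt w) with hQ
  -- a monochromatic edge against another edge
  have key : ∀ a b c d : W, col a = col b → a ≠ c → a ≠ d → b ≠ c → b ≠ d →
      ¬ (col c = col a ∧ col d = col a) →
      Pool.Agent.TH639.J31.Sepr (Q a) (Q b) (Q c) (Q d) := by
    intro a b c d hab hac had hbc hbd hcd
    by_cases hc : col c = col a
    · have hd : col d ≠ col a := fun h => hcd ⟨hc, h⟩
      have e1 : tg (col a) (tt c) (Q a) = - (tt a - tt c) ^ 2 := tg_same _ _ _
      have e2 : tg (col a) (tt c) (Q b) = - (tt b - tt c) ^ 2 := by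
        simp only [hQ]; rw [← hab]; exact tg_same _ _ _
      have e3 : tg (col a) (tt c) (Q c) = 0 := by
        simp only [hQ]; rw [hc, tg_same]; ring
      have e4 : 1 / 2 < tg (col a) (tt c) (Q d) := tg_pos hd (ht0 c) (ht1 c) (ht0 d) (ht1 d)
      have p1 : 0 < (tt a - tt c) ^ 2 := by
        have := sub_ne_zero.2 (htinj a c hac); positivity
      have p2 : 0 < (tt b - tt c) ^ 2 := by
        have := sub_ne_zero.2 (htinj b c hbc); positivity
      refine sepr_of_tg (j := col a) (t := tt c)
        (γ := - (min ((tt a - tt c) ^ 2) ((tt b - tt c) ^ 2)) / 2) ?_ ?_ ?_ ?_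
      · rw [e1]
        have := min_le_left ((tt a - tt c) ^ 2) ((tt b - tt c) ^ 2)
        linarith
      · rw [e2]
        have := min_le_right ((tt a - tt c) ^ 2) ((tt b - tt c) ^ 2)
        linarith
      · rw [e3]
        have := lt_min p1 p2
        linarith
      · have := lt_min p1 p2
        linarith
    · by_cases hd : col d = col a
      · have e1 : tg (col a) (tt d) (Q a) = - (tt a - tt d) ^ 2 := tg_same _ _ _
        have e2 : tg (col a) (tt d) (Q b) = - (tt b - tt d) ^ 2 := by
          simp only [hQ]; rw [← hab]; exact tg_same _ _ _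
        have e3 : tg (col a) (tt d) (Q d) = 0 := by
          simp only [hQ]; rw [hd, tg_same]; ring
        have e4 : 1 / 2 < tg (col a) (tt d) (Q c) := tg_pos hc (ht0 d) (ht1 d) (ht0 c) (ht1 c)
        have p1 : 0 < (tt a - tt d) ^ 2 := by
          have := sub_ne_zero.2 (htinj a d had); positivity
        have p2 : 0 < (tt b - tt d) ^ 2 := by
          have := sub_ne_zero.2 (htinj b d hbd); positivity
        refine sepr_of_tg (j := col a) (t := tt d)
          (γ := - (min ((tt a - tt d) ^ 2) ((tt b - tt d) ^ 2)) / 2) ?_ ?_ ?_ ?_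
        · rw [e1]
          have := min_le_left ((tt a - tt d) ^ 2) ((tt b - tt d) ^ 2)
          linarith
        · rw [e2]
          have := min_le_right ((tt a - tt d) ^ 2) ((tt b - tt d) ^ 2)
          linarith
        · have := lt_min p1 p2
          linarith
        · rw [e3]
          have := lt_min p1 p2
          linarith
      · have e1 : tg (col a) 0 (Q a) = - (tt a - 0) ^ 2 := tg_same _ _ _
        have e2 : tg (col a) 0 (Q b) = - (tt b - 0) ^ 2 := by
          simp only [hQ]; rw [← hab]; exact tg_same _ _ _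
        have e3 : 1 / 2 < tg (col a) 0 (Q c) :=
          tg_pos hc le_rfl (by norm_num) (ht0 c) (ht1 c)
        have e4 : 1 / 2 < tg (col a) 0 (Q d) :=
          tg_pos hd le_rfl (by norm_num) (ht0 d) (ht1 d)
        refine sepr_of_tg (j := col a) (t := 0) (γ := 1 / 4) ?_ ?_ ?_ ?_
        · rw [e1]; nlinarith [sq_nonneg (tt a - 0)]
        · rw [e2]; nlinarith [sq_nonneg (tt b - 0)]
        · linarith
        · linarith
  obtain ⟨D, h1, h2, h3⟩ := Pool.Agent.TH639.J31.perturb G Q S
    (fun a b c d hab hcd hac had hbc hbd hnS => by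
      by_cases h1 : col a = col b
      · refine key a b c d h1 hac had hbc hbd fun h => ?_
        apply hnS
        rw [hS]
        refine mem_union_right _ (mem_biUnion.2 ⟨col a, mem_range.2 (hq a), ?_⟩)
        refine mem_image.2 ⟨(s(a, b), s(c, d)), mem_product.2 ⟨?_, ?_⟩, rfl⟩
        · unfold mono
          rw [mem_filter]
          refine ⟨mem_edges.2 hab, fun x hx => ?_⟩
          rw [Sym2.mem_iff] at hx
          rcases hx with rfl | rfl
          · rfl
          · exact h1.symm
        · unfold mono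
          rw [mem_filter]
          refine ⟨mem_edges.2 hcd, fun x hx => ?_⟩
          rw [Sym2.mem_iff] at hx
          rcases hx with rfl | rfl
          · exact h.1
          · exact h.2
      · by_cases h2 : col c = col d
        · refine sepr_symm (key c d a b h2 hac.symm hbc.symm had.symm hbd.symm fun h => ?_)
          exact h1 (h.1.trans h.2.symm)
        · exfalso
          apply hnS
          rw [hS]
          refine mem_union_left _ (mem_image.2 ⟨(s(a, b), s(c, d)), mem_product.2 ⟨?_, ?_⟩, rfl⟩)
          · unfold bich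
            rw [mem_filter]
            exact ⟨mem_edges.2 hab, a, by simp, b, by simp, h1⟩
          · unfold bich
            rw [mem_filter]
            exact ⟨mem_edges.2 hcd, c, by simp, d, by simp, h2⟩)
  have h4 : cr G ≤ D.crossings.ncard := Nat.sInf_le ⟨D, h1, h2, rfl⟩
  refine h4.trans (h3.trans ?_)
  rw [hS]
  refine (card_union_le _ _).trans (Nat.add_le_add ?_ ?_)
  · refine card_image_le.trans (le_of_eq ?_)
    rw [card_product, sq]
  · refine card_biUnion_le.trans (sum_le_sum fun l _ => ?_)
    refine card_image_le.trans (le_of_eq ?_)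
    rw [card_product, sq]

end Pool.Agent.H689.SX
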