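import Pool.Agent.H689.SX.Lower
import Pool.Agent.H689.SX.Upper
import Pool.Graph.R_seed8.H243R3.PCP.Xr

/-!
# Replacing the vertices of a regular multigraph by expanders
-/

set_option autoImplicit false
set_option linter.unusedSectionVars false

namespace Pool.Agent.H689.SX

open Finset Pool.Agent.Helper770.Crossing Pool.Agent.Helper770.EdgeSep
open Pool.Agent.TH694.CR Pool.Agent.H243R3.PCP

section gadget

variable {A P : Type} {M : ℕ} (o : A × P → A × P) (e : P ≃ Fin M)

/-- the outer neighbour -/
def outr (x : A × Fin M) : A × Fin M := ((o (x.1, e.symm x.2)).1, e (o (x.1, e.symm x.2)).2)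

theorem outr_outr (ho : ∀ z, o (o z) = z) (x : A × Fin M) : outr o e (outr o e x) = x := by
  unfold outr
  simp only [Equiv.symm_apply_apply]
  rw [show ((o (x.1, e.symm x.2)).1, (o (x.1, e.symm x.2)).2) = o (x.1, e.symm x.2) from rfl, ho]
  simp

/-- the neighbours: along the expanders and the outer neighbour -/
def nb (x : A × Fin M) (l : Fin 33) : A × Fin M :=
  if h : (l : ℕ) < 32 then (x.1, ⟨(xrot M x.2 l).1, (xrot_lt x.2.2 h).1⟩) else outr o e x

/-- the graph -/
def FG (ho : ∀ z, o (o z) = z) : SimpleGraph (A × Fin M) where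
  Adj x y := x ≠ y ∧ ∃ l, nb o e x l = y
  symm := ⟨by
    rintro x y ⟨hne, l, rfl⟩
    refine ⟨hne.symm, ?_⟩
    unfold nb
    by_cases h : (l : ℕ) < 32
    · have h1 := (xrot_lt x.2.2 h).2
      refine ⟨⟨(xrot M x.2 l).2, by omega⟩, ?_⟩
      rw [dif_pos h]
      simp only
      rw [dif_pos h1]
      have h2 := xrot_xrot x.2.2 h
      refine Prod.ext rfl (Fin.ext ?_)
      simp only
      rw [h2]
    · refine ⟨⟨32, by norm_num⟩, ?_⟩
      rw [dif_neg h]
      rw [dif_neg (by simp)]
      exact outr_outr o e ho x⟩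
  loopless := ⟨fun x h => h.1 rfl⟩

variable [Fintype A] (ho : ∀ z, o (o z) = z)

theorem dg_FG (v : A × Fin M) : dg (FG o e ho) v ≤ 33 := by
  classical
  refine (dg_le _ v ((univ : Finset (Fin 33)).image fun l => s(v, nb o e v l)) ?_).trans ?_
  · intro z hz hv
    obtain ⟨y, rfl⟩ := hv
    obtain ⟨-, l, hl⟩ := (SimpleGraph.mem_edgeSet _).1 hz
    exact mem_image.2 ⟨l, mem_univ _, by rw [hl]⟩
  · refine le_trans card_image_le ?_
    simp

/-- the darts that cross the boundary of `T` -/
noncomputable def cd (T : Finset (A × Fin M)) : Finset ((A × Fin M) × Fin 33) := by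
  classical exact univ.filter fun z => ¬ (z.1 ∈ T ↔ nb o e z.1 z.2 ∈ T)

theorem card_cd (T : Finset (A × Fin M)) : (cd o e T).card ≤ 66 * (bd (FG o e ho) T).card := by
  classical
  let g : (A × Fin M) × Fin 33 → Sym2 (A × Fin M) := fun z => s(z.1, nb o e z.1 z.2)
  have himg : (cd o e T).image g ⊆ bd (FG o e ho) T := by
    intro z hz
    obtain ⟨⟨x, l⟩, hx, rfl⟩ := mem_image.1 hz
    unfold cd at hx
    rw [mem_filter] at hx
    have hx2 := hx.2
    simp only at hx2
    have hadj : (FG o e ho).Adj x (nb o e x l) := by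
      refine ⟨fun h => ?_, l, rfl⟩
      rw [← h] at hx2
      exact hx2 Iff.rfl
    rw [mem_bd]
    refine ⟨hadj, ?_⟩
    by_cases h1 : x ∈ T
    · have h2 : nb o e x l ∉ T := fun h2 => hx2 ⟨fun _ => h2, fun _ => h1⟩
      exact ⟨x, nb o e x l, rfl, h1, h2⟩
    · have h2 : nb o e x l ∈ T := by
        by_contra h2; exact hx2 ⟨fun h => absurd h h1, fun h => absurd h h2⟩
      exact ⟨nb o e x l, x, Sym2.eq_swap, h2, h1⟩
  have hfib : ∀ z ∈ (cd o e T).image g, ((cd o e T).filter fun x => g x = z).card ≤ 66 := by
    intro z _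
    induction z with
    | _ a c =>
      have hsub : ((cd o e T).filter fun x => g x = s(a, c)) ⊆
          ({a, c} : Finset (A × Fin M)) ×ˢ (univ : Finset (Fin 33)) := by
        rintro ⟨x, l⟩ hx
        rw [mem_filter] at hx
        have h1 : s(x, nb o e x l) = s(a, c) := hx.2
        rw [mem_product]
        refine ⟨?_, mem_univ _⟩
        rw [mem_insert, mem_singleton]
        have h2 : x ∈ s(a, c) := by rw [← h1]; simp
        rwa [Sym2.mem_iff] at h2
      refine (card_le_card hsub).trans ?_
      rw [card_product, card_univ, Fintype.card_fin]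
      have := Finset.card_le_two (a := a) (b := c)
      omega
  exact (card_le_mul_card_image _ 66 hfib).trans
    (Nat.mul_le_mul_left 66 (card_le_card himg))

/-- the majority in a gadget -/
def maj (T : Finset (A × Fin M)) (ω : A) : Prop := by
  classical exact M ≤ 2 * (univ.filter fun p : Fin M => (ω, p) ∈ T).card

/-- the vertices in the minority -/
noncomputable def Mi (T : Finset (A × Fin M)) : Finset (A × Fin M) := by
  classical exact univ.filter fun x => ¬ (x ∈ T ↔ maj T x.1)

/-- the boundary darts of one gadget -/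
noncomputable def cw (T : Finset (A × Fin M)) (ω : A) : Finset (Fin M × Fin 32) := by
  classical exact univ.filter fun z => ¬ ((ω, z.1) ∈ T ↔
    (ω, (⟨(xrot M z.1 z.2).1, (xrot_lt z.1.2 z.2.2).1⟩ : Fin M)) ∈ T)

/-- the isoperimetric inequality of the gadgets -/
theorem card_minor [DecidableEq A] (T : Finset (A × Fin M)) (ω : A) :
    ((Mi T).filter fun x : A × Fin M => x.1 = ω).card ≤ 208 * (cw T ω).card := by
  classical
  set a := (univ.filter fun p : Fin M => (ω, p) ∈ T).card with ha
  have hcompl : (univ.filter fun p : Fin M => (ω, p) ∉ T).card = M - a := by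
    have h := Finset.card_filter_add_card_filter_not (s := (univ : Finset (Fin M)))
      (fun p : Fin M => (ω, p) ∈ T)
    rw [card_univ, Fintype.card_fin] at h
    omega
  have haM : a ≤ M := by
    have := card_filter_le (univ : Finset (Fin M)) (fun p => (ω, p) ∈ T)
    rwa [card_univ, Fintype.card_fin] at this
  -- the number of the minority
  have h1 : ((Mi T).filter fun x => x.1 = ω).card ≤ min a (M - a) := by
    by_cases hm : maj T ω
    · have hm' : M ≤ 2 * a := by
        unfold maj at hm
        rw [ha]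
        convert hm
      have h2 : ((Mi T).filter fun x => x.1 = ω).card ≤
          (univ.filter fun p : Fin M => (ω, p) ∉ T).card := by
        refine card_le_card_of_injOn Prod.snd ?_ ?_
        · rintro ⟨ω', p⟩ hx
          simp only [Mi, coe_filter, mem_filter, mem_univ, true_and, Set.mem_ofPred_eq] at hx ⊢
          obtain ⟨h3, rfl⟩ := hx
          intro h4
          exact h3 ⟨fun _ => hm, fun _ => h4⟩
        · rintro ⟨ω', p⟩ hx ⟨ω'', p'⟩ hx' h
          simp only [coe_filter, Set.mem_ofPred_eq] at hx hx' h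
          rw [h, hx.2, hx'.2]
      rw [hcompl] at h2
      omega
    · have hm' : 2 * a < M := by
        have : ¬ M ≤ 2 * a := by
          intro h; apply hm
          unfold maj
          rw [ha] at h
          convert h
        omega
      have h2 : ((Mi T).filter fun x => x.1 = ω).card ≤ a := by
        rw [ha]
        refine card_le_card_of_injOn Prod.snd ?_ ?_
        · rintro ⟨ω', p⟩ hx
          simp only [Mi, coe_filter, mem_filter, mem_univ, true_and, Set.mem_ofPred_eq] at hx ⊢
          obtain ⟨h3, rfl⟩ := hx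
          by_contra h4
          exact h3 ⟨fun h => absurd h h4, fun h => absurd h hm⟩
        · rintro ⟨ω', p⟩ hx ⟨ω'', p'⟩ hx' h
          simp only [coe_filter, Set.mem_ofPred_eq] at hx hx' h
          rw [h, hx.2, hx'.2]
      omega
  rcases Nat.eq_zero_or_pos M with hM | hM
  · have : min a (M - a) = 0 := by rw [hM]; simp
    omega
  -- the Poincaré inequality
  let f : ℕ → ℝ := fun j => if h : j < M then (if (ω, (⟨j, h⟩ : Fin M)) ∈ T then 1 else 0) else 0
  obtain ⟨m, hm⟩ := poincare_x M hM f
  have hL : ((min a (M - a) : ℕ) : ℝ) / 2 ≤ ∑ j ∈ range M, (f j - m) ^ 2 := by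
    rw [← Fin.sum_univ_eq_sum_range (fun j => (f j - m) ^ 2) M]
    rw [← Finset.sum_filter_add_sum_filter_not univ (fun p : Fin M => (ω, p) ∈ T)]
    have e1 : ∑ p ∈ univ.filter (fun p : Fin M => (ω, p) ∈ T), (f (p : ℕ) - m) ^ 2 =
        a * (1 - m) ^ 2 := by
      rw [ha, ← nsmul_eq_mul, ← sum_const]
      refine sum_congr rfl fun p hp => ?_
      rw [mem_filter] at hp
      have : f (p : ℕ) = 1 := by
        simp only [f]
        rw [dif_pos p.2, if_pos hp.2]
      rw [this]
    have e2 : ∑ p ∈ univ.filter (fun p : Fin M => ¬ (ω, p) ∈ T), (f (p : ℕ) - m) ^ 2 =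
        ((M - a : ℕ) : ℝ) * m ^ 2 := by
      rw [← hcompl, ← nsmul_eq_mul, ← sum_const]
      refine sum_congr rfl fun p hp => ?_
      rw [mem_filter] at hp
      have : f (p : ℕ) = 0 := by
        simp only [f]
        rw [dif_pos p.2, if_neg hp.2]
      rw [this]; ring
    rw [e1, e2]
    have h3 : ((min a (M - a) : ℕ) : ℝ) ≤ a := by exact_mod_cast min_le_left _ _
    have h4 : ((min a (M - a) : ℕ) : ℝ) ≤ ((M - a : ℕ) : ℝ) := by exact_mod_cast min_le_right _ _
    have h5 := mul_le_mul_of_nonneg_right h3 (sq_nonneg (1 - m))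
    have h6 := mul_le_mul_of_nonneg_right h4 (sq_nonneg m)
    have h7 : (0 : ℝ) ≤ ((min a (M - a) : ℕ) : ℝ) := Nat.cast_nonneg _
    nlinarith [mul_nonneg h7 (sq_nonneg (2 * m - 1))]
  have hRr : ∑ j ∈ range M, ∑ l ∈ range 32, (f (xrot M j l).1 - f j) ^ 2 = (cw T ω).card := by
    rw [← Fin.sum_univ_eq_sum_range (fun j => ∑ l ∈ range 32, (f (xrot M j l).1 - f j) ^ 2) M]
    have e1 : ∀ p : Fin M, ∑ l ∈ range 32, (f (xrot M p l).1 - f p) ^ 2 =
        ∑ l : Fin 32, (f (xrot M p l).1 - f p) ^ 2 := fun p =>
      (Fin.sum_univ_eq_sum_range (fun l => (f (xrot M p l).1 - f p) ^ 2) 32).symm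
    rw [sum_congr rfl fun p _ => e1 p, ← Fintype.sum_prod_type']
    unfold cw
    rw [card_eq_sum_ones, sum_filter]
    push_cast
    refine sum_congr rfl fun z _ => ?_
    obtain ⟨p, l⟩ := z
    have h3 := (xrot_lt p.2 l.2).1
    simp only [f]
    rw [dif_pos h3, dif_pos p.2]
    by_cases h4 : (ω, p) ∈ T
    · by_cases h5 : (ω, (⟨(xrot M p l).1, h3⟩ : Fin M)) ∈ T
      · simp [h4, h5]
      · simp [h4, h5]
    · by_cases h5 : (ω, (⟨(xrot M p l).1, h3⟩ : Fin M)) ∈ T
      · simp [h4, h5]
      · simp [h4, h5]
  rw [hRr] at hm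
  have h8 : ((min a (M - a) : ℕ) : ℝ) ≤ 208 * (cw T ω).card := by linarith
  have h9 : min a (M - a) ≤ 208 * (cw T ω).card := by exact_mod_cast h8
  exact h1.trans h9

/-- the outer boundary darts -/
noncomputable def co (T : Finset (A × Fin M)) : Finset (A × Fin M) := by
  classical exact univ.filter fun x => ¬ (x ∈ T ↔ outr o e x ∈ T)

theorem card_cd_ge (T : Finset (A × Fin M)) :
    ∑ ω, (cw T ω).card + (co o e T).card ≤ (cd o e T).card := by
  classical
  have h1 : ∑ ω, (cw T ω).card = ((cd o e T).filter fun z => (z.2 : ℕ) < 32).card := by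
    rw [← card_sigma]
    refine card_bij (fun z _ => ((z.1, z.2.1), ⟨(z.2.2 : ℕ), by have := z.2.2.2; omega⟩)) ?_ ?_ ?_
    · rintro ⟨ω, p, l⟩ hz
      simp only [cw, cd, mem_sigma, mem_univ, true_and, mem_filter] at hz ⊢
      refine ⟨?_, l.2⟩
      unfold nb
      rw [dif_pos l.2]
      exact hz
    · rintro ⟨ω, p, l⟩ _ ⟨ω', p', l'⟩ _ h
      simp only [Prod.mk.injEq, Fin.mk.injEq] at h
      obtain ⟨⟨rfl, rfl⟩, h⟩ := h
      have : l = l' := Fin.ext h
      rw [this]
    · rintro ⟨⟨ω, p⟩, l⟩ hz
      simp only [cd, mem_univ, true_and, mem_filter] at hz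
      obtain ⟨h1, h2⟩ := hz
      refine ⟨⟨ω, p, ⟨l, h2⟩⟩, ?_, rfl⟩
      simp only [cw, mem_sigma, mem_univ, true_and, mem_filter]
      unfold nb at h1
      rw [dif_pos h2] at h1
      exact h1
  have h2 : (co o e T).card = ((cd o e T).filter fun z => ¬ (z.2 : ℕ) < 32).card := by
    refine card_bij (fun x _ => (x, ⟨32, by norm_num⟩)) ?_ ?_ ?_
    · intro x hx
      simp only [co, cd, mem_univ, true_and, mem_filter] at hx ⊢
      refine ⟨?_, by simp⟩
      unfold nb
      rw [dif_neg (by simp)]
      exact hx
    · intro x _ y _ h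
      simpa using h
    · rintro ⟨x, l⟩ hz
      simp only [cd, mem_univ, true_and, mem_filter] at hz
      obtain ⟨h1, h2⟩ := hz
      refine ⟨x, ?_, ?_⟩
      · simp only [co, mem_univ, true_and, mem_filter]
        unfold nb at h1
        rw [dif_neg h2] at h1
        exact h1
      · refine Prod.ext rfl (Fin.ext ?_)
        have := l.2
        simp only
        omega
  rw [h1, h2, Finset.card_filter_add_card_filter_not]

theorem card_Mi (T : Finset (A × Fin M)) : (Mi T).card ≤ 208 * ∑ ω, (cw T ω).card := by
  classical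
  rw [Finset.card_eq_sum_card_fiberwise (f := Prod.fst) (t := univ) (fun _ _ => mem_univ _),
    mul_sum]
  exact sum_le_sum fun ω _ => card_minor T ω

/-- the vertices at which the majority changes along the outer edge -/
noncomputable def cm (T : Finset (A × Fin M)) : Finset (A × Fin M) := by
  classical exact univ.filter fun x => ¬ (maj T x.1 ↔ maj T (outr o e x).1)

/-- **Rounding a cut.** -/
theorem card_cm (T : Finset (A × Fin M)) :
    (cm o e T).card ≤ 27456 * (bd (FG o e ho) T).card := by
  classical
  have h1 : (cm o e T) ⊆ co o e T ∪ (Mi T ∪ (Mi T).image (outr o e)) := by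
    intro x hx
    unfold cm at hx
    rw [mem_filter] at hx
    by_contra hcon
    simp only [mem_union, not_or] at hcon
    obtain ⟨h2, h3, h4⟩ := hcon
    have h2' : x ∈ T ↔ outr o e x ∈ T := by
      by_contra h; apply h2; unfold co; rw [mem_filter]; exact ⟨mem_univ _, h⟩
    have h3' : x ∈ T ↔ maj T x.1 := by
      by_contra h; apply h3; unfold Mi; rw [mem_filter]; exact ⟨mem_univ _, h⟩
    have h4' : outr o e x ∈ T ↔ maj T (outr o e x).1 := by
      by_contra h; apply h4
      rw [mem_image]
      refine ⟨outr o e x, ?_, outr_outr o e ho x⟩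
      unfold Mi; rw [mem_filter]; exact ⟨mem_univ _, h⟩
    exact hx.2 (h3'.symm.trans (h2'.trans h4'))
  have h2 := card_le_card h1
  have h3 := card_union_le (co o e T) (Mi T ∪ (Mi T).image (outr o e))
  have h4 := card_union_le (Mi T) ((Mi T).image (outr o e))
  have h5 : ((Mi T).image (outr o e)).card ≤ (Mi T).card := card_image_le
  have h6 := card_Mi T
  have h7 := card_cd_ge o e T
  have h8 := card_cd o e ho T
  omega

theorem card_Mi_le (T : Finset (A × Fin M)) :
    (Mi T).card ≤ 13728 * (bd (FG o e ho) T).card := by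
  have h6 := card_Mi T
  have h7 := card_cd_ge o e T
  have h8 := card_cd o e ho T
  omega

/-- the vertices of the gadgets with majority `1` -/
noncomputable def mt (T : Finset (A × Fin M)) : Finset (A × Fin M) := by
  classical exact univ.filter fun x => maj T x.1

theorem card_mt (T : Finset (A × Fin M)) :
    (mt T).card ≤ T.card + (Mi T).card ∧ T.card ≤ (mt T).card + (Mi T).card := by
  classical
  constructor
  · refine le_trans (card_le_card ?_) (card_union_le T (Mi T))
    intro x hx
    unfold mt at hx
    rw [mem_filter] at hx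
    by_cases h : x ∈ T
    · exact mem_union_left _ h
    · refine mem_union_right _ ?_
      unfold Mi
      rw [mem_filter]
      exact ⟨mem_univ _, fun h' => h (h'.2 hx.2)⟩
  · refine le_trans (card_le_card ?_) (card_union_le (mt T) (Mi T))
    intro x hx
    by_cases h : maj T x.1
    · refine mem_union_left _ ?_
      unfold mt
      rw [mem_filter]
      exact ⟨mem_univ _, h⟩
    · refine mem_union_right _ ?_
      unfold Mi
      rw [mem_filter]
      exact ⟨mem_univ _, fun h' => h (h'.1 hx)⟩

/-- monochromatic edges -/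
theorem card_mono (col : A → ℕ) (l : ℕ) :
    (mono (FG o e ho) (fun x => col x.1) l).card ≤
      33 * (by classical exact (univ.filter fun x : A × Fin M => col x.1 = l).card) := by
  classical
  have h : mono (FG o e ho) (fun x => col x.1) l ⊆
      ((univ.filter fun x : A × Fin M => col x.1 = l) ×ˢ (univ : Finset (Fin 33))).image
        fun z => s(z.1, nb o e z.1 z.2) := by
    intro z hz
    rw [mem_mono] at hz
    induction z with
    | _ x y =>
      obtain ⟨-, k, hk⟩ := (SimpleGraph.mem_edgeSet _).1 hz.1
      refine mem_image.2 ⟨(x, k), mem_product.2 ⟨?_, mem_univ _⟩, by rw [hk]⟩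
      rw [mem_filter]
      exact ⟨mem_univ _, hz.2 x (by simp)⟩
  refine (card_le_card h).trans (card_image_le.trans ?_)
  rw [card_product, card_univ, Fintype.card_fin, mul_comm]

/-- edges between different classes -/
theorem card_bich (col : A → ℕ) :
    (bich (FG o e ho) (fun x => col x.1)).card ≤
      (by classical exact (univ.filter fun x : A × Fin M =>
        col x.1 ≠ col (outr o e x).1).card) := by
  classical
  have h : bich (FG o e ho) (fun x => col x.1) ⊆
      (univ.filter fun x : A × Fin M => col x.1 ≠ col (outr o e x).1).image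
        fun x => s(x, outr o e x) := by
    intro z hz
    rw [mem_bich] at hz
    induction z with
    | _ x y =>
      obtain ⟨hne, k, hk⟩ := (SimpleGraph.mem_edgeSet _).1 hz.1
      have hcol : col x.1 ≠ col y.1 := by
        obtain ⟨-, u, hu, v, hv, huv⟩ := hz
        rw [Sym2.mem_iff] at hu hv
        rcases hu with rfl | rfl <;> rcases hv with rfl | rfl
        · exact absurd rfl huv
        · exact huv
        · exact huv.symm
        · exact absurd rfl huv
      have hk' : outr o e x = y := by
        unfold nb at hk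
        by_cases h32 : (k : ℕ) < 32
        · rw [dif_pos h32] at hk
          rw [← hk] at hcol
          exact absurd rfl hcol
        · rw [dif_neg h32] at hk
          exact hk
      refine mem_image.2 ⟨x, ?_, by rw [hk']⟩
      rw [mem_filter, hk']
      exact ⟨mem_univ _, hcol⟩
  exact (card_le_card h).trans card_image_le

end gadget

end Pool.Agent.H689.SX
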