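import Pool.Agent.H689.SX.Sound
import Pool.Agent.H689.SX.Complete
import Pool.Agent.H689.SX.Gadget

/-!
# The gap of the crossing numbers
-/

set_option autoImplicit false
set_option linter.unusedSectionVars false

namespace Pool.Agent.H689.SX

open Finset Pool.Agent.Helper770.Crossing Pool.Agent.Helper770.EdgeSep
open Pool.Agent.TH694.CR

section gap

variable {V J Q : Type} [Fintype V] [Fintype J] [Fintype Q] {R M : ℕ}
  (G : Rot V J) (b : ℕ) [NeZero b] [Nonempty V] [Nonempty Q] [Nonempty J]
  (e : ((Fin R → Ch b V Q J) × Equiv.Perm (Fin R)) ≃ Fin M)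

/-- the graph of the reduction -/
noncomputable def HG : SimpleGraph ((Fin R → V × Q) × Fin M) :=
  FG (rt G b) e (rt_rt G b)

/-- change of the enumeration of the darts -/
def chg : (Fin R → V × Q) × ((Fin R → Ch b V Q J) × Equiv.Perm (Fin R)) ≃
    (Fin R → V × Q) × Fin M := Equiv.prodCongr (Equiv.refl _) e

theorem outr_chg (p : (Fin R → V × Q) × ((Fin R → Ch b V Q J) × Equiv.Perm (Fin R))) :
    outr (rt G b) e (chg b e p) = chg b e (rt G b p) := by
  unfold outr chg
  simp [Equiv.prodCongr]
  rfl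

theorem ev_chg (g : (Fin R → V × Q) × Fin M → ℝ) :
    ev (fun p : (Fin R → V × Q) × ((Fin R → Ch b V Q J) × Equiv.Perm (Fin R)) =>
      g (chg b e p)) = ev g := ev_equiv (chg b e) g

include e in
theorem M_pos : 0 < M := by
  have : Nonempty ((Fin R → Ch b V Q J) × Equiv.Perm (Fin R)) := inferInstance
  obtain ⟨x⟩ := this
  have := (e x).2
  omega

/-- the number of the vertices -/
theorem card_HG : (Fintype.card ((Fin R → V × Q) × Fin M) : ℝ) =
    Fintype.card (Fin R → V × Q) * M := by
  rw [Fintype.card_prod, Fintype.card_fin]; push_cast; rfl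

theorem kap_cm (T : Finset ((Fin R → V × Q) × Fin M)) :
    kap G b (fun ω => ind (maj T ω)) =
      ((cm (rt G b) e T).card : ℝ) / Fintype.card ((Fin R → V × Q) × Fin M) := by
  classical
  have h1 : kap G b (fun ω => ind (maj T ω)) =
      ev (fun p : (Fin R → V × Q) × ((Fin R → Ch b V Q J) × Equiv.Perm (Fin R)) =>
        (fun x => ind (¬ (maj T x.1 ↔ maj T (outr (rt G b) e x).1))) (chg b e p)) := by
    unfold kap
    refine ev_congr fun p => ?_
    simp only
    rw [outr_chg]
    have h2 : (chg b e p).1 = p.1 := rfl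
    have h3 : (chg b e (rt G b p)).1 = (rt G b p).1 := rfl
    rw [h2, h3]
    by_cases h4 : maj T p.1 <;> by_cases h5 : maj T (rt G b p).1
    · rw [ind_true h4, ind_true h5, ind_false (by tauto)]; norm_num
    · rw [ind_true h4, ind_false h5, ind_true (by tauto)]; norm_num
    · rw [ind_false h4, ind_true h5, ind_true (by tauto)]; norm_num
    · rw [ind_false h4, ind_false h5, ind_false (by tauto)]; norm_num
  refine h1.trans ((ev_chg b e (fun x => ind (¬ (maj T x.1 ↔
    maj T (outr (rt G b) e x).1)))).trans ?_)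
  rw [ev_ind]
  unfold cm
  congr!

theorem ev_mt (hM : 0 < M) (T : Finset ((Fin R → V × Q) × Fin M)) :
    ev (fun ω : Fin R → V × Q => ind (maj T ω)) =
      ((mt T).card : ℝ) / Fintype.card ((Fin R → V × Q) × Fin M) := by
  classical
  have : Nonempty (Fin M) := ⟨⟨0, hM⟩⟩
  have h1 : ev (fun x : (Fin R → V × Q) × Fin M => ind (maj T x.1)) =
      ev (fun ω : Fin R → V × Q => ind (maj T ω)) := by
    rw [ev_prod]
    simp only [ev_const]
  rw [← h1, ev_ind]
  unfold mt
  congr!

/-- **NO instances.** -/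
theorem no_case (s Mm η : ℝ)
    (hNO : ∀ T : Finset V, (T.card : ℝ) ≤ Mm * s → (inn G T : ℝ) ≤ η * (Fintype.card J * s))
    (hsize : 33792 * b * (Fintype.card V * Fintype.card Q) ≤ Mm * s * R)
    (hη : R * (32 * η * s / Fintype.card V) ≤ 1 / 2 ^ 23)
    (hn : 2 ≤ Fintype.card ((Fin R → V × Q) × Fin M)) :
    (Fintype.card ((Fin R → V × Q) × Fin M) : ℝ) ^ 2 ≤
      3 * 10 ^ 20 * b * (1089 * Fintype.card ((Fin R → V × Q) × Fin M) +
        4 * cr (HG G b e) + 1) := by
  classical
  have hb1 : (1 : ℝ) ≤ b := by exact_mod_cast Nat.pos_of_ne_zero (NeZero.ne b)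
  set n := Fintype.card ((Fin R → V × Q) × Fin M) with hnd
  have hnpos : (0 : ℝ) < n := by
    have : 0 < n := by omega
    exact_mod_cast this
  have key : ∀ T : Finset ((Fin R → V × Q) × Fin M), n ≤ 4 * T.card → 4 * T.card ≤ 3 * n →
      (n : ℝ) ^ 2 ≤ 6 * 10 ^ 17 * b * ((bd (HG G b e) T).card : ℝ) ^ 2 := by
    intro T h1 h2
    set B := (bd (HG G b e) T).card with hB
    have hMi : (Mi T).card ≤ 13728 * B := card_Mi_le (rt G b) e (rt_rt G b) T
    have hcm : (cm (rt G b) e T).card ≤ 27456 * B := card_cm (rt G b) e (rt_rt G b) T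
    obtain ⟨hm1, hm2⟩ := card_mt T
    by_cases hbig : n < 8 * (13728 * B)
    · have h3 : (n : ℝ) ≤ 109824 * B := by
        have : n ≤ 109824 * B := by omega
        exact_mod_cast this
      have h4 : (n : ℝ) ^ 2 ≤ (109824 * (B : ℝ)) ^ 2 := pow_le_pow_left₀ hnpos.le h3 2
      have h5 : (0 : ℝ) ≤ (B : ℝ) ^ 2 := sq_nonneg _
      nlinarith
    · push Not at hbig
      have h3 : 8 * (Mi T).card ≤ n := by omega
      have hf : ∀ ω : Fin R → V × Q, (fun ω => ind (maj T ω)) ω = 0 ∨
          (fun ω => ind (maj T ω)) ω = 1 := by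
        intro ω
        by_cases h : maj T ω
        · right; exact ind_true h
        · left; exact ind_false h
      have hev := ev_mt (M_pos b e) T
      rw [← hnd] at hev
      have hlo : 1 / 8 ≤ ev (fun ω : Fin R → V × Q => ind (maj T ω)) := by
        rw [hev, div_le_div_iff₀ (by norm_num) hnpos]
        have : n ≤ 8 * (mt T).card := by omega
        have : (n : ℝ) ≤ 8 * (mt T).card := by exact_mod_cast this
        linarith
      have hhi : ev (fun ω : Fin R → V × Q => ind (maj T ω)) ≤ 7 / 8 := by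
        rw [hev, div_le_div_iff₀ hnpos (by norm_num)]
        have : 8 * (mt T).card ≤ 7 * n := by omega
        have : 8 * ((mt T).card : ℝ) ≤ 7 * n := by exact_mod_cast this
        linarith
      have hs := sound G b (fun ω => ind (maj T ω)) hf hlo hhi (32 * η * s / Fintype.card V)
        (fun ω i => decode G b _ (fun ω => ⟨ind_nonneg _, ind_le_one _⟩) s Mm η hNO (by
          rw [Fintype.card_fin]; exact hsize) ω i) hη
      rw [kap_cm G b e, ← hnd] at hs
      have hcm' : ((cm (rt G b) e T).card : ℝ) ≤ 27456 * B := by exact_mod_cast hcm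
      have h4 : ((cm (rt G b) e T).card : ℝ) ^ 2 ≤ (27456 * (B : ℝ)) ^ 2 :=
        pow_le_pow_left₀ (Nat.cast_nonneg _) hcm' 2
      rw [div_pow] at hs
      have h5 : (n : ℝ) ^ 2 ≤ 7 * 10 ^ 8 * b * ((cm (rt G b) e T).card : ℝ) ^ 2 := by
        have h6 : (7 * 10 ^ 8 * b * (((cm (rt G b) e T).card : ℝ) ^ 2 / (n : ℝ) ^ 2)) * (n : ℝ) ^ 2 =
            7 * 10 ^ 8 * b * ((cm (rt G b) e T).card : ℝ) ^ 2 := by
          field_simp
        rw [← h6]
        have h7 : (0 : ℝ) < (n : ℝ) ^ 2 := by positivity
        nlinarith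
      have h8 : 7 * 10 ^ 8 * (b : ℝ) * ((cm (rt G b) e T).card : ℝ) ^ 2 ≤
          7 * 10 ^ 8 * b * (27456 * (B : ℝ)) ^ 2 :=
        mul_le_mul_of_nonneg_left h4 (by positivity)
      have h9 : 7 * 10 ^ 8 * (b : ℝ) * (27456 * (B : ℝ)) ^ 2 ≤ 6 * 10 ^ 17 * b * (B : ℝ) ^ 2 := by
        have h10 : (0 : ℝ) ≤ b * (B : ℝ) ^ 2 := by positivity
        nlinarith
      linarith
  have hc : (0 : ℝ) < 6 * 10 ^ 17 * b := by positivity
  have hlow := cr_lower (HG G b e) 33 (dg_FG (rt G b) e (rt_rt G b)) hn
    (n / √(6 * 10 ^ 17 * b)) (by positivity) (by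
      intro T h1 h2
      rw [div_le_iff₀ (Real.sqrt_pos.2 hc)]
      apply le_of_sq_le_sq _ (by positivity)
      rw [mul_pow, Real.sq_sqrt hc.le]
      have := key T h1 h2
      linarith)
  rw [div_pow, Real.sq_sqrt hc.le, div_le_iff₀ hc, ← hnd] at hlow
  refine hlow.trans (le_of_eq ?_)
  push_cast
  ring

variable [AddCommGroup Q]

/-- **YES instances.** -/
theorem yes_case (S : Finset V) (s η : ℝ) (hS : (S.card : ℝ) = s)
    (hout : (out G S : ℝ) ≤ η * (Fintype.card J * s)) :
    (cr (HG G b e) : ℝ) ≤ (Fintype.card ((Fin R → V × Q) × Fin M) : ℝ) ^ 2 *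
      ((R * (2 * (s / Fintype.card V) / b + 2 * (η * (s / Fintype.card V)))) ^ 2 +
        1089 * (1 / Fintype.card Q + (1 - s / Fintype.card V) ^ R)) := by
  classical
  have hM := M_pos b e
  have : Nonempty (Fin M) := ⟨⟨0, hM⟩⟩
  have hV : (0 : ℝ) < Fintype.card V := card_pos'
  have hJ : (0 : ℝ) < Fintype.card J := card_pos'
  set n := Fintype.card ((Fin R → V × Q) × Fin M) with hnd
  have hnpos : (0 : ℝ) < n := by rw [hnd]; exact card_pos'
  set q := Fintype.card Q with hq
  let ix : Q ≃ Fin q := Fintype.equivFin Q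
  let col : (Fin R → V × Q) → ℕ := fun ω => (ix (lab S ω) : ℕ)
  have hcol : ∀ ω ω', col ω = col ω' ↔ lab S ω = lab S ω' := by
    intro ω ω'
    simp only [col]
    rw [Fin.val_inj, ix.injective.eq_iff]
  have hup := cr_upper (HG G b e) (fun x => col x.1) q (fun x => (ix _).2)
  -- bichromatic edges
  have hX : ((bich (HG G b e) (fun x => col x.1)).card : ℝ) ≤
      n * (R * (2 * (s / Fintype.card V) / b + 2 * (η * (s / Fintype.card V)))) := by
    have h1 : ((bich (HG G b e) (fun x => col x.1)).card : ℝ) ≤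
        ((univ.filter fun x : (Fin R → V × Q) × Fin M =>
          col x.1 ≠ col (outr (rt G b) e x).1).card : ℝ) := by
      have := card_bich (rt G b) e (rt_rt G b) col
      exact_mod_cast (le_trans this (le_of_eq (by congr!)))
    refine h1.trans ?_
    have h2 := lab_change (ι := Fin R) (Q := Q) G b S
    have h3 : ev (fun p : (Fin R → V × Q) × ((Fin R → Ch b V Q J) × Equiv.Perm (Fin R)) =>
        ind (lab S p.1 ≠ lab S (rt G b p).1)) =
        ((univ.filter fun x : (Fin R → V × Q) × Fin M =>
          col x.1 ≠ col (outr (rt G b) e x).1).card : ℝ) / n := by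
      rw [hnd, ← ev_ind, ← ev_chg b e]
      refine ev_congr fun p => ind_congr ?_
      rw [outr_chg]
      have h4 : (chg b e p).1 = p.1 := rfl
      have h5 : (chg b e (rt G b p)).1 = (rt G b p).1 := rfl
      rw [h4, h5]
      simp only [ne_eq, hcol]
    rw [h3, div_le_iff₀ hnpos, Fintype.card_fin] at h2
    refine h2.trans ?_
    rw [mul_comm]
    apply mul_le_mul_of_nonneg_left _ hnpos.le
    apply mul_le_mul_of_nonneg_left _ (Nat.cast_nonneg _)
    rw [hS]
    have h6 : (out G S : ℝ) / (Fintype.card V * Fintype.card J) ≤ η * (s / Fintype.card V) := by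
      rw [div_le_iff₀ (by positivity)]
      refine hout.trans (le_of_eq ?_)
      field_simp
    linarith
  -- monochromatic edges
  set μ : ℝ := 1 / q + (1 - s / Fintype.card V) ^ R with hμ
  have hcl : ∀ l : ℕ, ((univ.filter fun x : (Fin R → V × Q) × Fin M => col x.1 = l).card : ℝ) ≤
      n * μ := by
    intro l
    by_cases hl : l < q
    · have h1 := lab_class (ι := Fin R) (Q := Q) S (ix.symm ⟨l, hl⟩)
      have h2 : ev (fun ω : Fin R → V × Q => ind (lab S ω = ix.symm ⟨l, hl⟩)) =
          ((univ.filter fun x : (Fin R → V × Q) × Fin M => col x.1 = l).card : ℝ) / n := by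
        rw [hnd, ← ev_ind, ev_prod]
        refine ev_congr fun ω => ?_
        change _ = ev (fun _ : Fin M => ind (col ω = l))
        rw [ev_const]
        apply ind_congr
        simp only [col]
        constructor
        · intro h; rw [h]; simp
        · intro h
          rw [Equiv.eq_symm_apply]
          exact Fin.ext h
      rw [h2, div_le_iff₀ hnpos, Fintype.card_fin, hS] at h1
      rw [mul_comm]
      exact h1
    · have h1 : (univ.filter fun x : (Fin R → V × Q) × Fin M => col x.1 = l) = ∅ := by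
        rw [filter_eq_empty_iff]
        intro x _ h
        apply hl
        rw [← h]
        exact (ix _).2
      rw [h1, card_empty]
      have h2 : 0 ≤ μ := by
        have h3 := lab_class (ι := Fin R) (Q := Q) S (0 : Q)
        have h4 : 0 ≤ ev (fun ω : Fin R → V × Q => ind (lab S ω = 0)) :=
          ev_nonneg fun _ => ind_nonneg _
        rw [Fintype.card_fin, hS] at h3
        exact h4.trans h3
      push_cast
      positivity
  have hmono : ∑ l ∈ range q, ((mono (HG G b e) (fun x => col x.1) l).card : ℝ) ^ 2 ≤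
      1089 * (n * μ) * n := by
    have h1 : ∀ l, ((mono (HG G b e) (fun x => col x.1) l).card : ℝ) ^ 2 ≤
        1089 * (n * μ) * ((univ.filter fun x : (Fin R → V × Q) × Fin M => col x.1 = l).card : ℝ)
        := by
      intro l
      set a := ((univ.filter fun x : (Fin R → V × Q) × Fin M => col x.1 = l).card : ℝ) with ha
      have h2 : ((mono (HG G b e) (fun x => col x.1) l).card : ℝ) ≤ 33 * a := by
        have := card_mono (rt G b) e (rt_rt G b) col l
        rw [ha]
        exact_mod_cast (le_trans this (le_of_eq (by congr!)))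
      have h3 := hcl l
      rw [← ha] at h3
      have h4 : 0 ≤ a := Nat.cast_nonneg _
      calc ((mono (HG G b e) (fun x => col x.1) l).card : ℝ) ^ 2 ≤ (33 * a) ^ 2 :=
            pow_le_pow_left₀ (Nat.cast_nonneg _) h2 2
        _ = 1089 * a * a := by ring
        _ ≤ 1089 * (n * μ) * a := by
            apply mul_le_mul_of_nonneg_right _ h4
            linarith
    refine (sum_le_sum fun l _ => h1 l).trans ?_
    rw [← mul_sum]
    have h2 : ∑ l ∈ range q, ((univ.filter fun x : (Fin R → V × Q) × Fin M =>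
        col x.1 = l).card : ℝ) = n := by
      have h3 := Finset.card_eq_sum_card_fiberwise (f := fun x : (Fin R → V × Q) × Fin M => col x.1)
        (s := univ) (t := range q) (fun x _ => by
          simp only [coe_range, Set.mem_Iio]; exact (ix _).2)
      rw [card_univ] at h3
      rw [hnd, h3]
      push_cast
      rfl
    rw [h2]
  have hup' : (cr (HG G b e) : ℝ) ≤ ((bich (HG G b e) (fun x => col x.1)).card : ℝ) ^ 2 +
      ∑ l ∈ range q, ((mono (HG G b e) (fun x => col x.1) l).card : ℝ) ^ 2 := by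
    exact_mod_cast hup
  have h7 := pow_le_pow_left₀ (Nat.cast_nonneg _) hX 2
  calc (cr (HG G b e) : ℝ) ≤ (n * (R * (2 * (s / Fintype.card V) / b +
        2 * (η * (s / Fintype.card V))))) ^ 2 + 1089 * (n * μ) * n := by linarith
    _ = (n : ℝ) ^ 2 * ((R * (2 * (s / Fintype.card V) / b + 2 * (η * (s / Fintype.card V)))) ^ 2 +
        1089 * μ) := by ring

end gap

end Pool.Agent.H689.SX
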