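import Pool.Agent.H689.SX.Param

/-!
# The gap for the graphs on numbers
-/

set_option autoImplicit false
set_option linter.unusedSectionVars false

namespace Pool.Agent.H689.SX

open Finset Pool.Agent.NPC Pool.Agent.H243R3.PCP Pool.Agent.TH694.CR
open Pool.Agent.H801.Ecc (Regular cut)

/-- the number of the vertices -/
noncomputable def nn (c : ℕ) (δ : ℝ) (N d : ℕ) : ℕ :=
  (N * pq c) ^ pR c δ * MM N (pq c) d (pb c) (pR c δ)

/-- the threshold -/
noncomputable def tt (c : ℕ) (δ : ℝ) (N d : ℕ) : ℕ := nn c δ N d ^ 2 / pK c + 1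

/-- the graph of the reduction -/
noncomputable def RG (c : ℕ) (hc : 1 ≤ c) (δ : ℝ) {N d : ℕ} {E : List (ℕ × ℕ)}
    (hreg : Regular N E d) : SimpleGraph (Fin (nn c δ N d)) :=
  have : NeZero (pb c) := ⟨by have := pb_pos hc; omega⟩
  NG (q := pq c) (b := pb c) (R := pR c δ) hreg

theorem neighbors_NG {N q d b R : ℕ} {E : List (ℕ × ℕ)} [NeZero b] (hreg : Regular N E d)
    (v : Fin ((N * q) ^ R * MM N q d b R)) :
    ((NG (q := q) (b := b) (R := R) hreg).neighborSet v).ncard ≤ 33 := by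
  classical
  have h1 : (NG (q := q) (b := b) (R := R) hreg).neighborSet v ⊆
      (((univ : Finset (Fin 33)).image fun l => eV N q d b R (nb (rt (rotL hreg) b)
        (eP N q d b R) ((eV N q d b R).symm v) l) : Finset _) : Set _) := by
    intro w hw
    obtain ⟨-, l, hl⟩ := (hw : (HG (rotL hreg) b (eP N q d b R)).Adj _ _)
    rw [mem_coe, mem_image]
    exact ⟨l, mem_univ _, by rw [hl]; simp⟩
  refine (Set.ncard_le_ncard h1 (Finset.finite_toSet _)).trans ?_
  rw [Set.ncard_coe_finset]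
  refine card_image_le.trans ?_
  simp

section core

variable {c : ℕ} (hc : 1 ≤ c) {δ : ℝ} (hδ : 0 < δ) (hδ1 : δ ≤ 1) {N d s : ℕ}
  {E : List (ℕ × ℕ)} (hd : 1 ≤ d) (hs : 1 ≤ s) (hreg : Regular N E d) (hsN : (s : ℝ) = δ * N)

include hs hsN in
theorem N_pos : 1 ≤ N := by
  by_contra h
  have h1 : N = 0 := by omega
  rw [h1] at hsN
  have h2 : (1 : ℝ) ≤ s := by exact_mod_cast hs
  simp at hsN
  omega

include hc hδ hd hs hsN in
theorem nn_ge : 10 ^ 24 * pb c ≤ nn c δ N d := by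
  have hN := N_pos hs hsN
  have hb := pb_pos hc
  have hq := pq_pos hc
  have hR := pR_pos hc hδ
  have h1 : 10 ^ 24 * pb c ≤ pq c := by
    unfold pq pK
    calc 10 ^ 24 * pb c ≤ 4356 * 10 ^ 22 * pb c * 1 := by
          rw [mul_one]; exact Nat.mul_le_mul_right _ (by norm_num)
      _ ≤ 4356 * 10 ^ 22 * pb c * c := Nat.mul_le_mul_left _ hc
      _ = 4356 * (10 ^ 22 * pb c * c) := by ring
  have h2 : pq c ≤ N * pq c := Nat.le_mul_of_pos_left _ hN
  have h3 : N * pq c ≤ (N * pq c) ^ pR c δ := Nat.le_self_pow (by omega) _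
  have h4 : 1 ≤ MM N (pq c) d (pb c) (pR c δ) := by
    unfold MM
    refine Nat.mul_pos (Nat.pow_pos ?_) Fintype.card_pos
    exact Nat.mul_pos hb (Nat.mul_pos (Nat.mul_pos hN hq) hd)
  unfold nn
  calc 10 ^ 24 * pb c ≤ (N * pq c) ^ pR c δ := by omega
    _ ≤ (N * pq c) ^ pR c δ * MM N (pq c) d (pb c) (pR c δ) := Nat.le_mul_of_pos_right _ h4

theorem card_nn : Fintype.card ((Fin (pR c δ) → Fin N × Fin (pq c)) ×
    Fin (MM N (pq c) d (pb c) (pR c δ))) = nn c δ N d := by
  rw [Fintype.card_congr (eV N (pq c) d (pb c) (pR c δ)), Fintype.card_fin]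
  rfl

theorem cr_RG [NeZero (pb c)] : cr (RG c hc δ hreg) =
    cr (HG (rotL hreg) (pb c) (eP N (pq c) d (pb c) (pR c δ))) :=
  cr_comap_equiv _ _

include hc hδ hδ1 hd hs hreg hsN in
/-- YES instances have small crossing number. -/
theorem yes_RG (S : Finset ℕ) (hS : S ⊆ range N) (hScard : S.card = s)
    (hcut : (cut E S : ℝ) ≤ pe c * (d * s)) : cr (RG c hc δ hreg) ≤ tt c δ N d := by
  classical
  have hN := N_pos hs hsN
  have hNR : (0 : ℝ) < N := by exact_mod_cast hN
  have hb := pb_pos hc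
  have hbR : (0 : ℝ) < pb c := by exact_mod_cast hb
  have hq := pq_pos hc
  have hqR : (0 : ℝ) < pq c := by exact_mod_cast hq
  have hKR : (0 : ℝ) < pK c := by exact_mod_cast pK_pos hc
  have hcR : (0 : ℝ) < c := by exact_mod_cast hc
  have : NeZero (pb c) := ⟨by omega⟩
  have : NeZero (pq c) := ⟨by omega⟩
  have : NeZero N := ⟨by omega⟩
  have : NeZero d := ⟨by omega⟩
  -- the set of vertices
  obtain ⟨S', hS'⟩ : ∃ S' : Finset (Fin N), vals S' = S := by
    refine ⟨univ.filter fun v => (v : ℕ) ∈ S, ?_⟩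
    ext x
    constructor
    · intro hx
      unfold vals at hx
      rw [mem_map] at hx
      obtain ⟨w, hw, rfl⟩ := hx
      exact (mem_filter.1 hw).2
    · intro hx
      have hxN := mem_range.1 (hS hx)
      unfold vals
      rw [mem_map]
      exact ⟨⟨x, hxN⟩, mem_filter.2 ⟨mem_univ _, hx⟩, rfl⟩
  have hcard : (S'.card : ℝ) = s := by
    rw [← card_vals, hS', hScard]
  have hout : (out (rotL hreg) S' : ℝ) ≤ pe c * (Fintype.card (Fin d) * s) := by
    rw [out_rotL, hS', Fintype.card_fin]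
    exact hcut
  have h := yes_case (Q := Fin (pq c)) (rotL hreg) (pb c) (eP N (pq c) d (pb c) (pR c δ)) S' s
    (pe c) hcard hout
  rw [← cr_RG hc, card_nn, Fintype.card_fin, Fintype.card_fin] at h
  have hsd : (s : ℝ) / N = δ := by rw [hsN]; field_simp
  rw [hsd] at h
  have hRδ0 := pR_ge (c := c) hδ
  have hRδ := pR_le (c := c) hδ hδ1
  -- the first term
  have h1 : (pR c δ * (2 * δ / pb c + 2 * (pe c * δ))) ^ 2 ≤ 1 / (4 * pK c) := by
    have e1 : (pR c δ * (2 * δ / pb c + 2 * (pe c * δ)) : ℝ) =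
        (pR c δ * δ) * (2 * (1 / pb c + pe c)) := by ring
    have e2 : (pR c δ * δ) * (2 * (1 / pb c + pe c)) ≤ (pk c + 1) * (4 / pb c) := by
      apply mul_le_mul hRδ _ _ (by positivity)
      · have := pe_le hc
        have e4 : (4 : ℝ) / pb c = 2 * (1 / pb c + 1 / pb c) := by ring
        rw [e4]
        linarith
      · have := pe_pos hc
        positivity
    have e3 : 0 ≤ (pR c δ * δ) * (2 * (1 / pb c + pe c)) := by
      have := pe_pos hc
      positivity
    rw [e1]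
    refine (pow_le_pow_left₀ e3 e2 2).trans (le_of_eq ?_)
    have e5 : (pb c : ℝ) = 64 * 10 ^ 22 * c * (pk c + 1) ^ 2 := by
      unfold pb; push_cast; ring
    have e6 : (pK c : ℝ) = 10 ^ 22 * pb c * c := by
      unfold pK; push_cast; ring
    rw [e6]
    have e7 : (0 : ℝ) < pk c + 1 := by
      have : (0 : ℝ) ≤ pk c := Nat.cast_nonneg _
      linarith
    rw [mul_pow, div_pow, mul_div_assoc', div_eq_div_iff (by positivity) (by positivity)]
    have e8 : ((pb c : ℝ)) ^ 2 = pb c * (64 * 10 ^ 22 * c * (pk c + 1) ^ 2) := by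
      rw [sq]; nth_rewrite 2 [e5]; rfl
    rw [e8]
    ring
  -- the second term
  have h2 : 1089 * (1 / (pq c : ℝ)) = 1 / (4 * pK c) := by
    have e1 : (pq c : ℝ) = 4356 * pK c := by unfold pq; push_cast; ring
    rw [e1]
    field_simp
    norm_num
  -- the third term
  have h3 : (1 - δ) ^ pR c δ ≤ 1 / (pq c : ℝ) := by
    have e1 : 1 - δ ≤ Real.exp (-δ) := by
      have := Real.add_one_le_exp (-δ)
      linarith
    have e2 : (1 - δ) ^ pR c δ ≤ Real.exp (-δ) ^ pR c δ :=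
      pow_le_pow_left₀ (by linarith) e1 _
    have e3 : Real.exp (-δ) ^ pR c δ ≤ Real.exp (-(pk c : ℝ)) := by
      rw [← Real.exp_nat_mul]
      apply Real.exp_le_exp.2
      linarith
    have e4 : ((pq c : ℕ) : ℝ) ≤ Real.exp (pk c : ℝ) := by
      have e5 : ((pq c : ℕ) : ℝ) ≤ ((2 ^ pk c : ℕ) : ℝ) := by exact_mod_cast pq_le hc
      refine e5.trans ?_
      push_cast
      have e6 : (2 : ℝ) ≤ Real.exp 1 := by
        have := Real.add_one_le_exp (1 : ℝ)
        linarith
      calc (2 : ℝ) ^ pk c ≤ Real.exp 1 ^ pk c := pow_le_pow_left₀ (by norm_num) e6 _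
        _ = Real.exp (pk c : ℝ) := by rw [← Real.exp_nat_mul, mul_one]
    refine (e2.trans e3).trans ?_
    rw [Real.exp_neg, ← one_div]
    exact one_div_le_one_div_of_le hqR e4
  have h4 : (pR c δ * (2 * δ / pb c + 2 * (pe c * δ))) ^ 2 +
      1089 * (1 / (pq c : ℝ) + (1 - δ) ^ pR c δ) ≤ 1 / pK c := by
    have e1 : (1 : ℝ) / pK c = 4 * (1 / (4 * pK c)) := by field_simp
    have e2 : (0 : ℝ) < 1 / (4 * pK c) := by positivity
    rw [e1]
    linarith
  have h5 : (cr (RG c hc δ hreg) : ℝ) ≤ (nn c δ N d : ℝ) ^ 2 * (1 / pK c) :=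
    h.trans (mul_le_mul_of_nonneg_left h4 (by positivity))
  have h6 : (nn c δ N d : ℝ) ^ 2 * (1 / pK c) < tt c δ N d := by
    unfold tt
    rw [mul_one_div, div_lt_iff₀ hKR]
    have h7 : nn c δ N d ^ 2 < (nn c δ N d ^ 2 / pK c + 1) * pK c := by
      have := Nat.lt_mul_div_succ (nn c δ N d ^ 2) (pK_pos hc)
      rw [mul_comm]
      exact this
    exact_mod_cast h7
  have h8 : (cr (RG c hc δ hreg) : ℝ) < tt c δ N d := lt_of_le_of_lt h5 h6
  exact_mod_cast h8.le

include hc hδ hδ1 hd hreg hsN in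
/-- NO instances have large crossing number. -/
theorem no_RG (hs : 2 ≤ s) (hNO : ∀ S ⊆ range N, S.card = s →
    (1 - pe c) * (d * s) ≤ (cut E S : ℝ)) : c * tt c δ N d < cr (RG c hc δ hreg) := by
  classical
  have hN := N_pos (by omega) hsN
  have hNR : (0 : ℝ) < N := by exact_mod_cast hN
  have hb := pb_pos hc
  have hbR : (1 : ℝ) ≤ pb c := by exact_mod_cast hb
  have hq := pq_pos hc
  have hqR : (0 : ℝ) < pq c := by exact_mod_cast hq
  have hKR : (0 : ℝ) < pK c := by exact_mod_cast pK_pos hc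
  have hcR : (1 : ℝ) ≤ c := by exact_mod_cast hc
  have hsR : (0 : ℝ) < s := by
    have : 0 < s := by omega
    exact_mod_cast this
  have : NeZero (pb c) := ⟨by omega⟩
  have : NeZero (pq c) := ⟨by omega⟩
  have : NeZero N := ⟨by omega⟩
  have : NeZero d := ⟨by omega⟩
  have hsN' : s ≤ N := by
    have : (s : ℝ) ≤ N := by rw [hsN]; nlinarith
    exact_mod_cast this
  have hsd : (s : ℝ) / N = δ := by rw [hsN]; field_simp
  have hpe := pe_pos hc
  set X := ⌊pe c * (d * s)⌋₊ with hX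
  have hXle : (X : ℝ) ≤ pe c * (d * s) := Nat.floor_le (by positivity)
  have hinn : ∀ S : Finset (Fin N), S.card = s → inn (rotL hreg) S ≤ X := by
    intro S hS
    apply Nat.le_floor
    have h1 := inn_out (rotL hreg) S
    rw [Fintype.card_fin, hS] at h1
    have h2 := hNO (vals S) (vals_sub S) (by rw [card_vals, hS])
    rw [← out_rotL hreg] at h2
    have h3 : (inn (rotL hreg) S : ℝ) + out (rotL hreg) S = d * s := by exact_mod_cast h1
    linarith
  have hsizes := inn_sizes (rotL hreg) s X (pm c) hs (by rw [Fintype.card_fin]; exact hsN') hinn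
  have hRδ0 := pR_ge (c := c) hδ
  have hRδ := pR_le (c := c) hδ hδ1
  have hk1 : (1 : ℝ) ≤ pk c := by exact_mod_cast pk_pos hc
  have hnn := nn_ge hc hδ hd (by omega) hsN
  have h := no_case (Q := Fin (pq c)) (rotL hreg) (pb c) (eP N (pq c) d (pb c) (pR c δ)) s
    (pm c) (pe c * (3 * pm c + 1) ^ 2) (by
      intro T hT
      have h1 : T.card ≤ pm c * s := by exact_mod_cast hT
      have h2 := hsizes T h1
      have h3 : (inn (rotL hreg) T : ℝ) ≤ (3 * pm c + 1) ^ 2 * X := by exact_mod_cast h2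
      rw [Fintype.card_fin]
      calc (inn (rotL hreg) T : ℝ) ≤ (3 * pm c + 1) ^ 2 * X := h3
        _ ≤ (3 * pm c + 1) ^ 2 * (pe c * (d * s)) :=
            mul_le_mul_of_nonneg_left hXle (by positivity)
        _ = pe c * (3 * pm c + 1) ^ 2 * (d * s) := by ring) (by
      rw [Fintype.card_fin, Fintype.card_fin]
      have h1 : (pm c : ℝ) = 33792 * pb c * pq c := by unfold pm; push_cast; ring
      have h2 : (pm c : ℝ) * s * pR c δ = 33792 * pb c * pq c * N * (pR c δ * δ) := by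
        rw [h1, hsN]; ring
      rw [h2]
      have h3 : (1 : ℝ) ≤ pR c δ * δ := by linarith
      have h4 : (0 : ℝ) ≤ 33792 * pb c * pq c * N := by positivity
      nlinarith) (by
      rw [Fintype.card_fin, mul_div_assoc, hsd]
      have h1 : (pR c δ : ℝ) * (32 * (pe c * (3 * pm c + 1) ^ 2) * δ) =
          (pR c δ * δ) * (32 * (pe c * (3 * pm c + 1) ^ 2)) := by ring
      rw [h1]
      have h2 : (pR c δ * δ) * (32 * (pe c * (3 * pm c + 1) ^ 2)) ≤
          (pk c + 1) * (32 * (pe c * (3 * pm c + 1) ^ 2)) :=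
        mul_le_mul_of_nonneg_right hRδ (by positivity)
      refine h2.trans ?_
      have h3 : (pk c + 1) * (32 * (pe c * (3 * (pm c : ℝ) + 1) ^ 2)) = 1 / 2 ^ 23 * (1 / pb c) := by
        unfold pe
        have h4 : (0 : ℝ) < pk c + 1 := by linarith
        have h5 : (0 : ℝ) < 3 * pm c + 1 := by
          have : (0 : ℝ) ≤ pm c := Nat.cast_nonneg _
          linarith
        field_simp
        norm_num
      rw [h3]
      have h4 : (1 : ℝ) / pb c ≤ 1 := by
        rw [div_le_one (by linarith)]; exact hbR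
      nlinarith) (by
      rw [card_nn]
      omega)
  rw [← cr_RG hc, card_nn] at h
  by_contra hcon
  push Not at hcon
  set n := nn c δ N d with hn
  set X' := cr (RG c hc δ hreg) with hX'
  have hnR : (10 : ℝ) ^ 24 * pb c ≤ n := by exact_mod_cast hnn
  have h1 : (X' : ℝ) ≤ c * (n ^ 2 / pK c + 1) := by
    have h2 : (X' : ℝ) ≤ c * ((n ^ 2 / pK c + 1 : ℕ) : ℝ) := by exact_mod_cast hcon
    refine h2.trans (mul_le_mul_of_nonneg_left ?_ (by linarith))
    push_cast
    have h3 : ((n ^ 2 / pK c : ℕ) : ℝ) ≤ ((n ^ 2 : ℕ) : ℝ) / pK c := Nat.cast_div_le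
    push_cast at h3
    linarith
  have e6 : (pK c : ℝ) = 10 ^ 22 * pb c * c := by unfold pK; push_cast; ring
  have h2 : (c : ℝ) * (n ^ 2 / pK c + 1) = n ^ 2 / (10 ^ 22 * pb c) + c := by
    rw [e6]
    field_simp
  rw [h2] at h1
  -- the constants
  have hcb : (c : ℝ) ≤ pb c := by
    have h3 : c ≤ pb c := by
      unfold pb
      have h4 : 1 ≤ (pk c + 1) ^ 2 := Nat.one_le_pow _ _ (by omega)
      calc c = 1 * c * 1 := by ring
        _ ≤ 64 * 10 ^ 22 * c * (pk c + 1) ^ 2 :=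
          Nat.mul_le_mul (Nat.mul_le_mul_right _ (by norm_num)) h4
    exact_mod_cast h3
  have hn1 : (1 : ℝ) ≤ n := by nlinarith
  have h3 : 3 * 10 ^ 20 * (pb c : ℝ) * (4 * (n ^ 2 / (10 ^ 22 * pb c))) = 12 / 100 * (n : ℝ) ^ 2 := by
    field_simp
    norm_num
  have h4 : 3 * 10 ^ 20 * (pb c : ℝ) * (1089 * n) ≤ 3267 / 10000 * (n : ℝ) ^ 2 := by
    nlinarith
  have h5 : 3 * 10 ^ 20 * (pb c : ℝ) * (4 * c + 1) ≤ 5 / 1000 * (n : ℝ) ^ 2 := by
    have h6 : (4 : ℝ) * c + 1 ≤ 5 * n := by nlinarith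
    have h7 : 3 * 10 ^ 20 * (pb c : ℝ) * (4 * c + 1) ≤ 3 * 10 ^ 20 * (pb c : ℝ) * (5 * n) :=
      mul_le_mul_of_nonneg_left h6 (by positivity)
    nlinarith
  have h6 : 3 * 10 ^ 20 * (pb c : ℝ) * (1089 * n + 4 * X' + 1) ≤
      3 * 10 ^ 20 * (pb c : ℝ) * (1089 * n + 4 * (n ^ 2 / (10 ^ 22 * pb c) + c) + 1) := by
    apply mul_le_mul_of_nonneg_left _ (by positivity)
    linarith
  have h7 : (0 : ℝ) < (n : ℝ) ^ 2 := by positivity
  nlinarith

end core

end Pool.Agent.H689.SX
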