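import Pool.Agent.H689.SX.Lower
import Pool.Graph.R_seed8.Helper770.VanKampen
import Pool.Graph.R_seed8.TH694.CR.Iso

/-!
# The complete graph on five vertices is not planar
-/

set_option autoImplicit false

namespace Pool.Agent.H689.SX

open Pool.Agent.Helper770.Crossing Pool.Agent.TH694.CR

theorem arc_cases {V : Type*} {G : SimpleGraph V} (D : Drawing G) {a b : V} (h : G.Adj a b)
    {t : ℝ} (ht : t ∈ Set.Icc (0 : ℝ) 1) :
    t ∈ Set.Ioo (0 : ℝ) 1 ∨ D.arc s(a, b) t = D.pos a ∨ D.arc s(a, b) t = D.pos b := by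
  rcases eq_or_lt_of_le ht.1 with h0 | h0
  · right
    rw [← h0]
    rcases D.arc_ends a b h with h1 | h1
    · exact Or.inl h1.1
    · exact Or.inr h1.1
  · rcases eq_or_lt_of_le ht.2 with h2 | h2
    · right
      rw [h2]
      rcases D.arc_ends a b h with h1 | h1
      · exact Or.inr h1.2
      · exact Or.inl h1.2
    · exact Or.inl ⟨h0, h2⟩

theorem arc_mem_ends {V : Type*} {G : SimpleGraph V} (D : Drawing G) {a b : V} (h : G.Adj a b) :
    D.pos a ∈ D.arc s(a, b) '' Set.Icc (0 : ℝ) 1 ∧ D.pos b ∈ D.arc s(a, b) '' Set.Icc (0 : ℝ) 1 := by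
  rcases D.arc_ends a b h with h1 | h1
  · exact ⟨⟨0, by simp, h1.1⟩, ⟨1, by simp, h1.2⟩⟩
  · exact ⟨⟨1, by simp, h1.2⟩, ⟨0, by simp, h1.1⟩⟩

theorem cr_k5 : 0 < cr (⊤ : SimpleGraph (Fin 5)) := by
  rw [Nat.pos_iff_ne_zero]
  intro h0
  obtain ⟨D, -, hfin, hcard⟩ := cr_attained (⊤ : SimpleGraph (Fin 5))
  rw [h0, Set.ncard_eq_zero hfin] at hcard
  have hadj : ∀ a b : Fin 5, a ≠ b → (⊤ : SimpleGraph (Fin 5)).Adj a b := fun a b h => h
  refine Pool.Agent.Helper770.VanKampen.k5_joined D.pos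
    (fun a b => D.arc s(a, b) '' Set.Icc (0 : ℝ) 1) ?_ ?_
  · intro a b hab
    have h1 := hadj a b hab.ne
    have h2 : IsPathConnected (Set.Icc (0 : ℝ) 1) :=
      (convex_Icc 0 1).isPathConnected ⟨0, by simp⟩
    have h3 := h2.image' (D.arc_continuousOn s(a, b) ((SimpleGraph.mem_edgeSet _).2 h1))
    exact h3.joinedIn _ (arc_mem_ends D h1).1 _ (arc_mem_ends D h1).2
  · intro a b c d hab hcd hac had hbc hbd
    have h1 := hadj a b hab.ne
    have h2 := hadj c d hcd.ne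
    have e1 : s(a, b) ∈ (⊤ : SimpleGraph (Fin 5)).edgeSet := (SimpleGraph.mem_edgeSet _).2 h1
    have e2 : s(c, d) ∈ (⊤ : SimpleGraph (Fin 5)).edgeSet := (SimpleGraph.mem_edgeSet _).2 h2
    have hpos : ∀ x y : Fin 5, x ≠ y → D.pos x ≠ D.pos y := fun x y h h' =>
      h (D.pos_injective h')
    rw [Set.disjoint_left]
    rintro z ⟨t, ht, rfl⟩ ⟨t', ht', hz⟩
    rcases arc_cases D h1 ht with h3 | h3 | h3
    · rcases arc_cases D h2 ht' with h4 | h4 | h4
      · have h5 : (s(s(a, b), s(c, d)), D.arc s(a, b) t) ∈ D.crossings := by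
          refine ⟨s(a, b), e1, s(c, d), e2, ?_, rfl, ⟨t, h3, rfl⟩, ⟨t', h4, hz⟩⟩
          intro h
          rw [Sym2.eq_iff] at h
          rcases h with ⟨h, -⟩ | ⟨h, -⟩
          · exact hac h
          · exact had h
        rw [hcard] at h5
        exact h5
      · exact D.arc_avoids s(a, b) e1 t h3 c (by rw [← hz, h4])
      · exact D.arc_avoids s(a, b) e1 t h3 d (by rw [← hz, h4])
    · rcases arc_cases D h2 ht' with h4 | h4 | h4
      · exact D.arc_avoids s(c, d) e2 t' h4 a (by rw [hz, h3])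
      · exact hpos a c hac (by rw [← h3, ← hz, h4])
      · exact hpos a d had (by rw [← h3, ← hz, h4])
    · rcases arc_cases D h2 ht' with h4 | h4 | h4
      · exact D.arc_avoids s(c, d) e2 t' h4 b (by rw [hz, h3])
      · exact hpos b c hbc (by rw [← h3, ← hz, h4])
      · exact hpos b d hbd (by rw [← h3, ← hz, h4])

end Pool.Agent.H689.SX
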