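import Pool.Graph.R_seed8.Helper770.EdgeSep
import Pool.Graph.R_seed8.TH694.CR.Iso

/-!
# Balanced cuts and the crossing number
-/

set_option autoImplicit false
set_option linter.unusedSectionVars false

namespace Pool.Agent.H689.SX

open Finset Pool.Agent.Helper770.Crossing Pool.Agent.Helper770.EdgeSep Pool.Agent.Helper770.Sep
open Pool.Agent.TH694.CR

variable {W : Type} [Fintype W]

/-- the edges that leave a set of vertices -/
noncomputable def bd (G : SimpleGraph W) (T : Finset W) : Finset (Sym2 W) := by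
  classical exact univ.filter fun e => e ∈ G.edgeSet ∧ ∃ x y, e = s(x, y) ∧ x ∈ T ∧ y ∉ T

theorem mem_bd {G : SimpleGraph W} {T : Finset W} {e : Sym2 W} :
    e ∈ bd G T ↔ e ∈ G.edgeSet ∧ ∃ x y, e = s(x, y) ∧ x ∈ T ∧ y ∉ T := by
  unfold bd; simp

theorem dg_le (G : SimpleGraph W) (v : W) (S : Finset (Sym2 W))
    (h : ∀ z ∈ G.edgeSet, v ∈ z → z ∈ S) : dg G v ≤ S.card := by
  classical
  unfold dg
  refine card_le_card fun z hz => ?_
  simp only [mem_filter, mem_edges] at hz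
  exact h z hz.1 hz.2

/-- closed sets of vertices -/
def Clo (H : SimpleGraph W) (T : Finset W) : Prop := ∀ x ∈ T, ∀ y, H.Adj x y → y ∈ T

/-- A union of components of intermediate size. -/
theorem exists_balanced (H : SimpleGraph W) (hH : ∀ T : Finset W, Conn H T → 2 ≤ T.card →
    2 * T.card ≤ Fintype.card W) (hn : 2 ≤ Fintype.card W) :
    ∃ T : Finset W, Clo H T ∧ Fintype.card W ≤ 4 * T.card ∧ 4 * T.card ≤ 3 * Fintype.card W := by
  classical
  let P : ℕ → Prop := fun k => ∃ T : Finset W, Clo H T ∧ Fintype.card W ≤ 4 * T.card ∧ T.card = k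
  have hex : ∃ k, P k := ⟨Fintype.card W, univ, fun _ _ y _ => mem_univ y, by
    rw [card_univ]; omega, card_univ⟩
  obtain ⟨T, hT1, hT2, hT3⟩ := Nat.find_spec hex
  refine ⟨T, hT1, hT2, ?_⟩
  by_contra hcon
  push Not at hcon
  -- a minimal nonempty closed subset
  let P' : ℕ → Prop := fun k => ∃ C : Finset W, C ⊆ T ∧ C.Nonempty ∧ Clo H C ∧ C.card = k
  have hTne : T.Nonempty := by
    rw [← card_pos]; omega
  have hex' : ∃ k, P' k := ⟨T.card, T, Subset.refl _, hTne, hT1, rfl⟩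
  obtain ⟨C, hC1, hC2, hC3, hC4⟩ := Nat.find_spec hex'
  have hconn : Conn H C := by
    refine ⟨hC2, fun A hA hne hcl => ?_⟩
    have hAcl : Clo H A := fun x hx y hxy => hcl x hx y (hC3 x (hA hx) y hxy) hxy
    by_contra hneq
    have hlt : A.card < C.card := card_lt_card (Finset.ssubset_iff_subset_ne.2 ⟨hA, hneq⟩)
    rw [hC4] at hlt
    exact Nat.find_min hex' hlt ⟨A, hA.trans hC1, hne, hAcl, rfl⟩
  have hCs : 2 * C.card ≤ Fintype.card W := by
    by_cases h2 : 2 ≤ C.card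
    · exact hH C hconn h2
    · omega
  have hCpos : 0 < C.card := card_pos.2 hC2
  have hcard : (T \ C).card = T.card - C.card := card_sdiff_of_subset hC1
  have hclo : Clo H (T \ C) := by
    intro x hx y hxy
    rw [mem_sdiff] at hx ⊢
    refine ⟨hT1 x hx.1 y hxy, fun hy => hx.2 (hC3 y hy x hxy.symm)⟩
  have hTle : C.card ≤ T.card := card_le_card hC1
  have hlt : (T \ C).card < Nat.find hex := by
    rw [← hT3, hcard]; omega
  exact Nat.find_min hex hlt ⟨T \ C, hclo, by rw [hcard]; omega, rfl⟩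

/-- **The crossing number is large if all balanced cuts are large.** -/
theorem cr_lower (G : SimpleGraph W) (d : ℕ) (hd : ∀ v, dg G v ≤ d)
    (hn : 2 ≤ Fintype.card W) (B : ℝ) (hB0 : 0 ≤ B)
    (hB : ∀ T : Finset W, Fintype.card W ≤ 4 * T.card → 4 * T.card ≤ 3 * Fintype.card W →
      B ≤ ((bd G T).card : ℝ)) :
    B ^ 2 ≤ 500 * ((d : ℝ) ^ 2 * Fintype.card W + 4 * cr G + 1) := by
  classical
  obtain ⟨D, -, hfin, hcr⟩ := cr_attained G
  set X : ℕ := ∑ v, dg G v ^ 2 + 4 * D.crossings.ncard + 1 with hX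
  set R : ℕ := Nat.sqrt (5 * X) + 1 with hR
  have hR1 : 5 * X ≤ R ^ 2 := by
    have h := Nat.lt_succ_sqrt (5 * X)
    rw [hR, sq]
    exact h.le
  have hR2 : R ^ 2 ≤ 20 * X := by
    have h := Nat.sqrt_le (5 * X)
    have hs1 : 1 ≤ Nat.sqrt (5 * X) := by
      apply Nat.le_sqrt.2
      omega
    rw [hR]
    nlinarith
  obtain ⟨F, hF1, hF2, hF3⟩ := edge_separator D hfin univ R (by omega) (by omega)
  have hcomp : ∀ T : Finset W, Conn (G.deleteEdges (F : Set (Sym2 W))) T → 2 ≤ T.card →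
      2 * T.card ≤ Fintype.card W := by
    intro T h1 h2
    have := hF3 T h1 h2
    rw [card_univ] at this
    convert this using 3
    ext x; simp
  obtain ⟨T, hT1, hT2, hT3⟩ := exists_balanced _ hcomp hn
  have hsub : bd G T ⊆ F := by
    intro e he
    obtain ⟨h1, x, y, rfl, hx, hy⟩ := mem_bd.1 he
    by_contra hcon
    apply hy
    refine hT1 x hx y ?_
    rw [SimpleGraph.deleteEdges_adj]
    exact ⟨h1, by simpa using hcon⟩
  have h1 : B ≤ 5 * R := by
    refine (hB T hT2 hT3).trans ?_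
    have : (bd G T).card ≤ 5 * R := (card_le_card hsub).trans hF2
    exact_mod_cast this
  have h2 : B ^ 2 ≤ (5 * (R : ℝ)) ^ 2 := pow_le_pow_left₀ hB0 h1 2
  have h3 : ((R : ℝ)) ^ 2 ≤ 20 * X := by exact_mod_cast hR2
  have h4 : (∑ v, dg G v ^ 2 : ℕ) ≤ d ^ 2 * Fintype.card W := by
    calc (∑ v, dg G v ^ 2 : ℕ) ≤ ∑ _v : W, d ^ 2 :=
          sum_le_sum fun v _ => Nat.pow_le_pow_left (hd v) 2
      _ = d ^ 2 * Fintype.card W := by rw [sum_const, card_univ, smul_eq_mul, mul_comm]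
  have h5 : (X : ℝ) ≤ (d : ℝ) ^ 2 * Fintype.card W + 4 * cr G + 1 := by
    have : X ≤ d ^ 2 * Fintype.card W + 4 * cr G + 1 := by rw [hX, hcr]; omega
    exact_mod_cast this
  calc B ^ 2 ≤ (5 * (R : ℝ)) ^ 2 := h2
    _ = 25 * (R : ℝ) ^ 2 := by ring
    _ ≤ 25 * (20 * X) := by linarith
    _ = 500 * X := by ring
    _ ≤ 500 * ((d : ℝ) ^ 2 * Fintype.card W + 4 * cr G + 1) := by linarith

end Pool.Agent.H689.SX
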