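import Pool.Agent.H689.SX.Red
import Pool.Graph.R_seed8.H671R2.PolyAuto
import Pool.Graph.R_pool_sql_team_seeded_620a6dc7.H801.Ecc.Main

/-!
# Hardness of approximation of the crossing number of graphs of bounded degree
-/

set_option autoImplicit false
set_option linter.unusedSectionVars false

namespace Pool.Agent.H689.SX

open Pool.Agent.NPC Pool.Agent.NPC.DP Pool.Agent.NPC.H604 Pool.Agent.H243R3.PCP
open Pool.Agent.TH694.CR
open Pool.Agent.H801.Ecc (Regular cut poly_app)

theorem exists_nat_c (c : ℝ) : ∃ c' : ℕ, 1 ≤ c' ∧ c ≤ c' := by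
  obtain ⟨n, hn⟩ := exists_nat_ge c
  exact ⟨n + 1, by omega, hn.trans (by push_cast; linarith)⟩

/-- **The reduction.** -/
theorem karp (c : ℝ) : ∃ η : ℝ, 0 < η ∧ ∀ δ : ℝ, 0 < δ → ∃ f : List Bool → List Bool, PolyTime f ∧
    ∀ (N : ℕ) (E : List (ℕ × ℕ)) (d s : ℕ), 1 ≤ d → 1 ≤ s → Regular N E d → (s : ℝ) = δ * N →
      ∃ (n t : ℕ) (G : SimpleGraph (Fin n)), f (bits (N, E, s)) = bits (adjMat G, t) ∧
        (∀ v, (G.neighborSet v).ncard ≤ 33) ∧ (YesI η N E d s → cr G ≤ t) ∧
        (NoI η N E d s → c * t < cr G) := by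
  obtain ⟨c', hc', hcc⟩ := exists_nat_c c
  refine ⟨pe c', pe_pos hc', fun δ hδ => ?_⟩
  refine ⟨fun x => bits (redF c' δ ((unbits GI x).getD (0, [], 0))), ?_, ?_⟩
  · exact polyTime_bits ((poly_redF hc' hδ).comp (Poly.optGetD poly_unbits (NPC.Poly.const _)))
  · intro N E d s hd hs hreg hsN
    obtain ⟨n, t, G, h1, h2, h3, h4⟩ := redF_spec hc' hδ hd hs hreg hsN
    refine ⟨n, t, G, ?_, h2, h3, fun h => ?_⟩
    · simp only
      rw [unbits_bits, Option.getD_some, h1]
    · have h5 : ((c' * t : ℕ) : ℝ) < cr G := by exact_mod_cast h4 h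
      push_cast at h5
      exact lt_of_le_of_lt (mul_le_mul_of_nonneg_right hcc (Nat.cast_nonneg _)) h5

/-- The test of an approximation algorithm. -/
noncomputable def tst (A : List Bool → List Bool) (c : ℕ) (δ : ℝ) (g : GI) : Bool :=
  decide ((unbits ℕ (A (bits (redF c δ g).1))).getD 0 ≤ c * (redF c δ g).2)

theorem poly_tst {A : List Bool → List Bool} (hA : PolyTime A) {c : ℕ} (hc : 1 ≤ c) {δ : ℝ}
    (hδ : 0 < δ) : Poly (tst A c δ) := by
  have h := poly_redF hc hδ
  exact Poly.decide_le (Poly.optGetD (poly_unbits.comp (poly_app hA (Poly.fst h)))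
    (NPC.Poly.const 0)) (Poly.mul (NPC.Poly.const c) (Poly.snd h))

theorem inPoly_of_neg {η δ : ℝ} (hδ : δ ≤ 0) : InPoly η δ := by
  refine ⟨fun _ => [true], polyTime_of_poly (NPC.Poly.const true), ?_⟩
  intro N E d s _ hs _ hsN
  exfalso
  have h1 : (1 : ℝ) ≤ s := by exact_mod_cast hs
  have h2 : (0 : ℝ) ≤ N := Nat.cast_nonneg _
  nlinarith

/-- A good approximation algorithm solves gap small set expansion. -/
theorem sse_of_approximates (c : ℝ) {A : List Bool → List Bool} (hA : PolyTime A)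
    (happ : Approximates 33 c A) : ∃ η : ℝ, 0 < η ∧ ∀ δ : ℝ, InPoly η δ := by
  obtain ⟨c', hc', hcc⟩ := exists_nat_c c
  refine ⟨pe c', pe_pos hc', fun δ => ?_⟩
  rcases le_or_gt δ 0 with hδ | hδ
  · exact inPoly_of_neg hδ
  refine ⟨fun x => [tst A c' δ ((unbits GI x).getD (0, [], 0))], ?_, ?_⟩
  · exact polyTime_of_poly ((poly_tst hA hc' hδ).comp (Poly.optGetD poly_unbits
      (NPC.Poly.const _)))
  · intro N E d s hd hs hreg hsN
    obtain ⟨n, t, G, h1, h2, h3, h4⟩ := redF_spec hc' hδ hd hs hreg hsN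
    obtain ⟨k, hk, hk1, hk2⟩ := happ n G h2
    have e1 : tst A c' δ (N, E, s) = decide (k ≤ c' * t) := by
      unfold tst
      rw [h1, hk, unbits_bits]
      rfl
    simp only [unbits_bits, Option.getD_some, e1, List.cons.injEq, and_true, decide_eq_true_eq,
      decide_eq_false_iff_not]
    constructor
    · intro hyes
      have h5 := h3 hyes
      have h6 : (k : ℝ) ≤ ((c' * t : ℕ) : ℝ) := by
        calc (k : ℝ) ≤ c * cr G := hk2
          _ ≤ c' * cr G := mul_le_mul_of_nonneg_right hcc (Nat.cast_nonneg _)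
          _ ≤ c' * t := mul_le_mul_of_nonneg_left (by exact_mod_cast h5) (Nat.cast_nonneg _)
          _ = ((c' * t : ℕ) : ℝ) := by push_cast; ring
      exact_mod_cast h6
    · intro hno hle
      have h5 := h4 hno
      omega

/-- No approximation algorithm under the small set expansion hypothesis. -/
theorem no_algorithm (h : SSEHypPoly) (c : ℝ) :
    ¬ ∃ A : List Bool → List Bool, PolyTime A ∧ Approximates 33 c A := by
  rintro ⟨A, hA, happ⟩
  obtain ⟨η, hη, hall⟩ := sse_of_approximates c hA happ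
  obtain ⟨δ, -, hn⟩ := h η hη
  exact hn (hall δ)

/-- `NP`-hardness under the `NP`-hardness form of the small set expansion hypothesis. -/
theorem np_hard (h : SSEHyp) (c : ℝ)
    (L : Set (List Bool)) (hL : InNP L) :
    ∃ (n t : List Bool → ℕ) (G : ∀ x, SimpleGraph (Fin (n x))),
      PolyTime (fun x => bits (adjMat (G x), t x)) ∧ (∀ x v, ((G x).neighborSet v).ncard ≤ 33) ∧
      (∀ x ∈ L, cr (G x) ≤ t x) ∧ ∀ x ∉ L, c * t x < cr (G x) := by
  obtain ⟨η, hη, hk⟩ := karp c
  obtain ⟨δ, hδ, hhard⟩ := h η hη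
  obtain ⟨f, hf, hspec⟩ := hk δ hδ
  obtain ⟨N, d, s, E, hPT, hx⟩ := hhard L hL
  have hgap := fun x => hspec (N x) (E x) (d x) (s x) (hx x).1 (hx x).2.1 (hx x).2.2.1
    (hx x).2.2.2.1
  choose n t G h1 h2 h3 h4 using hgap
  refine ⟨n, t, G, ?_, h2, ?_, ?_⟩
  · have h5 := H642R2.TMSim.polyTime_comp hf hPT
    have h6 : (fun x => f (bits (N x, E x, s x))) = fun x => bits (adjMat (G x), t x) := by
      funext x
      exact h1 x
    rw [← h6]
    exact h5
  · intro x hxL
    exact h3 x ((hx x).2.2.2.2.1 hxL)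
  · intro x hxL
    exact h4 x ((hx x).2.2.2.2.2 hxL)

end Pool.Agent.H689.SX
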