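import Pool.Agent.H689.SX.Code

/-!
# The choice of the parameters
-/

set_option autoImplicit false
set_option linter.unusedSectionVars false

namespace Pool.Agent.H689.SX

open Finset Pool.Agent.NPC Pool.Agent.H243R3.PCP Pool.Agent.TH694.CR
open Pool.Agent.H801.Ecc (Regular cut)

/-- the base parameter -/
def pA (c : ℕ) : ℕ := 4356 * 64 * 10 ^ 44 * c ^ 2

/-- the logarithmic parameter -/
def pk (c : ℕ) : ℕ := 100 * pA c

/-- the inverse of the noise -/
def pb (c : ℕ) : ℕ := 64 * 10 ^ 22 * c * (pk c + 1) ^ 2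

/-- the factor of the threshold -/
def pK (c : ℕ) : ℕ := 10 ^ 22 * pb c * c

/-- the number of labels -/
def pq (c : ℕ) : ℕ := 4356 * pK c

/-- the ratio of the sizes -/
def pm (c : ℕ) : ℕ := 33792 * pb c * pq c

/-- the gap parameter of small set expansion -/
noncomputable def pe (c : ℕ) : ℝ := 1 / (2 ^ 28 * (pk c + 1) * (3 * pm c + 1) ^ 2 * pb c)

/-- the dimension -/
noncomputable def pR (c : ℕ) (δ : ℝ) : ℕ := ⌈(pk c : ℝ) / δ⌉₊

section

variable {c : ℕ} (hc : 1 ≤ c)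

include hc in
theorem pA_pos : 1 ≤ pA c := by
  unfold pA
  have : 1 ≤ c ^ 2 := Nat.one_le_pow _ _ hc
  omega

include hc in
theorem pk_pos : 1 ≤ pk c := by
  unfold pk
  have := pA_pos hc
  omega

include hc in
theorem pb_pos : 1 ≤ pb c := by
  unfold pb
  have h1 : 1 ≤ (pk c + 1) ^ 2 := Nat.one_le_pow _ _ (by omega)
  have h2 : 1 ≤ c * (pk c + 1) ^ 2 := Nat.mul_pos hc h1
  have h3 : 64 * 10 ^ 22 * c * (pk c + 1) ^ 2 = 64 * 10 ^ 22 * (c * (pk c + 1) ^ 2) := by ring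
  rw [h3]
  omega

include hc in
theorem pK_pos : 1 ≤ pK c := by
  unfold pK
  have h1 := pb_pos hc
  have h2 : 1 ≤ pb c * c := Nat.mul_pos h1 hc
  have h3 : 10 ^ 22 * pb c * c = 10 ^ 22 * (pb c * c) := by ring
  rw [h3]
  omega

include hc in
theorem pq_pos : 1 ≤ pq c := by
  unfold pq
  have := pK_pos hc
  omega

theorem pq_eq : pq c = pA c * (pk c + 1) ^ 2 := by
  unfold pq pK pb pA
  ring

include hc in
theorem pq_le : pq c ≤ 2 ^ pk c := by
  have hA := pA_pos hc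
  rw [pq_eq]
  unfold pk
  obtain ⟨A, hAe⟩ : ∃ A, A = pA c := ⟨_, rfl⟩
  rw [← hAe] at hA ⊢
  obtain ⟨m, hm⟩ : ∃ m, m = 25 * A := ⟨_, rfl⟩
  have h1 : 100 * A = 4 * m := by omega
  rw [h1]
  have h2 : 4 * m + 1 ≤ 5 * m := by omega
  have h3 : A * (4 * m + 1) ^ 2 ≤ A * (5 * m) ^ 2 :=
    Nat.mul_le_mul_left _ (Nat.pow_le_pow_left h2 2)
  have h4 : A * (5 * m) ^ 2 = m ^ 3 := by
    calc A * (5 * m) ^ 2 = (25 * A) * m ^ 2 := by ring
      _ = m ^ 3 := by rw [← hm]; ring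
  have h5 : m ^ 3 ≤ (2 ^ m) ^ 3 := Nat.pow_le_pow_left (Nat.lt_two_pow_self).le 3
  have h6 : (2 ^ m) ^ 3 ≤ 2 ^ (4 * m) := by
    rw [← pow_mul]
    exact Nat.pow_le_pow_right (by norm_num) (by omega)
  omega

include hc in
theorem pe_pos : 0 < pe c := by
  have h : (0 : ℝ) < pb c := by exact_mod_cast pb_pos hc
  unfold pe
  positivity

include hc in
theorem pe_le : pe c ≤ 1 / pb c := by
  have h : (0 : ℝ) < pb c := by exact_mod_cast pb_pos hc
  unfold pe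
  apply one_div_le_one_div_of_le h
  have h1 : (1 : ℝ) ≤ 2 ^ 28 * (pk c + 1) * (3 * pm c + 1) ^ 2 := by
    have h2 : (1 : ℝ) ≤ pk c + 1 := by
      have : (0 : ℝ) ≤ pk c := Nat.cast_nonneg _
      linarith
    have h3 : (1 : ℝ) ≤ (3 * (pm c : ℝ) + 1) ^ 2 := by
      have : (0 : ℝ) ≤ pm c := Nat.cast_nonneg _
      nlinarith
    calc (1 : ℝ) ≤ 2 ^ 28 * 1 * 1 := by norm_num
      _ ≤ 2 ^ 28 * (pk c + 1) * (3 * pm c + 1) ^ 2 := by
        apply mul_le_mul _ h3 (by norm_num) (by positivity)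
        exact mul_le_mul_of_nonneg_left h2 (by norm_num)
  nlinarith

include hc in
theorem pe_lt_one : pe c < 1 := by
  have h := pe_le hc
  have hb : (64 : ℝ) ≤ pb c := by
    have h1 : 1 ≤ (pk c + 1) ^ 2 := Nat.one_le_pow _ _ (by omega)
    have h2 : 1 ≤ c * (pk c + 1) ^ 2 := Nat.mul_pos hc h1
    have h3 : pb c = 64 * 10 ^ 22 * (c * (pk c + 1) ^ 2) := by unfold pb; ring
    have h4 : 64 ≤ pb c := by rw [h3]; omega
    exact_mod_cast h4
  have h5 : (1 : ℝ) / pb c ≤ 1 / 64 := one_div_le_one_div_of_le (by norm_num) hb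
  linarith

variable {δ : ℝ} (hδ : 0 < δ) (hδ1 : δ ≤ 1)

include hδ in
theorem pR_ge : (pk c : ℝ) ≤ pR c δ * δ := by
  have h := Nat.le_ceil ((pk c : ℝ) / δ)
  rw [div_le_iff₀ hδ] at h
  exact h

include hδ hδ1 in
theorem pR_le : (pR c δ : ℝ) * δ ≤ pk c + 1 := by
  have h := (Nat.ceil_lt_add_one (a := (pk c : ℝ) / δ) (by positivity)).le
  have h2 := mul_le_mul_of_nonneg_right h hδ.le
  have h3 : ((pk c : ℝ) / δ + 1) * δ = pk c + δ := by field_simp
  unfold pR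
  linarith

include hc hδ in
theorem pR_pos : 0 < pR c δ := by
  unfold pR
  rw [Nat.ceil_pos]
  have : (0 : ℝ) < pk c := by exact_mod_cast pk_pos hc
  positivity

end

end Pool.Agent.H689.SX
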