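import Pool.Agent.H689.SX.Avg
import Pool.Graph.R_seed8.TH694.CR.Cube

/-!
# A Poincaré inequality of `L¹` type on product spaces
-/

set_option autoImplicit false

namespace Pool.Agent.H689.SX

open Finset

theorem av_eq_ev {n : ℕ} (f : (Fin n → Bool) → ℝ) : Pool.Agent.TH694.CR.av f = ev f := by
  rw [Pool.Agent.TH694.CR.av_def]
  unfold ev
  rw [Fintype.card_fun, Fintype.card_bool]
  push_cast
  rfl

/-- the cube inequality in terms of `ev` -/
theorem cube_ineq {n : ℕ} (h : (Fin n → Bool) → ℝ) (hh : ∀ b, 0 ≤ h b ∧ h b ≤ 1) :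
    ev (fun b => (h b - h (fun i => !(b i))) ^ 2) ≤
      2 * ev (fun b => √(∑ i, (h b - h (Function.update b i (!(b i)))) ^ 2)) := by
  have h1 := Pool.Agent.TH694.CR.var_le h hh
  rw [av_eq_ev, av_eq_ev, av_eq_ev] at h1
  have h2 : ev (fun b => √(∑ i, Pool.Agent.TH694.CR.dd i h b ^ 2)) =
      1 / 2 * ev (fun b => √(∑ i, (h b - h (Function.update b i (!(b i)))) ^ 2)) := by
    rw [← ev_mul]
    refine ev_congr fun b => ?_
    have e1 : ∑ i, Pool.Agent.TH694.CR.dd i h b ^ 2 =
        (1 / 2) ^ 2 * ∑ i, (h b - h (Function.update b i (!(b i)))) ^ 2 := by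
      rw [mul_sum]
      refine sum_congr rfl fun i _ => ?_
      unfold Pool.Agent.TH694.CR.dd
      ring
    rw [e1, Real.sqrt_mul (by positivity), Real.sqrt_sq (by norm_num)]
  rw [h2] at h1
  set m := ev h with hm
  have hinv : ∀ b : Fin n → Bool, (fun i => !((fun i => !(b i)) i)) = b := by
    intro b; funext i; simp
  let e : (Fin n → Bool) ≃ (Fin n → Bool) :=
    ⟨fun b i => !(b i), fun b i => !(b i), hinv, hinv⟩
  have h3 : ev (fun b => (h b - h (fun i => !(b i))) ^ 2) ≤
      ev (fun b => 2 * (h b - m) ^ 2 + 2 * (h (e b) - m) ^ 2) := by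
    refine ev_mono fun b => ?_
    change (h b - h (e b)) ^ 2 ≤ _
    nlinarith [sq_nonneg ((h b - m) + (h (e b) - m))]
  rw [ev_add, ev_mul, ev_mul, ev_equiv e (fun b => (h b - m) ^ 2)] at h3
  have h4 : ev (fun b => (h b - m) ^ 2) = ev (fun b => h b ^ 2) - m ^ 2 := by
    have : ∀ b, (h b - m) ^ 2 = h b ^ 2 - (2 * m) * h b + m ^ 2 := fun b => by ring
    rw [ev_congr this, ev_add, ev_sub, ev_mul, ev_const, ← hm]
    ring
  rw [h4] at h3
  linarith

/-- exchange of the coordinates marked by `b` -/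
def exch {ι X : Type*} (b : ι → Bool) : (ι → X) × (ι → X) ≃ (ι → X) × (ι → X) where
  toFun p := (fun i => if b i then p.2 i else p.1 i, fun i => if b i then p.1 i else p.2 i)
  invFun p := (fun i => if b i then p.2 i else p.1 i, fun i => if b i then p.1 i else p.2 i)
  left_inv p := by
    apply Prod.ext <;> funext i <;> by_cases h : b i <;> simp [h]
  right_inv p := by
    apply Prod.ext <;> funext i <;> by_cases h : b i <;> simp [h]

/-- **A Poincaré inequality on product spaces.** -/
theorem poinc {n : ℕ} {X : Type*} [Fintype X] [Nonempty X] (u : (Fin n → X) → ℝ)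
    (hu : ∀ x, 0 ≤ u x ∧ u x ≤ 1) :
    ev (fun p : (Fin n → X) × (Fin n → X) => (u p.1 - u p.2) ^ 2) ≤
      2 * ev (fun p : (Fin n → X) × (Fin n → X) =>
        √(∑ i, (u p.1 - u (Function.update p.1 i (p.2 i))) ^ 2)) := by
  have key : ∀ p : (Fin n → X) × (Fin n → X),
      ev (fun b => (u (exch b p).1 - u (exch b p).2) ^ 2) ≤
        2 * ev (fun b => √(∑ i, (u (exch b p).1 -
          u (Function.update (exch b p).1 i ((exch b p).2 i))) ^ 2)) := by
    intro p
    have h := cube_ineq (fun b => u (exch b p).1) (fun b => hu _)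
    have e1 : ∀ b : Fin n → Bool, (exch (fun i => !(b i)) p).1 = (exch b p).2 := by
      intro b
      funext i
      by_cases h : b i <;> simp [exch, h]
    have e2 : ∀ (b : Fin n → Bool) (i : Fin n), (exch (Function.update b i (!(b i))) p).1 =
        Function.update (exch b p).1 i ((exch b p).2 i) := by
      intro b i
      funext j
      by_cases hj : j = i
      · subst hj
        by_cases h : b j <;> simp [exch, h]
      · rw [Function.update_of_ne hj]
        simp [exch, Function.update_of_ne hj]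
    simp only [e1, e2] at h
    exact h
  have h1 := ev_mono key
  rw [ev_mul] at h1
  have h2 : ev (fun p : (Fin n → X) × (Fin n → X) =>
      ev (fun b : Fin n → Bool => (u (exch b p).1 - u (exch b p).2) ^ 2)) =
      ev (fun p : (Fin n → X) × (Fin n → X) => (u p.1 - u p.2) ^ 2) := by
    rw [ev_comm (fun (p : (Fin n → X) × (Fin n → X)) (b : Fin n → Bool) =>
      (u (exch b p).1 - u (exch b p).2) ^ 2)]
    rw [ev_congr (fun b : Fin n → Bool => ev_equiv (exch b)
      (fun p : (Fin n → X) × (Fin n → X) => (u p.1 - u p.2) ^ 2)), ev_const]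
  have h3 : ev (fun p : (Fin n → X) × (Fin n → X) => ev (fun b : Fin n → Bool =>
      √(∑ i, (u (exch b p).1 - u (Function.update (exch b p).1 i ((exch b p).2 i))) ^ 2))) =
      ev (fun p : (Fin n → X) × (Fin n → X) =>
        √(∑ i, (u p.1 - u (Function.update p.1 i (p.2 i))) ^ 2)) := by
    rw [ev_comm (fun (p : (Fin n → X) × (Fin n → X)) (b : Fin n → Bool) =>
      √(∑ i, (u (exch b p).1 - u (Function.update (exch b p).1 i ((exch b p).2 i))) ^ 2))]
    rw [ev_congr (fun b : Fin n → Bool => ev_equiv (exch b)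
      (fun p : (Fin n → X) × (Fin n → X) =>
        √(∑ i, (u p.1 - u (Function.update p.1 i (p.2 i))) ^ 2))), ev_const]
  rw [h2, h3] at h1
  exact h1

end Pool.Agent.H689.SX
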