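import Pool.Agent.H689.SX.Code
import Pool.Graph.R_seed8.H243R3.PCP.PolyS

/-!
# The reduction is computable in polynomial time
-/

set_option autoImplicit false
set_option linter.unusedSectionVars false

namespace Pool.Agent.H689.SX

open Pool.Agent.NPC Pool.Agent.NPC.DP Pool.Agent.H243R3.PCP

section poly

variable {α : Type} [TEnc α]

theorem poly_powc {m : α → ℕ} (hm : Poly m) (i : ℕ) : Poly (fun a => m a ^ i) := by
  induction i with
  | zero => simpa using (NPC.Poly.const 1 : Poly (fun _ : α => 1))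
  | succ i ih => simpa only [pow_succ] using Poly.mul ih hm

theorem upoly_powc {m : α → ℕ} (hm : UPoly m) (i : ℕ) : UPoly (fun a => m a ^ i) := by
  induction i with
  | zero => simpa using (UPoly.const 1 : UPoly (fun _ : α => 1))
  | succ i ih => simpa only [pow_succ] using UPoly.mul ih hm

theorem poly_digc {m x : α → ℕ} (hm : Poly m) (hx : Poly x) (i : ℕ) :
    Poly (fun a => dig (m a) (x a) i) := by
  unfold dig
  exact Poly.mod (Poly.div hx (poly_powc hm i)) hm

theorem poly_dig {m x e : α → ℕ} (hm : Poly m) (hx : Poly x) (he : Poly e) (R : ℕ)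
    (hR : ∀ a, e a < R) : Poly (fun a => dig (m a) (x a) (e a)) := by
  have h1 : Poly (fun a => (List.range R).map (dig (m a) (x a))) :=
    poly_map_const (F := fun a => dig (m a) (x a)) (List.range R) fun i _ => poly_digc hm hx i
  refine (Poly.getD h1 he (NPC.Poly.const 0)).congr fun a => ?_
  rw [List.getD_eq_getElem?_getD, List.getElem?_map, List.getElem?_range (hR a)]
  rfl

theorem poly_cmb {m : α → ℕ} {f : α → ℕ → ℕ} (hm : Poly m) (R : ℕ)
    (hf : ∀ i, Poly (fun a => f a i)) : Poly (fun a => cmb (m a) R (f a)) := by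
  unfold cmb
  induction R with
  | zero => simpa using (NPC.Poly.const 0 : Poly (fun _ : α => 0))
  | succ R ih =>
    simp only [Finset.sum_range_succ]
    exact Poly.add ih (Poly.mul (hf R) (poly_powc hm R))

theorem poly_finN (F : ℕ → ℕ) {g : α → ℕ} (hg : Poly g) (n : ℕ) (hn : 0 < n) :
    Poly (fun a => F (g a % n)) := by
  refine poly_fin (g := fun a => g a % n) (Poly.mod hg (NPC.Poly.const n)) ?_ F
  refine (Set.finite_Iio n).subset ?_
  rintro _ ⟨a, rfl⟩
  exact Nat.mod_lt _ hn

theorem nP_pos (R : ℕ) : 0 < nP R := Fintype.card_pos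

theorem pmT_lt {R : ℕ} (hR : 0 < R) (k i : ℕ) : pmT R k i < R := by
  unfold pmT
  split_ifs
  · exact Fin.is_lt _
  · exact hR
  · exact hR

theorem poly_en {E : α → List (ℕ × ℕ)} {t : α → ℕ} (hE : Poly E) (ht : Poly t) :
    Poly (fun a => en (E a) (t a)) := by
  unfold en
  have h1 : Poly (fun a => (E a).getD (t a / 2) (0, 0)) :=
    Poly.getD hE (Poly.div ht (NPC.Poly.const 2)) (NPC.Poly.const _)
  exact Poly.ite (Poly.decide_eq (Poly.mod ht (NPC.Poly.const 2)) (NPC.Poly.const 0)) (Poly.fst h1)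
    (Poly.snd h1)

theorem upoly_len2 {E : α → List (ℕ × ℕ)} (hE : Poly E) : UPoly (fun a => 2 * (E a).length) :=
  UPoly.mul (UPoly.const 2) (UPoly.length hE)

theorem poly_dl {E : α → List (ℕ × ℕ)} {v : α → ℕ} (hE : Poly E) (hv : Poly v) :
    Poly (fun a => dl (E a) (v a)) := by
  unfold dl
  exact Poly.filter (p := fun a t => decide (en (E a) t = v a)) (upoly_len2 hE).range
    (Poly.decide_eq (poly_en (hE.comp (Poly.fst Poly.id)) (Poly.snd Poly.id))
      (hv.comp (Poly.fst Poly.id)))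

theorem poly_partner {s : α → ℕ} (hs : Poly s) : Poly (fun a => partner (s a)) := by
  unfold partner
  exact Poly.ite (Poly.decide_eq (Poly.mod hs (NPC.Poly.const 2)) (NPC.Poly.const 0))
    (Poly.add hs (NPC.Poly.const 1)) (Poly.sub hs (NPC.Poly.const 1))

theorem poly_rr {E : α → List (ℕ × ℕ)} {v j : α → ℕ} (hE : Poly E) (hv : Poly v) (hj : Poly j) :
    Poly (fun a => rr (E a) (v a) (j a)) := by
  unfold rr
  have h1 : Poly (fun a => partner ((dl (E a) (v a)).getD (j a) 0)) :=
    poly_partner (Poly.getD (poly_dl hE hv) hj (NPC.Poly.const 0))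
  have h2 : Poly (fun a => en (E a) (partner ((dl (E a) (v a)).getD (j a) 0))) := poly_en hE h1
  exact Poly.pair h2 (Poly.index (poly_dl hE h2) h1)

theorem poly_stepN {E : α → List (ℕ × ℕ)} {d K z c : α → ℕ} (hE : Poly E) (q : ℕ) (hd : Poly d)
    (hK : Poly K) (hz : Poly z) (hc : Poly c) :
    Poly (fun a => stepN (E a) q (d a) (K a) (z a) (c a)) := by
  unfold stepN
  have hr : Poly (fun a => c a / K a) := Poly.div hc hK
  have huj : Poly (fun a => c a % K a) := Poly.mod hc hK
  have hu : Poly (fun a => c a % K a / d a) := Poly.div huj hd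
  have hj : Poly (fun a => c a % K a % d a) := Poly.mod huj hd
  have hw : Poly (fun a => rr (E a) (z a / q) (c a % K a % d a)) :=
    poly_rr hE (Poly.div hz (NPC.Poly.const q)) hj
  refine Poly.ite (Poly.decide_eq hr (NPC.Poly.const 0)) (Poly.pair hu (Poly.add hj (Poly.mul hd hz)))
    (Poly.pair (Poly.add (Poly.mod hz (NPC.Poly.const q)) (Poly.mul (NPC.Poly.const q) (Poly.fst hw)))
      (Poly.add (Poly.add (Poly.snd hw) (Poly.mul hd hu)) (Poly.mul hK hr)))

theorem poly_outC {E : α → List (ℕ × ℕ)} {d B K C M x : α → ℕ} (hE : Poly E) (q : ℕ)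
    (hd : Poly d) {R : ℕ} (hR : 0 < R) (hB : Poly B) (hK : Poly K) (hC : Poly C) (hM : Poly M)
    (hx : Poly x) : Poly (fun a => outC (E a) q (d a) R (B a) (K a) (C a) (M a) (x a)) := by
  have hp : Poly (fun a => x a % M a) := Poly.mod hx hM
  have ha : Poly (fun a => x a / M a) := Poly.div hx hM
  have hc : Poly (fun a => x a % M a / nP R) := Poly.div hp (NPC.Poly.const _)
  have hpt : ∀ i, Poly (fun a => pmT R (x a % M a % nP R) i) := fun i =>
    poly_finN (fun k => pmT R k i) hp (nP R) (nP_pos R)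
  have hit : Poly (fun a => piT R (x a % M a % nP R)) :=
    poly_finN (fun k => piT R k) hp (nP R) (nP_pos R)
  have hst : ∀ i, Poly (fun a => stepN (E a) q (d a) (K a)
      (dig (B a) (x a / M a) (pmT R (x a % M a % nP R) i))
      (dig (C a) (x a % M a / nP R) (pmT R (x a % M a % nP R) i))) := fun i =>
    poly_stepN hE q hd hK (poly_dig hB ha (hpt i) R fun a => pmT_lt hR _ _)
      (poly_dig hC hc (hpt i) R fun a => pmT_lt hR _ _)
  unfold outC
  exact Poly.add (Poly.add hit (Poly.mul (NPC.Poly.const _) (poly_cmb hC R fun i => Poly.snd (hst i))))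
    (Poly.mul hM (poly_cmb hB R fun i => Poly.fst (hst i)))

theorem poly_nbC {E : α → List (ℕ × ℕ)} {d B K C M x l : α → ℕ} (hE : Poly E) (q : ℕ)
    (hd : Poly d) {R : ℕ} (hR : 0 < R) (hB : Poly B) (hK : Poly K) (hC : Poly C) (hM : UPoly M)
    (hx : Poly x) (hl : Poly l) :
    Poly (fun a => nbC (E a) q (d a) R (B a) (K a) (C a) (M a) (x a) (l a)) := by
  have hM' := hM.toPoly
  unfold nbC
  exact Poly.ite (Poly.decide_lt hl (NPC.Poly.const 32))
    (Poly.add (Poly.fst (poly_xrot hM (Poly.mod hx hM') hl)) (Poly.mul hM' (Poly.div hx hM')))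
    (poly_outC hE q hd hR hB hK hC hM' hx)

theorem poly_adjC {E : α → List (ℕ × ℕ)} {d B K C M x y : α → ℕ} (hE : Poly E) (q : ℕ)
    (hd : Poly d) {R : ℕ} (hR : 0 < R) (hB : Poly B) (hK : Poly K) (hC : Poly C) (hM : UPoly M)
    (hx : Poly x) (hy : Poly y) :
    Poly (fun a => adjC (E a) q (d a) R (B a) (K a) (C a) (M a) (x a) (y a)) := by
  have f1 : Poly (fun p : α × ℕ => p.1) := Poly.fst Poly.id
  have f2 : Poly (fun p : α × ℕ => p.2) := Poly.snd Poly.id
  have h1 : Poly (fun p : α × ℕ => nbC (E p.1) q (d p.1) R (B p.1) (K p.1) (C p.1) (M p.1)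
      (x p.1) p.2) := poly_nbC (hE.comp f1) q (hd.comp f1) hR (hB.comp f1) (hK.comp f1)
        (hC.comp f1) (hM.comp f1) (hx.comp f1) f2
  unfold adjC
  exact Poly.and (Poly.not (Poly.decide_eq hx hy)) (Poly.any
    (p := fun a l => decide (nbC (E a) q (d a) R (B a) (K a) (C a) (M a) (x a) l = y a))
    (NPC.Poly.const _) (Poly.decide_eq h1 (hy.comp f1)))

end poly

end Pool.Agent.H689.SX
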