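import Pool.Agent.H689.SX.Chain

/-!
# The walk as a regular multigraph
-/

set_option autoImplicit false
set_option linter.unusedSectionVars false

namespace Pool.Agent.H689.SX

open Finset

section port

variable {V J Q ι : Type} (G : Rot V J) (b : ℕ) [NeZero b]

/-- the rotation map of one coordinate -/
def rc (p : (V × Q) × Ch b V Q J) : (V × Q) × Ch b V Q J :=
  if p.2.1 = 0 then (p.2.2.1, (p.2.1, p.1, p.2.2.2))
  else (mv G p.1 p.2.2.2, (p.2.1, p.2.2.1, (G.rot (p.1.1, p.2.2.2)).2))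

theorem rc_fst (p : (V × Q) × Ch b V Q J) : (rc G b p).1 = st G p.1 p.2 := by
  unfold rc st
  split_ifs <;> rfl

theorem rc_rc (p : (V × Q) × Ch b V Q J) : rc G b (rc G b p) = p := by
  obtain ⟨⟨v, l⟩, r, u, j⟩ := p
  by_cases hr : r = 0
  · simp [rc, hr]
  · have h := G.inv (v, j)
    have h2 : rc G b ((v, l), r, u, j) = (mv G (v, l) j, (r, u, (G.rot (v, j)).2)) := by
      unfold rc; rw [if_neg hr]
    rw [h2]
    unfold rc
    rw [if_neg hr]
    simp only [mv]
    rw [show ((G.rot (v, j)).1, (G.rot (v, j)).2) = G.rot (v, j) from rfl, h]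

/-- the rotation map of the walk -/
def rt (p : (ι → V × Q) × ((ι → Ch b V Q J) × Equiv.Perm ι)) :
    (ι → V × Q) × ((ι → Ch b V Q J) × Equiv.Perm ι) :=
  (fun i => (rc G b (p.1 (p.2.2 i), p.2.1 (p.2.2 i))).1,
    (fun i => (rc G b (p.1 (p.2.2 i), p.2.1 (p.2.2 i))).2, p.2.2⁻¹))

theorem rt_fst (ω : ι → V × Q) (c : ι → Ch b V Q J) (π : Equiv.Perm ι) :
    (rt G b (ω, (c, π))).1 = fun i => yy G ω c (π i) := by
  funext i
  exact rc_fst G b _

theorem rt_rt (p : (ι → V × Q) × ((ι → Ch b V Q J) × Equiv.Perm ι)) :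
    rt G b (rt G b p) = p := by
  obtain ⟨ω, c, π⟩ := p
  unfold rt
  simp only [Prod.mk.eta]
  have h : ∀ i, rc G b (rc G b (ω (π (π⁻¹ i)), c (π (π⁻¹ i)))) = (ω i, c i) := by
    intro i
    rw [rc_rc]
    simp
  refine Prod.ext ?_ (Prod.ext ?_ ?_)
  · funext i
    simp only [h]
  · funext i
    simp only [h]
  · simp

/-- the rotation map as a permutation -/
def rtE : (ι → V × Q) × ((ι → Ch b V Q J) × Equiv.Perm ι) ≃
    (ι → V × Q) × ((ι → Ch b V Q J) × Equiv.Perm ι) where
  toFun := rt G b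
  invFun := rt G b
  left_inv := rt_rt G b
  right_inv := rt_rt G b

end port

section stat

variable {V J Q ι : Type} [Fintype V] [Fintype J] [Fintype Q] [Fintype ι] [DecidableEq ι]
  (G : Rot V J) (b : ℕ) [NeZero b] [Nonempty V] [Nonempty Q] [Nonempty J]

/-- the walk is stationary -/
theorem ev_Ph (f : (ι → V × Q) → ℝ) : ev (Ph G b f) = ev f := by
  have h1 := ev_equiv (rtE (ι := ι) (Q := Q) G b) (fun p => f p.1)
  have h2 := ev_prod (fun p : (ι → V × Q) × ((ι → Ch b V Q J) × Equiv.Perm ι) => f p.1)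
  simp only [ev_const] at h2
  rw [← h2, ← h1, ev_prod]
  refine ev_congr fun ω => ?_
  rw [ev_prod]
  unfold Ph sy
  refine ev_congr fun c => ev_congr fun π => ?_
  change f (fun i => yy G ω c (π i)) = f (rt G b (ω, (c, π))).1
  rw [rt_fst]

/-- the probability that `f` changes along a step -/
noncomputable def kap (f : (ι → V × Q) → ℝ) : ℝ :=
  ev fun p : (ι → V × Q) × ((ι → Ch b V Q J) × Equiv.Perm ι) => |f p.1 - f (rt G b p).1|

theorem kap_eq (f : (ι → V × Q) → ℝ) : kap G b f = ev fun ω => ev fun c : ι → Ch b V Q J =>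
    ev fun π : Equiv.Perm ι => |f ω - f (fun i => yy G ω c (π i))| := by
  unfold kap
  rw [ev_prod]
  refine ev_congr fun ω => ?_
  rw [ev_prod]
  refine ev_congr fun c => ev_congr fun π => ?_
  rw [rt_fst]

/-- the operator makes the function nearly Boolean -/
theorem ev_var_le (f : (ι → V × Q) → ℝ) (hf : ∀ ω, f ω = 0 ∨ f ω = 1) :
    ev (fun ω => Ph G b f ω * (1 - Ph G b f ω)) ≤ kap G b f := by
  rw [kap_eq]
  refine ev_mono fun ω => ?_
  have hf' : ∀ ω, 0 ≤ f ω ∧ f ω ≤ 1 := fun ω => by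
    rcases hf ω with h | h <;> rw [h] <;> norm_num
  have hm := Ph_mem G b hf' ω
  have hP : (ev fun c : ι → Ch b V Q J => ev fun π : Equiv.Perm ι =>
      f (fun i => yy G ω c (π i))) = Ph G b f ω := rfl
  rcases hf ω with h | h
  · have h1 : (ev fun c : ι → Ch b V Q J => ev fun π : Equiv.Perm ι =>
        |f ω - f (fun i => yy G ω c (π i))|) = Ph G b f ω := by
      rw [← hP]
      refine ev_congr fun c => ev_congr fun π => ?_
      rw [h, zero_sub, abs_neg, abs_of_nonneg (hf' _).1]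
    rw [h1]
    nlinarith [hm.1, hm.2]
  · have h1 : (ev fun c : ι → Ch b V Q J => ev fun π : Equiv.Perm ι =>
        |f ω - f (fun i => yy G ω c (π i))|) = 1 - Ph G b f ω := by
      rw [← hP]
      have h2 : ∀ (c : ι → Ch b V Q J), (ev fun π : Equiv.Perm ι =>
          |f ω - f (fun i => yy G ω c (π i))|) =
          1 - ev (fun π : Equiv.Perm ι => f (fun i => yy G ω c (π i))) := by
        intro c
        have h3 : ∀ π : Equiv.Perm ι, |f ω - f (fun i => yy G ω c (π i))| =
            1 - f (fun i => yy G ω c (π i)) := by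
          intro π
          rw [h, abs_of_nonneg (by linarith [(hf' (fun i => yy G ω c (π i))).2])]
        rw [ev_congr h3, ev_sub, ev_const]
      rw [ev_congr h2, ev_sub, ev_const]
    rw [h1]
    nlinarith [hm.1, hm.2]

end stat

end Pool.Agent.H689.SX
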