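import Pool.Agent.H689.SX.Main

/-!
# Randomised approximation algorithms
-/

set_option autoImplicit false
set_option linter.unusedSectionVars false

namespace Pool.Agent.H689.SX

open Pool.Agent.NPC Pool.Agent.NPC.DP Pool.Agent.NPC.H604 Pool.Agent.H243R3.PCP
open Pool.Agent.TH694.CR
open Pool.Agent.H801.Ecc (Regular cut poly_app)

theorem fin_len (m : ℕ) (P : List Bool → Prop) : {r : List Bool | r.length = m ∧ P r}.Finite :=
  (List.finite_length_eq Bool m).subset fun _ h => h.1

theorem Most.mono {m : ℕ} {P Q : List Bool → Prop} (h : ∀ r, r.length = m → P r → Q r)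
    (hP : Most m P) : Most m Q := by
  unfold Most at *
  have h1 : {r : List Bool | r.length = m ∧ P r}.ncard ≤
      {r : List Bool | r.length = m ∧ Q r}.ncard :=
    Set.ncard_le_ncard (fun r hr => ⟨hr.1, h r hr.1 hr.2⟩) (fin_len m Q)
  omega

theorem ncard_len (m : ℕ) : {r : List Bool | r.length = m}.ncard = 2 ^ m := by
  induction m with
  | zero =>
    have : {r : List Bool | r.length = 0} = {[]} := by
      ext r; simp
    rw [this, Set.ncard_singleton, pow_zero]
  | succ m ih =>
    have h1 : {r : List Bool | r.length = m + 1} =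
        (fun p : Bool × List Bool => p.1 :: p.2) '' (Set.univ ×ˢ {r : List Bool | r.length = m}) := by
      ext r
      constructor
      · intro hr
        cases r with
        | nil => simp at hr
        | cons b r => exact ⟨(b, r), ⟨Set.mem_univ _, by simpa using hr⟩, rfl⟩
      · rintro ⟨⟨b, r⟩, ⟨-, hr⟩, rfl⟩
        simpa using hr
    rw [h1, Set.ncard_image_of_injective, Set.ncard_prod, ih, Set.ncard_univ]
    · simp [pow_succ, mul_comm]
    · rintro ⟨b, r⟩ ⟨b', r'⟩ h
      simpa using h

theorem Most.take {m m' : ℕ} (hm : m ≤ m') {P : List Bool → Prop} (hP : Most m P) :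
    Most m' fun r => P (r.take m) := by
  unfold Most at *
  have h1 : {r : List Bool | r.length = m' ∧ P (r.take m)} =
      (fun p : List Bool × List Bool => p.1 ++ p.2) ''
        ({r : List Bool | r.length = m ∧ P r} ×ˢ {r : List Bool | r.length = m' - m}) := by
    ext r
    constructor
    · rintro ⟨h2, h3⟩
      refine ⟨(r.take m, r.drop m), ⟨⟨?_, h3⟩, ?_⟩, List.take_append_drop m r⟩
      · rw [List.length_take]; omega
      · change (r.drop m).length = m' - m
        rw [List.length_drop]; omega
    · rintro ⟨⟨a, b⟩, ⟨⟨h2, h3⟩, h4⟩, rfl⟩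
      simp only [Set.mem_ofPred_eq] at h4
      simp only at h2 h3
      refine ⟨?_, ?_⟩
      · simp only [List.length_append]; omega
      · simp only
        rw [List.take_append_of_le_length (by omega), ← h2, List.take_length]
        exact h3
  have h2 : Set.InjOn (fun p : List Bool × List Bool => p.1 ++ p.2)
      ({r : List Bool | r.length = m ∧ P r} ×ˢ {r : List Bool | r.length = m' - m}) := by
    rintro ⟨a, b⟩ ⟨⟨h3, -⟩, -⟩ ⟨a', b'⟩ ⟨⟨h4, -⟩, -⟩ h
    simp only at h3 h4 h
    obtain ⟨h5, h6⟩ := List.append_inj h (h3.trans h4.symm)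
    rw [h5, h6]
  rw [h1, Set.InjOn.ncard_image h2, Set.ncard_prod, ncard_len]
  have h3 : 2 ^ m' = 2 ^ m * 2 ^ (m' - m) := by
    rw [← pow_add]
    congr 1
    omega
  rw [h3]
  calc 2 * (2 ^ m * 2 ^ (m' - m)) = (2 * 2 ^ m) * 2 ^ (m' - m) := by ring
    _ ≤ (3 * {r : List Bool | r.length = m ∧ P r}.ncard) * 2 ^ (m' - m) :=
        Nat.mul_le_mul_right _ hP
    _ = _ := by ring

/-- the first bits, computed -/
def tk (r : List Bool) (m : ℕ) : List Bool :=
  ((List.range r.length).filter fun i => decide (i < m)).map fun i => r.getD i false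

theorem tk_eq {r : List Bool} {m : ℕ} (h : m ≤ r.length) : tk r m = r.take m := by
  have h1 : (List.range r.length).filter (fun i => decide (i < m)) = List.range m := by
    obtain ⟨d, hd⟩ := Nat.exists_eq_add_of_le h
    rw [hd, List.range_add, List.filter_append]
    have h1 : (List.range m).filter (fun k => decide (k < m)) = List.range m := by
      rw [List.filter_eq_self]
      intro k hk
      simpa using hk
    have h2 : ((List.range d).map (fun x => m + x)).filter (fun k => decide (k < m)) = [] := by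
      rw [List.filter_eq_nil_iff]
      intro k hk
      simp at hk ⊢
      omega
    rw [h1, h2, List.append_nil]
  unfold tk
  rw [h1]
  apply List.ext_getElem
  · simp [h]
  · intro i h2 h3
    have h4 : i < r.length := by
      rw [List.length_take] at h3
      omega
    simp only [List.getElem_map, List.getElem_range, List.getElem_take]
    rw [List.getD_eq_getElem _ _ h4]

theorem poly_tk {α : Type} [TEnc α] {r : α → List Bool} {m : α → ℕ} (hr : Poly r) (hm : Poly m) :
    Poly (fun a => tk (r a) (m a)) := by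
  unfold tk
  refine NPC.Poly.map (F := fun a i => (r a).getD i false) ?_
    (Poly.getD (hr.comp (Poly.fst Poly.id)) (Poly.snd Poly.id) (NPC.Poly.const _))
  exact Poly.filter (p := fun a i => decide (i < m a)) (Poly.range_length hr)
    (Poly.decide_lt (Poly.snd Poly.id) (hm.comp (Poly.fst Poly.id)))

theorem poly_bits {α β : Type} [TEnc α] [TEnc β] {f : α → β} (hf : Poly f) :
    Poly (fun a => bits (f a)) := poly_app polyTime_id hf

/-- the number of random bits -/
noncomputable def nb' (p : Polynomial ℕ) (c : ℕ) (δ : ℝ) (g : GI) : ℕ :=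
  p.eval (bits (redF c δ g).1).length

theorem poly_nb (p : Polynomial ℕ) {c : ℕ} (hc : 1 ≤ c) {δ : ℝ} (hδ : 0 < δ) :
    Poly (nb' p c δ) :=
  (UPoly.eval (UPoly.length (poly_bits (Poly.fst (poly_redF hc hδ)))) p).toPoly

/-- the test with random bits -/
noncomputable def rtst (A : List Bool → List Bool) (p : Polynomial ℕ) (c : ℕ) (δ : ℝ)
    (z : GI × List Bool) : Bool :=
  decide ((unbits ℕ (A (bits ((redF c δ z.1).1, tk z.2 (nb' p c δ z.1))))).getD 0 ≤
    c * (redF c δ z.1).2)

theorem poly_rtst {A : List Bool → List Bool} (hA : PolyTime A) (p : Polynomial ℕ) {c : ℕ}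
    (hc : 1 ≤ c) {δ : ℝ} (hδ : 0 < δ) : Poly (rtst A p c δ) := by
  have f1 : Poly (fun z : GI × List Bool => z.1) := Poly.fst Poly.id
  have f2 : Poly (fun z : GI × List Bool => z.2) := Poly.snd Poly.id
  have h : Poly (fun z : GI × List Bool => redF c δ z.1) := (poly_redF hc hδ).comp f1
  have h1 : Poly (fun z : GI × List Bool => ((redF c δ z.1).1, tk z.2 (nb' p c δ z.1))) :=
    Poly.pair (Poly.fst h) (poly_tk f2 ((poly_nb p hc hδ).comp f1))
  exact Poly.decide_le (Poly.optGetD (poly_unbits.comp (poly_app hA h1))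
    (NPC.Poly.const 0)) (Poly.mul (NPC.Poly.const c) (Poly.snd h))

theorem eval_mono (p : Polynomial ℕ) {a b : ℕ} (h : a ≤ b) : p.eval a ≤ p.eval b := by
  rw [Polynomial.eval_eq_sum, Polynomial.eval_eq_sum]
  exact Finset.sum_le_sum fun i _ => Nat.mul_le_mul_left _ (Nat.pow_le_pow_left h i)

theorem inRand_of_neg {η δ : ℝ} (hδ : δ ≤ 0) : InRand η δ := by
  refine ⟨fun _ => [true], 0, polyTime_of_poly (NPC.Poly.const true), ?_⟩
  intro N E d s _ hs _ hsN
  exfalso
  have h1 : (1 : ℝ) ≤ s := by exact_mod_cast hs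
  have h2 : (0 : ℝ) ≤ N := Nat.cast_nonneg _
  nlinarith

/-- A good randomised approximation algorithm solves gap small set expansion. -/
theorem sse_of_rand (c : ℝ) (p : Polynomial ℕ) {A : List Bool → List Bool} (hA : PolyTime A)
    (happ : RandApproximates 33 c p A) : ∃ η : ℝ, 0 < η ∧ ∀ δ : ℝ, InRand η δ := by
  obtain ⟨c', hc', hcc⟩ := exists_nat_c c
  refine ⟨pe c', pe_pos hc', fun δ => ?_⟩
  rcases le_or_gt δ 0 with hδ | hδ
  · exact inRand_of_neg hδ
  obtain ⟨q, hq⟩ := (Poly.fst (poly_redF hc' hδ)).sz_le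
  refine ⟨fun x => [rtst A p c' δ ((unbits (GI × List Bool) x).getD ((0, [], 0), []))],
    p.comp q, ?_, ?_⟩
  · exact polyTime_of_poly ((poly_rtst hA p hc' hδ).comp (Poly.optGetD poly_unbits
      (NPC.Poly.const _)))
  · intro N E d s hd hs hreg hsN
    obtain ⟨n, t, G, h1, h2, h3, h4⟩ := redF_spec hc' hδ hd hs hreg hsN
    have hm := happ n G h2
    have hle : p.eval (bits (adjMat G)).length ≤ (p.comp q).eval (bits (N, E, s)).length := by
      rw [Polynomial.eval_comp]
      apply eval_mono
      have h5 := hq (N, E, s)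
      rw [h1] at h5
      rw [bits_length, bits_length]
      exact h5
    have hm' := hm.take hle
    have key : ∀ r : List Bool, r.length = (p.comp q).eval (bits (N, E, s)).length →
        (∃ k : ℕ, A (bits (adjMat G, r.take (p.eval (bits (adjMat G)).length))) = bits k ∧
          cr G ≤ k ∧ (k : ℝ) ≤ c * cr G) →
        ∃ k : ℕ, rtst A p c' δ ((N, E, s), r) = decide (k ≤ c' * t) ∧ cr G ≤ k ∧
          (k : ℝ) ≤ c * cr G := by
      rintro r hr ⟨k, hk, hk1, hk2⟩
      refine ⟨k, ?_, hk1, hk2⟩
      unfold rtst nb'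
      simp only
      rw [h1]
      simp only
      rw [tk_eq (by rw [hr]; exact hle), hk, unbits_bits]
      rfl
    constructor
    · intro hyes
      have h5 := h3 hyes
      refine Most.mono (fun r hr hP => ?_) hm'
      obtain ⟨k, hk, -, hk2⟩ := key r hr hP
      simp only [unbits_bits, Option.getD_some, hk, List.cons.injEq, and_true, decide_eq_true_eq]
      have h6 : (k : ℝ) ≤ ((c' * t : ℕ) : ℝ) := by
        calc (k : ℝ) ≤ c * cr G := hk2
          _ ≤ c' * cr G := mul_le_mul_of_nonneg_right hcc (Nat.cast_nonneg _)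
          _ ≤ c' * t := mul_le_mul_of_nonneg_left (by exact_mod_cast h5) (Nat.cast_nonneg _)
          _ = ((c' * t : ℕ) : ℝ) := by push_cast; ring
      exact_mod_cast h6
    · intro hno
      have h5 := h4 hno
      refine Most.mono (fun r hr hP => ?_) hm'
      obtain ⟨k, hk, hk1, -⟩ := key r hr hP
      simp only [unbits_bits, Option.getD_some, hk, List.cons.injEq, and_true,
        decide_eq_false_iff_not]
      omega

/-- No randomised approximation algorithm under the small set expansion hypothesis. -/
theorem no_rand_algorithm (h : SSEHypRand) (c : ℝ) (p : Polynomial ℕ) :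
    ¬ ∃ A : List Bool → List Bool, PolyTime A ∧ RandApproximates 33 c p A := by
  rintro ⟨A, hA, happ⟩
  obtain ⟨η, hη, hall⟩ := sse_of_rand c p hA happ
  obtain ⟨δ, -, hn⟩ := h η hη
  exact hn (hall δ)

end Pool.Agent.H689.SX
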