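import Pool.Agent.H689.SX.GapN
import Pool.Agent.H689.SX.PolyC
import Pool.Agent.H689.SX.Kfive
import Pool.Agent.H689.SX.Defs

/-!
# The reduction as a function of the code of the instance
-/

set_option autoImplicit false
set_option linter.unusedSectionVars false

namespace Pool.Agent.H689.SX

open Pool.Agent.NPC Pool.Agent.NPC.DP Pool.Agent.NPC.H604 Pool.Agent.H243R3.PCP
open Pool.Agent.TH694.CR Finset
open Pool.Agent.H801.Ecc (Regular cut)

/-- the type of the instances of small set expansion -/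
abbrev GI : Type := ℕ × List (ℕ × ℕ) × ℕ

/-- the number of vertices, cut off -/
def gN (g : GI) : ℕ := min g.1 (2 * g.2.1.length)

/-- the degree -/
def gd (g : GI) : ℕ := (dl g.2.1 0).length

/-- the matrix -/
noncomputable def matC (E : List (ℕ × ℕ)) (q b R N d : ℕ) : List (List Bool) :=
  (List.range ((N * q) ^ R * MM N q d b R)).map fun x =>
    (List.range ((N * q) ^ R * MM N q d b R)).map fun y =>
      adjC E q d R (N * q) (N * q * d) (b * (N * q * d)) (MM N q d b R) x y

theorem adjMat_NG {N q d b R : ℕ} {E : List (ℕ × ℕ)} [NeZero b] (hreg : Regular N E d) :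
    adjMat (NG (q := q) (b := b) (R := R) hreg) = matC E q b R N d := by
  classical
  unfold adjMat matC
  apply List.ext_getElem
  · simp
  · intro i h1 h2
    simp only [List.getElem_map, List.getElem_ofFn, List.getElem_range]
    apply List.ext_getElem
    · simp
    · intro j h3 h4
      simp only [List.getElem_map, List.getElem_ofFn, List.getElem_range]
      have h5 := NG_adj (q := q) (b := b) (R := R) hreg ⟨i, by simpa using h1⟩
        ⟨j, by simpa using h3⟩
      rw [Bool.eq_iff_iff, decide_eq_true_iff]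
      exact h5

/-- the reduction -/
noncomputable def redF (c : ℕ) (δ : ℝ) (g : GI) : List (List Bool) × ℕ :=
  if 2 ≤ g.2.2 ∧ g.2.2 ≤ g.1 then
    (matC g.2.1 (pq c) (pb c) (pR c δ) (gN g) (gd g), tt c δ (gN g) (gd g))
  else (adjMat (⊤ : SimpleGraph (Fin 5)), 0)

/-! ### Polynomial time -/

theorem poly_gE : Poly (fun g : GI => g.2.1) := Poly.fst (Poly.snd Poly.id)

theorem upoly_gN : UPoly gN :=
  UPoly.of_le (Poly.min (Poly.fst Poly.id) (upoly_len2 poly_gE).toPoly) (upoly_len2 poly_gE)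
    fun _ => min_le_right _ _

theorem upoly_gd : UPoly gd := UPoly.length (poly_dl poly_gE (NPC.Poly.const 0))

theorem upoly_MM (q b R : ℕ) : UPoly (fun g : GI => MM (gN g) q (gd g) b R) := by
  unfold MM
  exact UPoly.mul (upoly_powc (UPoly.mul (UPoly.const b) (UPoly.mul (UPoly.mul upoly_gN
    (UPoly.const q)) upoly_gd)) R) (UPoly.const _)

theorem upoly_nn (q b R : ℕ) :
    UPoly (fun g : GI => (gN g * q) ^ R * MM (gN g) q (gd g) b R) :=
  UPoly.mul (upoly_powc (UPoly.mul upoly_gN (UPoly.const q)) R) (upoly_MM q b R)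

theorem poly_matC (q b : ℕ) {R : ℕ} (hR : 0 < R) :
    Poly (fun g : GI => matC g.2.1 q b R (gN g) (gd g)) := by
  have f11 : Poly (fun p : (GI × ℕ) × ℕ => p.1.1) := Poly.fst (Poly.fst Poly.id)
  have f12 : Poly (fun p : (GI × ℕ) × ℕ => p.1.2) := Poly.snd (Poly.fst Poly.id)
  have f2 : Poly (fun p : (GI × ℕ) × ℕ => p.2) := Poly.snd Poly.id
  have hN : Poly (fun p : (GI × ℕ) × ℕ => gN p.1.1) := upoly_gN.toPoly.comp f11
  have hd : Poly (fun p : (GI × ℕ) × ℕ => gd p.1.1) := upoly_gd.toPoly.comp f11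
  have hB : Poly (fun p : (GI × ℕ) × ℕ => gN p.1.1 * q) := Poly.mul hN (NPC.Poly.const q)
  have hK : Poly (fun p : (GI × ℕ) × ℕ => gN p.1.1 * q * gd p.1.1) := Poly.mul hB hd
  have hC : Poly (fun p : (GI × ℕ) × ℕ => b * (gN p.1.1 * q * gd p.1.1)) :=
    Poly.mul (NPC.Poly.const b) hK
  have hM : UPoly (fun p : (GI × ℕ) × ℕ => MM (gN p.1.1) q (gd p.1.1) b R) :=
    (upoly_MM q b R).comp f11
  have hE : Poly (fun p : (GI × ℕ) × ℕ => p.1.1.2.1) := poly_gE.comp f11
  have h1 : Poly (fun p : (GI × ℕ) × ℕ => adjC p.1.1.2.1 q (gd p.1.1) R (gN p.1.1 * q)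
      (gN p.1.1 * q * gd p.1.1) (b * (gN p.1.1 * q * gd p.1.1)) (MM (gN p.1.1) q (gd p.1.1) b R)
      p.1.2 p.2) := poly_adjC hE q hd hR hB hK hC hM f12 f2
  have hn := upoly_nn q b R
  have hn2 : Poly (fun p : GI × ℕ => List.range ((gN p.1 * q) ^ R * MM (gN p.1) q (gd p.1) b R)) :=
    hn.range.comp (Poly.fst Poly.id)
  have h2 : Poly (fun p : GI × ℕ =>
      (List.range ((gN p.1 * q) ^ R * MM (gN p.1) q (gd p.1) b R)).map fun y =>
      adjC p.1.2.1 q (gd p.1) R (gN p.1 * q) (gN p.1 * q * gd p.1)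
        (b * (gN p.1 * q * gd p.1)) (MM (gN p.1) q (gd p.1) b R) p.2 y) :=
    NPC.Poly.map (F := fun (p : GI × ℕ) (y : ℕ) => adjC p.1.2.1 q (gd p.1) R (gN p.1 * q)
      (gN p.1 * q * gd p.1) (b * (gN p.1 * q * gd p.1)) (MM (gN p.1) q (gd p.1) b R) p.2 y) hn2 h1
  unfold matC
  exact NPC.Poly.map (F := fun (g : GI) (x : ℕ) =>
    (List.range ((gN g * q) ^ R * MM (gN g) q (gd g) b R)).map fun y =>
      adjC g.2.1 q (gd g) R (gN g * q) (gN g * q * gd g) (b * (gN g * q * gd g))
        (MM (gN g) q (gd g) b R) x y) hn.range h2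

theorem poly_redF {c : ℕ} (hc : 1 ≤ c) {δ : ℝ} (hδ : 0 < δ) : Poly (redF c δ) := by
  have hs : Poly (fun g : GI => g.2.2) := Poly.snd (Poly.snd Poly.id)
  have hn : Poly (fun g : GI => nn c δ (gN g) (gd g)) := (upoly_nn (pq c) (pb c) (pR c δ)).toPoly
  have ht : Poly (fun g : GI => tt c δ (gN g) (gd g)) := by
    unfold tt
    exact Poly.add (Poly.div (poly_powc hn 2) (NPC.Poly.const _)) (NPC.Poly.const 1)
  unfold redF
  refine Poly.ite ?_ (Poly.pair (poly_matC _ _ (pR_pos hc hδ)) ht) (NPC.Poly.const _)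
  exact Poly.decide_and (Poly.decide_le (NPC.Poly.const 2) hs) (Poly.decide_le hs (Poly.fst Poly.id))

/-! ### Correctness -/

theorem regular_le {N d : ℕ} {E : List (ℕ × ℕ)} (hreg : Regular N E d) (hd : 1 ≤ d) :
    N ≤ 2 * E.length := by
  have h := card_rotL hreg (fun _ _ => true)
  simp only [Finset.filter_true, card_univ, Fintype.card_prod, Fintype.card_fin,
    List.countP_true] at h
  have h2 : N ≤ N * d := Nat.le_mul_of_pos_right _ hd
  omega

theorem cut_singleton {N d : ℕ} {E : List (ℕ × ℕ)} (hreg : Regular N E d) {x : ℕ} (hx : x < N) :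
    cut E {x} = d := by
  rw [← hreg.2 x hx]
  unfold cut
  refine List.countP_congr fun e he => ?_
  have := (hreg.1 e he).2.2
  simp only [mem_singleton, decide_eq_true_eq]
  constructor
  · intro h
    by_contra hcon
    push Not at hcon
    exact h ⟨fun h' => absurd h' hcon.1, fun h' => absurd h' hcon.2⟩
  · rintro (h | h) h'
    · exact this (h.trans (h'.1 h).symm)
    · exact this ((h'.2 h).trans h.symm)

theorem redF_spec {c : ℕ} (hc : 1 ≤ c) {δ : ℝ} (hδ : 0 < δ) {N d s : ℕ}
    {E : List (ℕ × ℕ)} (hd : 1 ≤ d) (hs : 1 ≤ s) (hreg : Regular N E d)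
    (hsN : (s : ℝ) = δ * N) : ∃ (n t : ℕ) (G : SimpleGraph (Fin n)),
      redF c δ (N, E, s) = (adjMat G, t) ∧ (∀ v, (G.neighborSet v).ncard ≤ 33) ∧
      (YesI (pe c) N E d s → cr G ≤ t) ∧ (NoI (pe c) N E d s → c * t < cr G) := by
  by_cases h : 2 ≤ s ∧ s ≤ N
  · have hN := N_pos hs hsN
    have hNR : (0 : ℝ) < N := by exact_mod_cast hN
    have hδ1 : δ ≤ 1 := by
      have h1 : (s : ℝ) ≤ N := by exact_mod_cast h.2
      rw [hsN] at h1
      by_contra hcon
      push Not at hcon
      nlinarith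
    have hb := pb_pos hc
    have : NeZero (pb c) := ⟨by omega⟩
    refine ⟨nn c δ N d, tt c δ N d, RG c hc δ hreg, ?_, ?_, ?_, ?_⟩
    · unfold redF
      rw [if_pos h]
      have e1 : gN (N, E, s) = N := min_eq_left (regular_le hreg hd)
      have e2 : gd (N, E, s) = d := length_dl hreg hN
      rw [e1, e2]
      exact Prod.ext (adjMat_NG hreg).symm rfl
    · intro v
      exact neighbors_NG hreg v
    · rintro ⟨S, h1, h2, h3⟩
      exact yes_RG hc hδ hδ1 hd hs hreg hsN S h1 h2 h3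
    · intro hno
      exact no_RG hc hδ hδ1 hd hreg hsN h.1 hno
  · refine ⟨5, 0, ⊤, ?_, ?_, ?_, ?_⟩
    · unfold redF
      rw [if_neg h]
    · intro v
      refine (Set.ncard_le_card _).trans ?_
      simp
    · rintro ⟨S, h1, h2, h3⟩
      exfalso
      have h4 : s ≤ N := by
        rw [← h2]
        simpa using card_le_card h1
      have h5 : s = 1 := by omega
      rw [h5] at h2 h3
      obtain ⟨x, rfl⟩ := card_eq_one.1 h2
      rw [cut_singleton hreg (mem_range.1 (h1 (mem_singleton_self x)))] at h3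
      have h6 := pe_lt_one hc
      have h7 : (1 : ℝ) ≤ d := by exact_mod_cast hd
      push_cast at h3
      nlinarith
    · intro _
      simpa using cr_k5

end Pool.Agent.H689.SX
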