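import Pool.Agent.H689.SX.Port
import Pool.Agent.H689.SX.Decode
import Pool.Agent.H689.SX.Poinc

/-!
# Balanced functions are cut often
-/

set_option autoImplicit false
set_option linter.unusedSectionVars false

namespace Pool.Agent.H689.SX

open Finset

/-- truncation -/
noncomputable def cl (t : ℝ) : ℝ := max (1 / 4) (min (3 / 4) t)

theorem cl_mem (t : ℝ) : 1 / 4 ≤ cl t ∧ cl t ≤ 3 / 4 :=
  ⟨le_max_left _ _, max_le (by norm_num) (min_le_left _ _)⟩

theorem cl_low {t : ℝ} (h : t ≤ 1 / 4) : cl t = 1 / 4 := by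
  unfold cl
  rw [min_eq_right (by linarith), max_eq_left h]

theorem cl_high {t : ℝ} (h : 3 / 4 ≤ t) : cl t = 3 / 4 := by
  unfold cl
  rw [min_eq_left h, max_eq_right (by norm_num)]

theorem cl_lip (s t : ℝ) : |cl s - cl t| ≤ |s - t| := by
  unfold cl
  have h1 := abs_max_sub_max_le_abs (min (3 / 4) s) (min (3 / 4) t) (1 / 4)
  have h2 := abs_min_sub_min_le_max (3 / 4) s (3 / 4) t
  rw [max_comm (min (3 / 4) s), max_comm (min (3 / 4) t)] at h1
  refine h1.trans (h2.trans ?_)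
  rw [sub_self, abs_zero, max_eq_right (abs_nonneg _)]

theorem cl_diff (s t : ℝ) : (cl s - cl t) ^ 2 ≤ 1 / 4 := by
  have h1 := cl_mem s
  have h2 := cl_mem t
  nlinarith [h1.1, h1.2, h2.1, h2.2]

/-- outside of the middle region only jumps matter -/
theorem cl_out {s t : ℝ} (hs : ¬ (1 / 8 ≤ s ∧ s ≤ 7 / 8)) :
    (cl s - cl t) ^ 2 ≤ 1 / 4 * ind (1 / 8 ≤ |s - t|) := by
  by_cases h : 1 / 8 ≤ |s - t|
  · rw [ind_true h]; linarith [cl_diff s t]
  · rw [ind_false h]
    have h1 := abs_lt.1 (not_le.1 h)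
    rw [not_and_or] at hs
    rcases hs with hs | hs
    · rw [cl_low (by linarith), cl_low (by linarith)]; norm_num
    · rw [cl_high (by linarith), cl_high (by linarith)]; norm_num

section sound

variable {V J Q : Type} [Fintype V] [Fintype J] [Fintype Q] {R : ℕ}
  (G : Rot V J) (b : ℕ) [NeZero b] [Nonempty V] [Nonempty Q] [Nonempty J]

/-- the large jumps are rare -/
theorem jumps (f : (Fin R → V × Q) → ℝ) (D : ℝ)
    (hD : ∀ ω i, ev (fun z => ind (1 / 16 ≤
      |Ph G b f (Function.update ω i z) - mm G b f i ω|)) ≤ D) (i : Fin R) :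
    ev (fun p : (Fin R → V × Q) × (Fin R → V × Q) =>
      ind (1 / 8 ≤ |Ph G b f p.1 - Ph G b f (Function.update p.1 i (p.2 i))|)) ≤ 2 * D := by
  rw [ev_prod]
  have h1 : ∀ ω : Fin R → V × Q, (ev fun ω' : Fin R → V × Q =>
      ind (1 / 8 ≤ |Ph G b f ω - Ph G b f (Function.update ω i (ω' i))|)) ≤
      ind (1 / 16 ≤ |Ph G b f ω - mm G b f i ω|) + D := by
    intro ω
    rw [ev_coord i (fun z => ind (1 / 8 ≤ |Ph G b f ω - Ph G b f (Function.update ω i z)|))]
    have h2 : ∀ z, ind (1 / 8 ≤ |Ph G b f ω - Ph G b f (Function.update ω i z)|) ≤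
        ind (1 / 16 ≤ |Ph G b f ω - mm G b f i ω|) +
          ind (1 / 16 ≤ |Ph G b f (Function.update ω i z) - mm G b f i ω|) := by
      intro z
      refine le_trans (ind_mono fun h => ?_) (ind_or _ _)
      by_contra hcon
      rw [not_or, not_le, not_le] at hcon
      have h3 : |Ph G b f ω - Ph G b f (Function.update ω i z)| ≤
          |Ph G b f ω - mm G b f i ω| + |Ph G b f (Function.update ω i z) - mm G b f i ω| := by
        rw [abs_sub_comm (Ph G b f (Function.update ω i z))]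
        exact abs_sub_le _ _ _
      linarith [hcon.1, hcon.2]
    refine (ev_mono h2).trans ?_
    rw [ev_add, ev_const]
    linarith [hD ω i]
  refine (ev_mono h1).trans ?_
  rw [ev_add, ev_const]
  have h2 : ev (fun ω : Fin R → V × Q => ind (1 / 16 ≤ |Ph G b f ω - mm G b f i ω|)) ≤ D := by
    rw [← ev_update i]
    refine ev_le_const fun ω => ?_
    simp only [mm_update]
    exact hD ω i
  linarith

/-- the energy of `Ph` -/
theorem energy (f : (Fin R → V × Q) → ℝ) (hf : ∀ ω, f ω = 0 ∨ f ω = 1) :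
    ev (fun p : (Fin R → V × Q) × (Fin R → V × Q) =>
      ∑ i, (Ph G b f p.1 - Ph G b f (Function.update p.1 i (p.2 i))) ^ 2) ≤
      4 * b * kap G b f := by
  have hf' : ∀ ω, 0 ≤ f ω ∧ f ω ≤ 1 := fun ω => by
    rcases hf ω with h | h <;> rw [h] <;> norm_num
  have hb : (0 : ℝ) < b := by exact_mod_cast Nat.pos_of_ne_zero (NeZero.ne b)
  rw [ev_sum]
  have h1 : ∀ i, ev (fun p : (Fin R → V × Q) × (Fin R → V × Q) =>
      (Ph G b f p.1 - Ph G b f (Function.update p.1 i (p.2 i))) ^ 2) ≤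
      4 * ev (fun ω => (Ph G b f ω - mm G b f i ω) ^ 2) := by
    intro i
    rw [ev_prod]
    set E := ev (fun ω => (Ph G b f ω - mm G b f i ω) ^ 2) with hE
    have hE2 : ev (fun ω => ev fun z =>
        (Ph G b f (Function.update ω i z) - mm G b f i ω) ^ 2) = E := by
      rw [hE, ← ev_update i (fun ω => (Ph G b f ω - mm G b f i ω) ^ 2)]
      simp only [mm_update]
    have h2 : ∀ ω : Fin R → V × Q, (ev fun ω' : Fin R → V × Q =>
        (Ph G b f ω - Ph G b f (Function.update ω i (ω' i))) ^ 2) ≤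
        2 * (Ph G b f ω - mm G b f i ω) ^ 2 + 2 * ev fun z =>
          (Ph G b f (Function.update ω i z) - mm G b f i ω) ^ 2 := by
      intro ω
      rw [ev_coord i (fun z => (Ph G b f ω - Ph G b f (Function.update ω i z)) ^ 2)]
      have h3 : ∀ z, (Ph G b f ω - Ph G b f (Function.update ω i z)) ^ 2 ≤
          2 * (Ph G b f ω - mm G b f i ω) ^ 2 +
            2 * (Ph G b f (Function.update ω i z) - mm G b f i ω) ^ 2 := by
        intro z
        nlinarith [sq_nonneg ((Ph G b f ω - mm G b f i ω) +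
          (Ph G b f (Function.update ω i z) - mm G b f i ω))]
      refine (ev_mono h3).trans ?_
      rw [ev_add, ev_const, ev_mul]
    refine (ev_mono h2).trans ?_
    rw [ev_add, ev_mul, ev_mul, hE2]
    linarith
  refine (sum_le_sum fun i _ => h1 i).trans ?_
  rw [← mul_sum, ← ev_sum]
  have h2 : ev (fun ω => ∑ i, (Ph G b f ω - mm G b f i ω) ^ 2) ≤ b * kap G b f := by
    refine (ev_mono fun ω => bessel G b f hf' ω).trans ?_
    rw [ev_mul]
    exact mul_le_mul_of_nonneg_left (ev_var_le G b f hf) hb.le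
  linarith

theorem low_mass (f : (Fin R → V × Q) → ℝ) (hf : ∀ ω, f ω = 0 ∨ f ω = 1) :
    1 - ev f ≤ ev (fun ω => ind (Ph G b f ω ≤ 1 / 4)) + 4 * kap G b f := by
  have hf' : ∀ ω, 0 ≤ f ω ∧ f ω ≤ 1 := fun ω => by
    rcases hf ω with h | h <;> rw [h] <;> norm_num
  have h1 : 1 - ev f = ev (fun ω => 1 - Ph G b f ω) := by
    rw [ev_sub, ev_const, ev_Ph]
  rw [h1]
  have h2 : ∀ ω, 1 - Ph G b f ω ≤ ind (Ph G b f ω ≤ 1 / 4) +
      4 * (Ph G b f ω * (1 - Ph G b f ω)) := by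
    intro ω
    have hm := Ph_mem G b hf' ω
    by_cases h : Ph G b f ω ≤ 1 / 4
    · rw [ind_true h]
      have : 0 ≤ Ph G b f ω * (1 - Ph G b f ω) := mul_nonneg hm.1 (by linarith [hm.2])
      linarith [hm.1]
    · rw [ind_false h]
      push Not at h
      nlinarith [hm.1, hm.2]
  refine (ev_mono h2).trans ?_
  rw [ev_add, ev_mul]
  linarith [ev_var_le G b f hf]

theorem high_mass (f : (Fin R → V × Q) → ℝ) (hf : ∀ ω, f ω = 0 ∨ f ω = 1) :
    ev f ≤ ev (fun ω => ind (3 / 4 ≤ Ph G b f ω)) + 4 * kap G b f := by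
  have hf' : ∀ ω, 0 ≤ f ω ∧ f ω ≤ 1 := fun ω => by
    rcases hf ω with h | h <;> rw [h] <;> norm_num
  rw [← ev_Ph G b f]
  have h2 : ∀ ω, Ph G b f ω ≤ ind (3 / 4 ≤ Ph G b f ω) +
      4 * (Ph G b f ω * (1 - Ph G b f ω)) := by
    intro ω
    have hm := Ph_mem G b hf' ω
    by_cases h : 3 / 4 ≤ Ph G b f ω
    · rw [ind_true h]
      have : 0 ≤ Ph G b f ω * (1 - Ph G b f ω) := mul_nonneg hm.1 (by linarith [hm.2])
      linarith [hm.2]
    · rw [ind_false h]
      push Not at h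
      nlinarith [hm.1, hm.2]
  refine (ev_mono h2).trans ?_
  rw [ev_add, ev_mul]
  linarith [ev_var_le G b f hf]

/-- **Soundness.** -/
theorem sound (f : (Fin R → V × Q) → ℝ) (hf : ∀ ω, f ω = 0 ∨ f ω = 1)
    (h0 : 1 / 8 ≤ ev f) (h1 : ev f ≤ 7 / 8) (D : ℝ)
    (hD : ∀ ω i, ev (fun z => ind (1 / 16 ≤
      |Ph G b f (Function.update ω i z) - mm G b f i ω|)) ≤ D)
    (hRD : R * D ≤ 1 / 2 ^ 23) : 1 ≤ 7 * 10 ^ 8 * b * kap G b f ^ 2 := by
  have hf' : ∀ ω, 0 ≤ f ω ∧ f ω ≤ 1 := fun ω => by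
    rcases hf ω with h | h <;> rw [h] <;> norm_num
  have hb1 : (1 : ℝ) ≤ b := by exact_mod_cast Nat.pos_of_ne_zero (NeZero.ne b)
  set κ := kap G b f with hκ
  have hκ0 : 0 ≤ κ := ev_nonneg fun _ => abs_nonneg _
  by_cases hbig : 1 / 64 ≤ κ
  · have : (1 / 64) ^ 2 ≤ κ ^ 2 := pow_le_pow_left₀ (by norm_num) hbig 2
    nlinarith [mul_nonneg (show (0 : ℝ) ≤ b by linarith) (sq_nonneg κ)]
  push Not at hbig
  set Φ := Ph G b f with hΦ
  have hlow := low_mass G b f hf
  have hhigh := high_mass G b f hf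
  rw [← hκ, ← hΦ] at hlow hhigh
  set p0 := ev (fun ω => ind (Φ ω ≤ 1 / 4)) with hp0
  set p1 := ev (fun ω => ind (3 / 4 ≤ Φ ω)) with hp1
  have hp0' : 1 / 16 ≤ p0 := by linarith
  have hp1' : 1 / 16 ≤ p1 := by linarith
  -- the Poincaré inequality
  have hpo := poinc (fun ω => cl (Φ ω)) (fun ω => by
    have := cl_mem (Φ ω)
    exact ⟨by linarith [this.1], by linarith [this.2]⟩)
  have hL : 1 / 1024 ≤ ev (fun p : (Fin R → V × Q) × (Fin R → V × Q) =>
      (cl (Φ p.1) - cl (Φ p.2)) ^ 2) := by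
    have e1 : ev (fun p : (Fin R → V × Q) × (Fin R → V × Q) =>
        1 / 4 * (ind (Φ p.1 ≤ 1 / 4) * ind (3 / 4 ≤ Φ p.2))) = 1 / 4 * (p0 * p1) := by
      rw [ev_mul, ev_prod]
      congr 1
      simp only [ev_mul]
      rw [ev_mul']
    have e2 : ev (fun p : (Fin R → V × Q) × (Fin R → V × Q) =>
        1 / 4 * (ind (Φ p.1 ≤ 1 / 4) * ind (3 / 4 ≤ Φ p.2))) ≤
        ev (fun p : (Fin R → V × Q) × (Fin R → V × Q) => (cl (Φ p.1) - cl (Φ p.2)) ^ 2) := by
      refine ev_mono fun p => ?_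
      by_cases h1 : Φ p.1 ≤ 1 / 4
      · by_cases h2 : 3 / 4 ≤ Φ p.2
        · rw [ind_true h1, ind_true h2, cl_low h1, cl_high h2]; norm_num
        · rw [ind_false h2, mul_zero, mul_zero]; exact sq_nonneg _
      · rw [ind_false h1, zero_mul, mul_zero]; exact sq_nonneg _
    refine le_trans ?_ e2
    rw [e1]
    nlinarith
  -- the upper bound
  set A : (Fin R → V × Q) → Prop := fun ω => 1 / 8 ≤ Φ ω ∧ Φ ω ≤ 7 / 8 with hA
  have hPA : ev (fun ω => ind (A ω)) ≤ 10 * κ := by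
    have e1 : ∀ ω, ind (A ω) ≤ 10 * (Φ ω * (1 - Φ ω)) := by
      intro ω
      have hm := Ph_mem G b hf' ω
      rw [← hΦ] at hm
      by_cases h : A ω
      · rw [ind_true h]
        obtain ⟨h1, h2⟩ := h
        nlinarith
      · rw [ind_false h]
        have : 0 ≤ Φ ω * (1 - Φ ω) := mul_nonneg hm.1 (by linarith [hm.2])
        linarith
    refine (ev_mono e1).trans ?_
    rw [ev_mul]
    linarith [ev_var_le G b f hf]
  set S1 : (Fin R → V × Q) × (Fin R → V × Q) → ℝ := fun p =>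
    ∑ i, (Φ p.1 - Φ (Function.update p.1 i (p.2 i))) ^ 2 with hS1
  set S2 : (Fin R → V × Q) × (Fin R → V × Q) → ℝ := fun p =>
    ∑ i, ind (1 / 8 ≤ |Φ p.1 - Φ (Function.update p.1 i (p.2 i))|) with hS2
  have hS1n : ∀ p, 0 ≤ S1 p := fun p => sum_nonneg fun _ _ => sq_nonneg _
  have hS2n : ∀ p, 0 ≤ S2 p := fun p => sum_nonneg fun _ _ => ind_nonneg _
  have hpt : ∀ p : (Fin R → V × Q) × (Fin R → V × Q),
      √(∑ i, (cl (Φ p.1) - cl (Φ (Function.update p.1 i (p.2 i)))) ^ 2) ≤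
        ind (A p.1) * √(S1 p) + √(1 / 4 * S2 p) := by
    intro p
    by_cases hp : A p.1
    · rw [ind_true hp, one_mul]
      have e1 : √(∑ i, (cl (Φ p.1) - cl (Φ (Function.update p.1 i (p.2 i)))) ^ 2) ≤
          √(S1 p) := by
        apply Real.sqrt_le_sqrt
        refine sum_le_sum fun i _ => ?_
        rw [← sq_abs, ← sq_abs (Φ p.1 - _)]
        exact pow_le_pow_left₀ (abs_nonneg _) (cl_lip _ _) 2
      linarith [Real.sqrt_nonneg (1 / 4 * S2 p)]
    · rw [ind_false hp, zero_mul, zero_add]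
      apply Real.sqrt_le_sqrt
      rw [hS2, mul_sum]
      exact sum_le_sum fun i _ => cl_out hp
  have hU1 : ev (fun p => ind (A p.1) * √(S1 p)) ≤ √(10 * κ * (4 * b * κ)) := by
    apply Real.le_sqrt_of_sq_le
    refine (ev_cs _ _).trans ?_
    have e1 : ev (fun p : (Fin R → V × Q) × (Fin R → V × Q) => ind (A p.1) ^ 2) ≤ 10 * κ := by
      simp only [ind_sq]
      rw [ev_prod]
      simp only [ev_const]
      exact hPA
    have e2 : ev (fun p => √(S1 p) ^ 2) ≤ 4 * b * κ := by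
      rw [ev_congr fun p => Real.sq_sqrt (hS1n p)]
      exact energy G b f hf
    exact mul_le_mul e1 e2 (ev_nonneg fun _ => sq_nonneg _) (by positivity)
  have hU2 : ev (fun p => √(1 / 4 * S2 p)) ≤ 1 / 4096 := by
    refine (ev_sqrt_le fun p => mul_nonneg (by norm_num) (hS2n p)).trans ?_
    rw [ev_mul]
    have e1 : ev S2 ≤ 1 / 2 ^ 22 := by
      rw [hS2, ev_sum]
      refine (sum_le_sum fun i _ => jumps G b f D hD i).trans ?_
      rw [sum_const, card_univ, Fintype.card_fin, nsmul_eq_mul]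
      linarith
    apply Real.sqrt_le_iff.2
    constructor
    · norm_num
    · norm_num at e1 ⊢
      linarith
  have hU := (ev_mono hpt).trans (le_of_eq (ev_add _ _))
  have hfin : 1 / 4096 ≤ √(10 * κ * (4 * b * κ)) := by
    have h2 : (1 : ℝ) / 1024 ≤ 2 * (√(10 * κ * (4 * b * κ)) + 1 / 4096) := by
      refine hL.trans (hpo.trans ?_)
      apply mul_le_mul_of_nonneg_left _ (by norm_num)
      exact hU.trans (add_le_add hU1 hU2)
    linarith
  have h3 : (1 / 4096 : ℝ) ^ 2 ≤ 10 * κ * (4 * b * κ) := by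
    have h4 : (0 : ℝ) ≤ 10 * κ * (4 * b * κ) := by positivity
    calc (1 / 4096 : ℝ) ^ 2 ≤ √(10 * κ * (4 * b * κ)) ^ 2 :=
          pow_le_pow_left₀ (by norm_num) hfin 2
      _ = 10 * κ * (4 * b * κ) := Real.sq_sqrt h4
  have h4 : (10 : ℝ) * κ * (4 * b * κ) = 40 * (b * κ ^ 2) := by ring
  rw [h4] at h3
  have h5 : 0 ≤ b * κ ^ 2 := by positivity
  have h6 : (7 : ℝ) * 10 ^ 8 * b * κ ^ 2 = 7 * 10 ^ 8 * (b * κ ^ 2) := by ring
  rw [h6]
  norm_num at h3
  linarith

end sound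

end Pool.Agent.H689.SX
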