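import Pool.Agent.H689.SX.Chain

/-!
# The influence of one coordinate is small on average
-/

set_option autoImplicit false
set_option linter.unusedSectionVars false

namespace Pool.Agent.H689.SX

open Finset

section sym

variable {V J Q ι : Type} [Fintype V] [Fintype J] [Fintype Q] [Fintype ι] [DecidableEq ι]
  (G : Rot V J) (b : ℕ) [NeZero b] [Nonempty V] [Nonempty Q] [Nonempty J]

/-- the indicator of the resampling of the coordinate `i` -/
noncomputable def th (i : ι) (c : ι → Ch b V Q J) : ℝ := ind ((c i).1 = 0)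

/-- the number of resampled coordinates -/
noncomputable def KK (c : ι → Ch b V Q J) : ℝ := ∑ i, th b i c

theorem th_nonneg (i : ι) (c : ι → Ch b V Q J) : 0 ≤ th b i c := ind_nonneg _

theorem KK_ge (i : ι) (c : ι → Ch b V Q J) (h : (c i).1 = 0) : 1 ≤ KK b c := by
  have h1 : th b i c ≤ KK b c :=
    single_le_sum (f := fun i => th b i c) (fun k _ => th_nonneg b k c) (mem_univ i)
  unfold th at h1
  rwa [ind_true h] at h1

theorem KK_nonneg (c : ι → Ch b V Q J) : 0 ≤ KK b c := sum_nonneg fun k _ => th_nonneg b k c

/-- permuting the coordinates of the randomness -/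
def permC (σ : Equiv.Perm ι) : (ι → Ch b V Q J) ≃ (ι → Ch b V Q J) where
  toFun c := fun i => c (σ i)
  invFun c := fun i => c (σ.symm i)
  left_inv c := by funext i; simp
  right_inv c := by funext i; simp

theorem KK_perm (σ : Equiv.Perm ι) (c : ι → Ch b V Q J) : KK b (permC b σ c) = KK b c := by
  unfold KK th permC
  exact Equiv.sum_comp σ (fun i => ind ((c i).1 = 0))

theorem sy_perm (f : (ι → V × Q) → ℝ) (σ : Equiv.Perm ι) (y : ι → V × Q) :
    sy f (fun i => y (σ i)) = sy f y := by
  unfold sy
  exact ev_equiv (Equiv.mulLeft σ) (fun π : Equiv.Perm ι => f fun i => y (π i))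

/-- a swap of two resampled coordinates -/
theorem yy_swap (ω : ι → V × Q) (i j : ι) (c : ι → Ch b V Q J) (hi : (c i).1 = 0)
    (hj : (c j).1 = 0) :
    yy G ω (permC b (Equiv.swap i j) c) = fun k => yy G ω c (Equiv.swap i j k) := by
  funext k
  unfold yy permC
  simp only [Equiv.coe_fn_mk]
  by_cases hk : k = i
  · subst hk
    simp [st, hj]
  · by_cases hk' : k = j
    · subst hk'
      simp [st, hi]
    · rw [Equiv.swap_apply_of_ne_of_ne hk hk']

/-- (C) the probability divided by the number -/
theorem ev_th_div (i : ι) :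
    ev (fun c : ι → Ch b V Q J => th b i c / KK b c) ≤ 1 / Fintype.card ι := by
  have h1 : ∀ j, ev (fun c : ι → Ch b V Q J => th b j c / KK b c) =
      ev (fun c : ι → Ch b V Q J => th b i c / KK b c) := by
    intro j
    rw [← ev_equiv (permC b (Equiv.swap i j)) (fun c => th b i c / KK b c)]
    refine ev_congr fun c => ?_
    rw [KK_perm]
    congr 1
    unfold th permC
    simp
  have hc : (0 : ℝ) < Fintype.card ι := by
    have : Nonempty ι := ⟨i⟩
    exact card_pos'
  rw [le_div_iff₀ hc]
  have h2 : ∑ j : ι, ev (fun c : ι → Ch b V Q J => th b j c / KK b c) =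
      ev (fun c : ι → Ch b V Q J => th b i c / KK b c) * Fintype.card ι := by
    rw [sum_congr rfl fun j _ => h1 j, sum_const, card_univ, nsmul_eq_mul, mul_comm]
  rw [← h2, ← ev_sum]
  refine ev_le_const fun c => ?_
  rw [← sum_div]
  change KK b c / KK b c ≤ 1
  exact div_self_le_one _

/-- averages of functions of a resampled label -/
theorem ev_label (j : ι) (h : (ι → Ch b V Q J) → ℝ) (A : V × Q → ℝ)
    (hh : ∀ c q q', q.1 = q'.1 → h (Function.update c j q) = h (Function.update c j q')) :
    ev (fun c => h c * A (c j).2.1) = ev h * ev A := by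
  rw [← ev_update j, ← ev_update j h, ← ev_mul']
  refine ev_congr fun c => ?_
  simp only [Function.update_self]
  rw [ev_prod, ev_prod, ← ev_mul']
  refine ev_congr fun r => ?_
  obtain ⟨x0⟩ := (inferInstance : Nonempty ((V × Q) × J))
  have h1 : ∀ q : (V × Q) × J, h (Function.update c j (r, q)) =
      h (Function.update c j (r, x0)) := fun q => hh c _ _ rfl
  simp only [h1, ev_const]
  rw [ev_mul]
  congr 1
  rw [ev_prod]
  simp only [ev_const]

theorem th_update (i j : ι) (c : ι → Ch b V Q J) (q q' : Ch b V Q J) (h : q.1 = q'.1) :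
    th b i (Function.update c j q) = th b i (Function.update c j q') := by
  unfold th
  by_cases hij : i = j
  · subst hij; simp [h]
  · rw [Function.update_of_ne hij, Function.update_of_ne hij]

theorem KK_update (j : ι) (c : ι → Ch b V Q J) (q q' : Ch b V Q J) (h : q.1 = q'.1) :
    KK b (Function.update c j q) = KK b (Function.update c j q') := by
  unfold KK
  exact sum_congr rfl fun i _ => th_update b i j c q q' h

/-- the average of `a` over the resampled labels -/
noncomputable def WW (a : V × Q → ℝ) (c : ι → Ch b V Q J) : ℝ :=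
  ∑ j, th b j c / KK b c * a (c j).2.1

/-- (B) -/
theorem ev_WW_sq (i : ι) (a : V × Q → ℝ) (ha : ev a = 0) :
    ev (fun c : ι → Ch b V Q J => th b i c * WW b a c ^ 2) ≤
      1 / Fintype.card ι * ev (fun w => a w ^ 2) := by
  have e0 : ∀ c : ι → Ch b V Q J, th b i c * WW b a c ^ 2 =
      ∑ j, ∑ k, (th b i c * (th b j c / KK b c) * (th b k c / KK b c)) *
        (a (c j).2.1 * a (c k).2.1) := by
    intro c
    unfold WW
    rw [sq, sum_mul_sum, mul_sum]
    refine sum_congr rfl fun j _ => ?_
    rw [mul_sum]
    exact sum_congr rfl fun k _ => by ring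
  rw [ev_congr e0, ev_sum]
  have e1 : ∀ j k, ev (fun c : ι → Ch b V Q J =>
      (th b i c * (th b j c / KK b c) * (th b k c / KK b c)) * (a (c j).2.1 * a (c k).2.1)) =
      if j = k then ev (fun c : ι → Ch b V Q J => th b i c * (th b j c / KK b c) ^ 2) *
        ev (fun w => a w ^ 2) else 0 := by
    intro j k
    by_cases hjk : j = k
    · subst hjk
      rw [if_pos rfl]
      rw [← ev_label b j (fun c => th b i c * (th b j c / KK b c) ^ 2) (fun w => a w ^ 2)]
      · exact ev_congr fun c => by ring
      · intro c q q' h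
        rw [th_update b i j c q q' h, th_update b j j c q q' h, KK_update b j c q q' h]
    · rw [if_neg hjk]
      have e2 : ∀ c : ι → Ch b V Q J,
          (th b i c * (th b j c / KK b c) * (th b k c / KK b c)) * (a (c j).2.1 * a (c k).2.1) =
          ((th b i c * (th b j c / KK b c) * (th b k c / KK b c)) * a (c k).2.1) *
            a (c j).2.1 := fun c => by ring
      rw [ev_congr e2, ev_label b j (fun c => (th b i c * (th b j c / KK b c) *
        (th b k c / KK b c)) * a (c k).2.1) a, ha, mul_zero]
      intro c q q' h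
      simp only [th_update b i j c q q' h, th_update b j j c q q' h, th_update b k j c q q' h,
        KK_update b j c q q' h, Function.update_of_ne (Ne.symm hjk)]
  have e3 : ∀ j : ι, ev (fun c : ι → Ch b V Q J => ∑ k,
      (th b i c * (th b j c / KK b c) * (th b k c / KK b c)) * (a (c j).2.1 * a (c k).2.1)) =
      ev (fun c : ι → Ch b V Q J => th b i c * (th b j c / KK b c) ^ 2) *
        ev (fun w => a w ^ 2) := by
    intro j
    rw [ev_sum, sum_congr rfl fun k _ => e1 j k]
    simp
  rw [sum_congr rfl fun j _ => e3 j, ← sum_mul, ← ev_sum]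
  refine mul_le_mul_of_nonneg_right ?_ (ev_nonneg fun _ => sq_nonneg _)
  refine le_trans (ev_mono fun c => ?_) (ev_th_div (V := V) (Q := Q) (J := J) b i)
  rw [← mul_sum]
  by_cases hc : (c i).1 = 0
  · have hK := KK_ge b i c hc
    rw [show th b i c = 1 from ind_true hc, one_mul]
    have e4 : ∑ j, (th b j c / KK b c) ^ 2 = (1 / KK b c ^ 2) * KK b c := by
      have : ∀ j, (th b j c / KK b c) ^ 2 = (1 / KK b c ^ 2) * th b j c := by
        intro j
        have := ind_sq ((c j).1 = 0)
        rw [div_pow]
        unfold th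
        rw [this]; ring
      rw [sum_congr rfl fun j _ => this j, ← mul_sum]
      rfl
    rw [e4]
    have : KK b c ≠ 0 := by linarith
    apply le_of_eq
    field_simp
  · rw [show th b i c = 0 from ind_false hc]
    simp

/-- (A) -/
theorem ev_A (f : (ι → V × Q) → ℝ) (ω : ι → V × Q) (i : ι) (a : V × Q → ℝ) :
    ev (fun c : ι → Ch b V Q J => th b i c * sy f (yy G ω c) * WW b a c) =
      (1 / b) * ev (fun w => Ps G b f i ω w * a w) := by
  have e0 : ∀ c : ι → Ch b V Q J, th b i c * sy f (yy G ω c) * WW b a c =
      ∑ j, th b i c * sy f (yy G ω c) * (th b j c / KK b c) * a (c j).2.1 := by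
    intro c
    unfold WW
    rw [mul_sum]
    exact sum_congr rfl fun j _ => by ring
  rw [ev_congr e0, ev_sum]
  have e1 : ∀ j, ev (fun c : ι → Ch b V Q J =>
      th b i c * sy f (yy G ω c) * (th b j c / KK b c) * a (c j).2.1) =
      ev (fun c : ι → Ch b V Q J =>
        th b i c * sy f (yy G ω c) * (th b j c / KK b c) * a (c i).2.1) := by
    intro j
    rw [← ev_equiv (permC b (Equiv.swap i j))]
    refine ev_congr fun c => ?_
    rw [KK_perm]
    have h1 : th b i (permC b (Equiv.swap i j) c) = th b j c := by
      unfold th permC; simp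
    have h2 : th b j (permC b (Equiv.swap i j) c) = th b i c := by
      unfold th permC; simp
    have h3 : (permC b (Equiv.swap i j) c j) = c i := by
      unfold permC; simp
    rw [h1, h2, h3]
    by_cases hi : (c i).1 = 0
    · by_cases hj : (c j).1 = 0
      · rw [yy_swap G b ω i j c hi hj, sy_perm]
        rw [show th b i c = 1 from ind_true hi, show th b j c = 1 from ind_true hj]
      · rw [show th b j c = 0 from ind_false hj]
        simp
    · rw [show th b i c = 0 from ind_false hi]
      simp
  rw [sum_congr rfl fun j _ => e1 j, ← ev_sum]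
  have e2 : ∀ c : ι → Ch b V Q J,
      (∑ j, th b i c * sy f (yy G ω c) * (th b j c / KK b c) * a (c i).2.1) =
      th b i c * sy f (yy G ω c) * a (c i).2.1 := by
    intro c
    have h1 : ∀ j, th b i c * sy f (yy G ω c) * (th b j c / KK b c) * a (c i).2.1 =
        (sy f (yy G ω c) * a (c i).2.1) * (th b i c * (th b j c / KK b c)) := fun j => by ring
    rw [sum_congr rfl fun j _ => h1 j, ← mul_sum, ← mul_sum, ← sum_div]
    by_cases hi : (c i).1 = 0
    · have hK := KK_ge b i c hi
      have : KK b c / KK b c = 1 := div_self (by linarith)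
      change (sy f (yy G ω c) * a (c i).2.1) * (th b i c * (KK b c / KK b c)) = _
      rw [this]; ring
    · rw [show th b i c = 0 from ind_false hi]
      simp
  rw [ev_congr e2, ← ev_update i]
  simp only [yy_update, Function.update_self]
  have e3 : ∀ c : ι → Ch b V Q J, (ev fun q : Ch b V Q J =>
      th b i (Function.update c i q) * sy f (Function.update (yy G ω c) i (st G (ω i) q)) *
        a q.2.1) =
      (1 / b) * ev (fun w => sy f (Function.update (yy G ω c) i w) * a w) := by
    intro c
    rw [← ev_step0 G b (ω i) (fun w => sy f (Function.update (yy G ω c) i w) * a w)]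
    refine ev_congr fun q => ?_
    unfold th
    simp only [Function.update_self]
    by_cases hq : q.1 = 0
    · simp only [st, hq, if_true]
      ring
    · rw [ind_false hq]; ring
  rw [ev_congr e3, ev_mul, ev_comm]
  congr 1
  refine ev_congr fun w => ?_
  unfold Ps
  rw [← ev_mul']

/-- **The influence of one coordinate.** -/
theorem infl (f : (ι → V × Q) → ℝ) (hf : ∀ ω, 0 ≤ f ω ∧ f ω ≤ 1) (ω : ι → V × Q) (i : ι) :
    ev (fun w => (Ps G b f i ω w - mm G b f i ω) ^ 2) ≤ b / Fintype.card ι := by
  have hb : (0 : ℝ) < b := by exact_mod_cast Nat.pos_of_ne_zero (NeZero.ne b)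
  have hR : (0 : ℝ) < Fintype.card ι := by
    have : Nonempty ι := ⟨i⟩
    exact card_pos'
  set m := mm G b f i ω with hm
  set a : V × Q → ℝ := fun w => Ps G b f i ω w - m with ha
  have ha0 : ev a = 0 := by
    simp only [ha]
    rw [ev_sub, ev_const, hm]
    unfold mm
    ring
  have h1 := ev_A G b f ω i a
  have h2 := ev_WW_sq (ι := ι) (J := J) b i a ha0
  set S := ev (fun w => a w ^ 2) with hS
  have hS0 : 0 ≤ S := ev_nonneg fun _ => sq_nonneg _
  have h3 : ev (fun w => Ps G b f i ω w * a w) = S := by
    have : ∀ w, Ps G b f i ω w * a w = a w ^ 2 + m * a w := fun w => by simp only [ha]; ring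
    rw [ev_congr this, ev_add, ev_mul, ha0]
    ring
  rw [h3] at h1
  have h4 := ev_cs (fun c : ι → Ch b V Q J => th b i c * sy f (yy G ω c))
    (fun c => th b i c * WW b a c)
  have h5 : ∀ c : ι → Ch b V Q J, th b i c * sy f (yy G ω c) * (th b i c * WW b a c) =
      th b i c * sy f (yy G ω c) * WW b a c := by
    intro c
    have := ind_sq ((c i).1 = 0)
    unfold th
    linear_combination (sy f (yy G ω c) * WW b a c) * this
  have h6 : ∀ c : ι → Ch b V Q J, (th b i c * WW b a c) ^ 2 = th b i c * WW b a c ^ 2 := by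
    intro c
    have := ind_sq ((c i).1 = 0)
    unfold th
    linear_combination (WW b a c ^ 2) * this
  have h7 : ∀ c : ι → Ch b V Q J, (th b i c * sy f (yy G ω c)) ^ 2 ≤ th b i c := by
    intro c
    have h8 := sy_mem f hf (yy G ω c)
    have := ind_sq ((c i).1 = 0)
    rw [mul_pow]
    unfold th
    rw [this]
    have h9 : sy f (yy G ω c) ^ 2 ≤ 1 := by nlinarith
    nlinarith [ind_nonneg ((c i).1 = 0)]
  have h8 : ev (fun c : ι → Ch b V Q J => th b i c) = 1 / b := by
    unfold th
    rw [ev_coord i (fun q : Ch b V Q J => ind (q.1 = 0)), ev_prod]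
    simp only [ev_const]
    exact ev_zero b
  rw [ev_congr h5, ev_congr h6, h1] at h4
  have h9 : (1 / b * S) ^ 2 ≤ 1 / b * (1 / Fintype.card ι * S) := by
    refine h4.trans (mul_le_mul ((ev_mono h7).trans (le_of_eq h8)) h2
      (ev_nonneg fun c => mul_nonneg (th_nonneg b i c) (sq_nonneg _)) (by positivity))
  rcases hS0.eq_or_lt with hz | hpos
  · rw [← hz]; positivity
  · rw [le_div_iff₀ hR]
    have h10 : (1 / b * S) ^ 2 * (b ^ 2 * Fintype.card ι) ≤
        1 / b * (1 / Fintype.card ι * S) * (b ^ 2 * Fintype.card ι) :=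
      mul_le_mul_of_nonneg_right h9 (by positivity)
    have h11 : (1 / b * S) ^ 2 * (b ^ 2 * Fintype.card ι) = S * (S * Fintype.card ι) := by
      field_simp
    have h12 : 1 / b * (1 / Fintype.card ι * S) * ((b : ℝ) ^ 2 * Fintype.card ι) = S * b := by
      field_simp
    rw [h11, h12] at h10
    exact le_of_mul_le_mul_left h10 hpos

end sym

end Pool.Agent.H689.SX
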